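import Pool.Agent.H288.TF.Stm

set_option autoImplicit false

open Finset

namespace Pool.Agent.H288.TF.AFFN

open Pool.Agent.H288.TF

/-- Locality of `cp`. -/
theorem cp_congr (h h' : ℕ → ℂ) : ∀ (p n : ℕ), (∀ a, 1 ≤ a → a ≤ n → h' a = h a) →
    cp h' p n = cp h p n := by
  intro p
  induction p with
  | zero => intro n _; rfl
  | succ p ih =>
    intro n hn
    simp only [cp]
    refine Finset.sum_congr rfl ?_
    intro a ha
    rw [Finset.mem_Icc] at ha
    rw [hn a ha.1 ha.2, ih (n - a) (fun b hb1 hb2 => hn b hb1 (by omega))]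

theorem cp_zero_right (h : ℕ → ℂ) (p : ℕ) : cp h (p + 1) 0 = 0 := by
  simp [cp]

theorem cp_one_left (h : ℕ → ℂ) (n : ℕ) (hn : 1 ≤ n) : cp h 1 n = h n := by
  have : cp h 1 n = ∑ a ∈ Finset.Icc 1 n, h a * (if n - a = 0 then 1 else 0) := rfl
  rw [this]
  rw [Finset.sum_eq_single n]
  · simp
  · intro b hb hbn
    rw [Finset.mem_Icc] at hb
    rw [if_neg (by omega), mul_zero]
  · intro hn'
    exact absurd (Finset.mem_Icc.2 ⟨hn, le_refl n⟩) hn'

theorem cp_one_right (h : ℕ → ℂ) (p : ℕ) : cp h (p + 2) 1 = 0 := by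
  have : cp h (p + 2) 1 = ∑ a ∈ Finset.Icc 1 1, h a * cp h (p + 1) (1 - a) := rfl
  rw [this]
  simp [cp_zero_right]

/-- For `p ≥ 2`, `cp h p e` does not involve `h e`. -/
theorem cp_two_congr (h h' : ℕ → ℂ) (p e : ℕ) (he : ∀ a, a ≠ e → h' a = h a) :
    cp h' (p + 2) e = cp h (p + 2) e := by
  have h1 : ∀ g : ℕ → ℂ, cp g (p + 2) e = ∑ a ∈ Finset.Icc 1 e, g a * cp g (p + 1) (e - a) :=
    fun g => rfl
  rw [h1, h1]
  refine Finset.sum_congr rfl ?_
  intro a ha
  rw [Finset.mem_Icc] at ha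
  by_cases hae : a = e
  · subst hae
    rw [Nat.sub_self, cp_zero_right, cp_zero_right, mul_zero, mul_zero]
  · rw [he a hae, cp_congr h h' (p + 1) (e - a) (fun b _ hb2 => he b (by omega))]

/-- The inner sum. -/
noncomputable def SS (h : ℕ → ℂ) (e a : ℕ) : ℂ :=
  ∑ p ∈ Finset.Icc 1 (e + 1), (-Complex.I * a) ^ p / (p.factorial : ℂ) * cp h p (e + 1 - a)

theorem SS_mid (h h' : ℕ → ℂ) (e a : ℕ) (ha : 2 ≤ a) (he : ∀ a, a ≠ e → h' a = h a)
    (hae : a ≤ e) : SS h' e a = SS h e a := by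
  unfold SS
  refine Finset.sum_congr rfl ?_
  intro p _
  rw [cp_congr h h' p (e + 1 - a) (fun b _ hb => he b (by omega))]

theorem SS_top (h : ℕ → ℂ) (e : ℕ) : SS h e e = -Complex.I * e * h 1 := by
  unfold SS
  rw [Finset.sum_eq_single 1]
  · have : e + 1 - e = 1 := by omega
    rw [this, cp_one_left h 1 (le_refl 1)]
    simp
  · intro p hp hp1
    rw [Finset.mem_Icc] at hp
    have : e + 1 - e = 1 := by omega
    rw [this]
    obtain ⟨k, rfl⟩ : ∃ k, p = k + 2 := ⟨p - 2, by omega⟩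
    rw [cp_one_right, mul_zero]
  · intro hh
    exact absurd (Finset.mem_Icc.2 ⟨le_refl 1, by omega⟩) hh

theorem SS_one (h h' : ℕ → ℂ) (e : ℕ) (he1 : 1 ≤ e) (he : ∀ a, a ≠ e → h' a = h a) :
    SS h' e 1 = SS h e 1 - Complex.I * (h' e - h e) := by
  have hk : SS h' e 1 - SS h e 1 = - Complex.I * (h' e - h e) := by
    unfold SS
    rw [← Finset.sum_sub_distrib]
    rw [Finset.sum_eq_single 1]
    · have : e + 1 - 1 = e := by omega
      rw [this, cp_one_left h e he1, cp_one_left h' e he1]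
      simp
      ring
    · intro p hp hp1
      rw [Finset.mem_Icc] at hp
      have : e + 1 - 1 = e := by omega
      rw [this]
      obtain ⟨k, rfl⟩ : ∃ k, p = k + 2 := ⟨p - 2, by omega⟩
      rw [cp_two_congr h h' k e he, sub_self]
    · intro hh
      exact absurd (Finset.mem_Icc.2 ⟨le_refl 1, by omega⟩) hh
  linear_combination hk

theorem Nl_eq (q : ℂ) (h : ℕ → ℂ) (e : ℕ) :
    Nl q h (e + 1) = ∑ a ∈ Finset.Ico 1 (e + 1), q ^ a * h a * SS h e a := rfl

theorem main (q : ℂ) (h h' : ℕ → ℂ) (e : ℕ) (he2 : 2 ≤ e) (he : ∀ a, a ≠ e → h' a = h a) :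
    Nl q h' (e + 1) = Nl q h (e + 1) - Complex.I * (q + e * q ^ e) * h 1 * (h' e - h e) := by
  have hs : ∀ g : ℕ → ℂ, Nl q g (e + 1) = q * g 1 * SS g e 1 + q ^ e * g e * SS g e e +
      ∑ a ∈ Finset.Ico 2 e, q ^ a * g a * SS g e a := by
    intro g
    rw [Nl_eq, Finset.sum_Ico_succ_top (by omega), Finset.sum_eq_sum_Ico_succ_bot (by omega)]
    ring
  rw [hs h', hs h]
  have h3 : ∑ a ∈ Finset.Ico 2 e, q ^ a * h' a * SS h' e a =
      ∑ a ∈ Finset.Ico 2 e, q ^ a * h a * SS h e a := by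
    refine Finset.sum_congr rfl ?_
    intro a ha
    rw [Finset.mem_Ico] at ha
    rw [he a (by omega), SS_mid h h' e a ha.1 he (by omega)]
  rw [h3, SS_top, SS_top, he 1 (by omega), SS_one h h' e (by omega) he]
  ring

end Pool.Agent.H288.TF.AFFN

namespace Pool.Agent.H288.TF

theorem t_AFF : S_AFF := fun q h h' e he2 he => AFFN.main q h h' e he2 he

end Pool.Agent.H288.TF
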