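import Pool.Agent.H288.TF.Stm

/-! BASE: the first mode. -/

set_option autoImplicit false

namespace Pool.Agent.H288.TF

namespace BASEN

lemma norm_qq_le (t : ℕ) : ‖qq t‖ ≤ 1 := by
  unfold qq
  rw [Complex.norm_exp, Real.exp_le_one_iff]
  have h4 : (4 : ℂ) / 4 ^ t = ((4 / 4 ^ t : ℝ) : ℂ) := by push_cast; rfl
  rw [h4, Complex.neg_re, Complex.re_mul_ofReal]
  have h1 : (th).re = Real.log 3 := by
    unfold th
    rw [Complex.add_re, Complex.ofReal_re, Complex.re_ofReal_mul, Complex.I_re, mul_zero, add_zero]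
  rw [h1]
  have h2 : 0 ≤ Real.log 3 := Real.log_nonneg (by norm_num)
  have h3 : (0 : ℝ) ≤ 4 / 4 ^ t := by positivity
  nlinarith [mul_nonneg h2 h3]

lemma norm_AA_le (t : ℕ) : ‖AA t 1‖ ≤ 4 := by
  unfold AA
  rw [pow_one]
  calc ‖1 + 3 * qq t‖ ≤ ‖(1 : ℂ)‖ + ‖3 * qq t‖ := norm_add_le _ _
    _ = 1 + 3 * ‖qq t‖ := by simp
    _ ≤ 4 := by linarith [norm_qq_le t]

lemma AA_one : AA 1 1 = 0 := by
  unfold AA qq th
  have h : -(((Real.log 3 : ℂ) + Real.pi * Complex.I) * (4 / 4 ^ 1)) =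
      ((-Real.log 3 : ℝ) : ℂ) + -(Real.pi * Complex.I) := by
    push_cast
    ring
  rw [h, Complex.exp_add, ← Complex.ofReal_exp, Real.exp_neg, Real.exp_log (by norm_num),
    Complex.exp_neg, Complex.exp_pi_mul_I]
  push_cast
  norm_num

lemma Nl_one (q : ℂ) (h : ℕ → ℂ) : Nl q h 1 = 0 := by
  unfold Nl
  simp

lemma lev_le (L : ℕ) (g : ℕ → ℂ) (hg : g 1 = 1) : ∀ d : ℕ, ‖lev L g d 1‖ ≤ 4 ^ d / 4 ^ L := by
  intro d
  induction d with
  | zero =>
    show ‖g 1 / 4 ^ L‖ ≤ _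
    rw [hg]
    simp
  | succ d ih =>
    show ‖AA (L - d) 1 * lev L g d 1 + 3 * Nl (qq (L - d)) (lev L g d) 1‖ ≤ _
    rw [Nl_one, mul_zero, add_zero, norm_mul]
    calc ‖AA (L - d) 1‖ * ‖lev L g d 1‖ ≤ 4 * (4 ^ d / 4 ^ L) :=
          mul_le_mul (norm_AA_le _) ih (norm_nonneg _) (by norm_num)
      _ = 4 ^ (d + 1) / 4 ^ L := by ring

end BASEN

open BASEN in
theorem t_BASE : S_BASE := by
  intro L hL b hb
  set g : ℕ → ℂ := fun j => if j = 1 then 1 else 0 with hgdef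
  have hg : g 1 = 1 := by simp [hgdef]
  refine ⟨hg, ?_, ?_⟩
  · intro j h1 h2 i hi
    have hj : j = 1 := le_antisymm h2 h1
    subst hj
    rw [hb, mul_one]
    show ‖lev L g (L - i) 1‖ ≤ MM i 1
    refine (lev_le L g hg (L - i)).trans ?_
    unfold MM
    have h4 : max ((4 : ℝ) ^ i) ((1 : ℕ) : ℝ) = 4 ^ i := by
      rw [Nat.cast_one]
      exact max_eq_left (one_le_pow₀ (by norm_num))
    rw [h4, div_le_div_iff₀ (by positivity) (by positivity), one_mul, ← pow_add,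
      Nat.sub_add_cancel hi]
  · intro j hj hodd
    have hj1 : j = 1 := by
      rcases hodd with ⟨k, hk⟩
      omega
    subst hj1
    obtain ⟨M, rfl⟩ : ∃ M, L = M + 1 := ⟨L - 1, by omega⟩
    show AA (M + 1 - M) 1 * lev (M + 1) g M 1 + 3 * Nl (qq (M + 1 - M)) (lev (M + 1) g M) 1 = 0
    rw [Nl_one, Nat.add_sub_cancel_left, AA_one]
    simp

end Pool.Agent.H288.TF
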