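import Pool.Agent.H288.TF.Stm

/-! # TF-CAU (helper725): Cauchy's formula for a half-plane -/

set_option autoImplicit false

open MeasureTheory Set Filter Topology

namespace Pool.Agent.H288.TF

namespace CAUN

/-- dividing by `ζ - w` gains a factor `1 / ‖ζ‖` -/
theorem divb (u ζ w : ℂ) (h : 2 * ‖w‖ ≤ ‖ζ‖) : ‖u / (ζ - w)‖ * ‖ζ‖ ≤ 2 * ‖u‖ := by
  by_cases h0 : ζ - w = 0
  · rw [h0, div_zero, norm_zero, zero_mul]
    exact mul_nonneg zero_le_two (norm_nonneg u)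
  · have h1 : 0 < ‖ζ - w‖ := norm_pos_iff.2 h0
    rw [norm_div, div_mul_eq_mul_div, div_le_iff₀ h1]
    have h2 : ‖ζ‖ ≤ ‖ζ - w‖ + ‖w‖ := by
      calc ‖ζ‖ = ‖(ζ - w) + w‖ := by rw [sub_add_cancel]
        _ ≤ ‖ζ - w‖ + ‖w‖ := norm_add_le _ _
    have h3 : ‖ζ‖ ≤ 2 * ‖ζ - w‖ := by linarith
    calc ‖u‖ * ‖ζ‖ ≤ ‖u‖ * (2 * ‖ζ - w‖) := mul_le_mul_of_nonneg_left h3 (norm_nonneg u)
      _ = 2 * ‖u‖ * ‖ζ - w‖ := by ring

/-- integrability of a continuous function which is `O(1/x²)` -/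
theorem integ (f : ℝ → ℂ) (hf : Continuous f) (R M : ℝ)
    (hb : ∀ x : ℝ, R ≤ |x| → ‖f x‖ * |x| ^ 2 ≤ M) : Integrable f := by
  refine hf.locallyIntegrable.integrable_of_isBigO_cocompact
    (g := fun x : ℝ => (1 + x ^ 2)⁻¹) ?_ (integrable_inv_one_add_sq.integrableAtFilter _)
  refine Asymptotics.IsBigO.of_bound (2 * M) ?_
  have h1 : ∀ᶠ x : ℝ in cocompact ℝ, max R 1 ≤ ‖x‖ :=
    (tendsto_norm_cocompact_atTop (E := ℝ)).eventually_ge_atTop _
  filter_upwards [h1] with x hx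
  rw [Real.norm_eq_abs] at hx
  have hx1 : 1 ≤ |x| := (le_max_right _ _).trans hx
  have hxR : R ≤ |x| := (le_max_left _ _).trans hx
  have h2 := hb x hxR
  have h3 : |x| ^ 2 = x ^ 2 := sq_abs x
  have h4 : 1 ≤ x ^ 2 := by
    rw [← h3]
    nlinarith
  have h5 : 0 < 1 + x ^ 2 := by linarith
  have h6 : ‖(1 + x ^ 2)⁻¹‖ = (1 + x ^ 2)⁻¹ := by
    rw [Real.norm_eq_abs, abs_of_pos (inv_pos.2 h5)]
  rw [h6, ← div_eq_mul_inv, le_div_iff₀ h5]
  rw [h3] at h2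
  have h7 : 0 ≤ ‖f x‖ := norm_nonneg _
  nlinarith [mul_le_mul_of_nonneg_left h4 h7]

/-- the integral over the real line vanishes -/
theorem van (φ : ℂ → ℂ) (R M : ℝ) (hc : ContinuousOn φ {z | 0 ≤ z.im})
    (hd : DifferentiableOn ℂ φ {z | 0 < z.im})
    (hb : ∀ ζ : ℂ, 0 ≤ ζ.im → R ≤ ‖ζ‖ → ‖φ ζ‖ * ‖ζ‖ ^ 2 ≤ M) :
    Integrable (fun x : ℝ => φ x) ∧ ∫ x : ℝ, φ x = 0 := by
  have hcr : Continuous (fun x : ℝ => φ x) := by
    have h1 : ContinuousOn (fun x : ℝ => φ (x : ℂ)) univ :=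
      hc.comp Complex.continuous_ofReal.continuousOn (fun x _ => by
        show 0 ≤ ((x : ℝ) : ℂ).im
        rw [Complex.ofReal_im])
    exact continuousOn_univ.1 h1
  have hI : Integrable (fun x : ℝ => φ x) := by
    refine integ _ hcr R M fun x hx => ?_
    have := hb (x : ℂ) (by rw [Complex.ofReal_im]) (by rw [Complex.norm_real]; exact hx)
    rw [Complex.norm_real] at this
    exact this
  refine ⟨hI, ?_⟩
  have ht : Tendsto (fun T : ℝ => ∫ x in (-T)..T, φ x) atTop (𝓝 (∫ x : ℝ, φ x)) :=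
    intervalIntegral_tendsto_integral hI tendsto_neg_atTop_atBot tendsto_id
  have ht0 : Tendsto (fun T : ℝ => ∫ x in (-T)..T, φ x) atTop (𝓝 0) := by
    have hz : Tendsto (fun T : ℝ => 4 * M / T) atTop (𝓝 0) := tendsto_const_nhds.div_atTop tendsto_id
    refine squeeze_zero_norm' ?_ hz
    filter_upwards [eventually_ge_atTop (max R 1)] with T hT
    have hTR : R ≤ T := (le_max_left _ _).trans hT
    have hT1 : 1 ≤ T := (le_max_right _ _).trans hT
    have hT0 : 0 < T := by linarith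
    have hM : ∀ ζ : ℂ, 0 ≤ ζ.im → T ≤ ‖ζ‖ → ‖φ ζ‖ ≤ M / T ^ 2 := by
      intro ζ h1 h2
      rw [le_div_iff₀ (by positivity)]
      have h3 := hb ζ h1 (hTR.trans h2)
      have h4 : T ^ 2 ≤ ‖ζ‖ ^ 2 := pow_le_pow_left₀ hT0.le h2 2
      exact (mul_le_mul_of_nonneg_left h4 (norm_nonneg _)).trans h3
    have key := Complex.integral_boundary_rect_eq_zero_of_continuousOn_of_differentiableOn φ
      (⟨-T, 0⟩ : ℂ) (⟨T, T⟩ : ℂ) (hc.mono (by
        intro ζ hζ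
        rw [Complex.mem_reProdIm] at hζ
        have h1 := hζ.2
        rw [uIcc_of_le hT0.le] at h1
        exact h1.1)) (hd.mono (by
        intro ζ hζ
        rw [Complex.mem_reProdIm] at hζ
        have h1 := hζ.2
        rw [min_eq_left hT0.le] at h1
        exact h1.1))
    simp only at key
    have e0 : ∀ x : ℝ, φ ((x : ℂ) + ((0 : ℝ) : ℂ) * Complex.I) = φ x := by
      intro x
      rw [Complex.ofReal_zero, zero_mul, add_zero]
    simp only [e0] at key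
    have b1 : ‖∫ x : ℝ in (-T)..T, φ ((x : ℂ) + (T : ℂ) * Complex.I)‖ ≤ M / T ^ 2 * |T - -T| := by
      refine intervalIntegral.norm_integral_le_of_norm_le_const fun x _ => ?_
      have hi : ((x : ℂ) + (T : ℂ) * Complex.I).im = T := by simp
      refine hM _ (by rw [hi]; exact hT0.le) ?_
      have := Complex.abs_im_le_norm ((x : ℂ) + (T : ℂ) * Complex.I)
      rw [hi] at this
      exact (le_abs_self T).trans this
    have b2 : ∀ c : ℝ, |c| = T →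
        ‖∫ y : ℝ in (0 : ℝ)..T, φ ((c : ℂ) + (y : ℂ) * Complex.I)‖ ≤ M / T ^ 2 * |T - 0| := by
      intro c hcT
      refine intervalIntegral.norm_integral_le_of_norm_le_const fun y hy => ?_
      rw [uIoc_of_le hT0.le] at hy
      have hi : ((c : ℂ) + (y : ℂ) * Complex.I).im = y := by simp
      have hr : ((c : ℂ) + (y : ℂ) * Complex.I).re = c := by simp
      refine hM _ (by rw [hi]; exact hy.1.le) ?_
      have := Complex.abs_re_le_norm ((c : ℂ) + (y : ℂ) * Complex.I)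
      rw [hr, hcT] at this
      exact this
    have b2r := b2 T (abs_of_pos hT0)
    have b2l := b2 (-T) (by rw [abs_neg, abs_of_pos hT0])
    have e1 : |T - -T| = 2 * T := by rw [sub_neg_eq_add, abs_of_pos (by linarith)]; ring
    have e2 : |T - 0| = T := by rw [sub_zero, abs_of_pos hT0]
    rw [e1] at b1
    rw [e2] at b2r b2l
    have key2 : (∫ x : ℝ in (-T)..T, φ x) =
        (∫ x : ℝ in (-T)..T, φ ((x : ℂ) + (T : ℂ) * Complex.I)) -
        Complex.I • (∫ y : ℝ in (0 : ℝ)..T, φ (((T : ℝ) : ℂ) + (y : ℂ) * Complex.I)) +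
        Complex.I • (∫ y : ℝ in (0 : ℝ)..T, φ (((-T : ℝ) : ℂ) + (y : ℂ) * Complex.I)) := by
      linear_combination key
    rw [key2]
    refine (norm_add_le _ _).trans ?_
    refine (add_le_add (norm_sub_le _ _) le_rfl).trans ?_
    rw [norm_smul, norm_smul, Complex.norm_I, one_mul, one_mul]
    refine (add_le_add (add_le_add b1 b2r) b2l).trans (le_of_eq ?_)
    field_simp
    ring
  exact tendsto_nhds_unique ht ht0

/-- the Poisson kernel -/
theorem pois (z : ℂ) (hz : 0 < z.im) :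
    Integrable (fun x : ℝ => (((x : ℂ) - (starRingEnd ℂ) z) * ((x : ℂ) - z))⁻¹) ∧
    ∫ x : ℝ, (((x : ℂ) - (starRingEnd ℂ) z) * ((x : ℂ) - z))⁻¹ = ((Real.pi / z.im : ℝ) : ℂ) := by
  have e : ∀ x : ℝ, (((x : ℂ) - (starRingEnd ℂ) z) * ((x : ℂ) - z))⁻¹ =
      (((z.im⁻¹ ^ 2 * (1 + ((x - z.re) / z.im) ^ 2)⁻¹ : ℝ)) : ℂ) := by
    intro x
    have e1 : (((x : ℂ) - (starRingEnd ℂ) z) * ((x : ℂ) - z)) =
        (((x - z.re) ^ 2 + z.im ^ 2 : ℝ) : ℂ) := by
      apply Complex.ext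
      · rw [Complex.ofReal_re, Complex.mul_re]
        simp
        ring
      · rw [Complex.ofReal_im, Complex.mul_im]
        simp
        ring
    rw [e1, ← Complex.ofReal_inv]
    congr 1
    have h1 : z.im ≠ 0 := hz.ne'
    have h2 : (x - z.re) ^ 2 + z.im ^ 2 ≠ 0 := by positivity
    have h3 : 1 + ((x - z.re) / z.im) ^ 2 ≠ 0 := by positivity
    field_simp
    ring
  have h1 : Integrable (fun x : ℝ => (1 + (x / z.im) ^ 2)⁻¹) :=
    integrable_inv_one_add_sq.comp_div hz.ne'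
  have h2 : Integrable (fun x : ℝ => (1 + ((x - z.re) / z.im) ^ 2)⁻¹) := h1.comp_sub_right z.re
  have h3 : ∫ x : ℝ, (1 + ((x - z.re) / z.im) ^ 2)⁻¹ = z.im * Real.pi := by
    rw [integral_sub_right_eq_self (f := fun x : ℝ ↦ (1 + (x / z.im) ^ 2)⁻¹),
      Measure.integral_comp_div (g := fun x : ℝ ↦ (1 + x ^ 2)⁻¹), integral_univ_inv_one_add_sq,
      abs_of_pos hz, smul_eq_mul]
  constructor
  · refine Integrable.congr ((h2.const_mul (z.im⁻¹ ^ 2)).ofReal (𝕜 := ℂ)) ?_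
    exact Eventually.of_forall fun x => (e x).symm
  · simp only [e]
    rw [integral_complex_ofReal, integral_const_mul, h3]
    congr 1
    field_simp

end CAUN

open CAUN

theorem t_CAU : S_CAU := by
  intro F M hc hd hb z hz
  obtain ⟨w, hw⟩ : ∃ w : ℂ, w = (starRingEnd ℂ) z := ⟨_, rfl⟩
  have hwim : w.im = -z.im := by rw [hw, Complex.conj_im]
  have hwn : ‖w‖ = ‖z‖ := by rw [hw, RCLike.norm_conj]
  have hwne : ∀ ζ : ℂ, 0 ≤ ζ.im → ζ - w ≠ 0 := by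
    intro ζ hζ h0
    have := congrArg Complex.im h0
    rw [Complex.sub_im, Complex.zero_im, hwim] at this
    linarith
  have hxz : ∀ x : ℝ, (x : ℂ) - z ≠ 0 := by
    intro x h0
    have := congrArg Complex.im h0
    rw [Complex.sub_im, Complex.zero_im, Complex.ofReal_im] at this
    linarith
  have hFb : ∀ ζ : ℂ, 0 ≤ ζ.im → ‖F ζ‖ * ‖ζ‖ ≤ M := by
    intro ζ hζ
    have h1 := hb ζ hζ
    have h2 : ‖F ζ‖ * ‖ζ‖ ≤ ‖F ζ‖ * (1 + ‖ζ‖) :=
      mul_le_mul_of_nonneg_left (by linarith) (norm_nonneg _)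
    exact h2.trans h1
  have hsub : ContinuousOn (fun ζ : ℂ => ζ - w) {z | 0 ≤ z.im} :=
    (continuous_id.sub continuous_const).continuousOn
  have hsubd : DifferentiableOn ℂ (fun ζ : ℂ => ζ - w) {z | 0 < z.im} :=
    (differentiable_id.sub_const w).differentiableOn
  -- the second formula
  have h2 := van (fun ζ => F ζ / (ζ - w)) (2 * ‖w‖) (2 * M)
    (hc.div hsub (fun ζ hζ => hwne ζ hζ))
    (hd.div hsubd (fun ζ hζ => hwne ζ (le_of_lt hζ))) (by
      intro ζ h0 h1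
      have h3 := divb (F ζ) ζ w h1
      have h4 := hFb ζ h0
      have h5 : 0 ≤ ‖ζ‖ := norm_nonneg ζ
      calc ‖F ζ / (ζ - w)‖ * ‖ζ‖ ^ 2 = (‖F ζ / (ζ - w)‖ * ‖ζ‖) * ‖ζ‖ := by ring
        _ ≤ (2 * ‖F ζ‖) * ‖ζ‖ := mul_le_mul_of_nonneg_right h3 h5
        _ = 2 * (‖F ζ‖ * ‖ζ‖) := by ring
        _ ≤ 2 * M := mul_le_mul_of_nonneg_left h4 zero_le_two)
  -- the first formula
  obtain ⟨A, hA⟩ : ∃ A : ℂ, A = F z * (z - w) := ⟨_, rfl⟩
  obtain ⟨H, hH⟩ : ∃ H : ℂ → ℂ, H = fun ζ => F ζ - A / (ζ - w) := ⟨_, rfl⟩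
  have hHz : H z = 0 := by
    rw [hH]
    show F z - A / (z - w) = 0
    rw [hA, mul_div_assoc, div_self (hwne z hz.le), mul_one, sub_self]
  have hHc : ContinuousOn H {z | 0 ≤ z.im} := by
    rw [hH]
    exact hc.sub (continuousOn_const.div hsub (fun ζ hζ => hwne ζ hζ))
  have hHd : DifferentiableOn ℂ H {z | 0 < z.im} := by
    rw [hH]
    exact hd.sub ((differentiableOn_const A).div hsubd (fun ζ hζ => hwne ζ (le_of_lt hζ)))
  have hopen : IsOpen {z : ℂ | 0 < z.im} := isOpen_lt continuous_const Complex.continuous_im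
  have hmem : {z : ℂ | 0 < z.im} ∈ 𝓝 z := hopen.mem_nhds hz
  have hmem' : {z : ℂ | 0 ≤ z.im} ∈ 𝓝 z := by
    refine mem_of_superset hmem ?_
    intro ζ hζ
    have h0 : 0 < ζ.im := hζ
    exact h0.le
  have hdc : ContinuousOn (dslope H z) {z | 0 ≤ z.im} :=
    (continuousOn_dslope hmem').2 ⟨hHc, hHd.differentiableAt hmem⟩
  have hdd : DifferentiableOn ℂ (dslope H z) {z | 0 < z.im} :=
    (Complex.differentiableOn_dslope hmem).2 hHd
  have hds : ∀ ζ : ℂ, ζ ≠ z → dslope H z ζ = H ζ / (ζ - z) := by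
    intro ζ hζ
    rw [dslope_of_ne _ hζ, slope_def_field, hHz, sub_zero]
  have h1 := van (dslope H z) (2 * ‖z‖ + 1) (2 * (M + 2 * ‖A‖)) hdc hdd (by
    intro ζ h0 h1
    have hne : ζ ≠ z := by
      intro h
      rw [h] at h1
      have := norm_nonneg z
      linarith
    rw [hds ζ hne]
    have h3 := divb (H ζ) ζ z (by linarith)
    have h5 : 0 ≤ ‖ζ‖ := norm_nonneg ζ
    have h4 : ‖H ζ‖ * ‖ζ‖ ≤ M + 2 * ‖A‖ := by
      have h6 : ‖H ζ‖ ≤ ‖F ζ‖ + ‖A / (ζ - w)‖ := by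
        rw [hH]
        exact norm_sub_le _ _
      calc ‖H ζ‖ * ‖ζ‖ ≤ (‖F ζ‖ + ‖A / (ζ - w)‖) * ‖ζ‖ := mul_le_mul_of_nonneg_right h6 h5
        _ = ‖F ζ‖ * ‖ζ‖ + ‖A / (ζ - w)‖ * ‖ζ‖ := by ring
        _ ≤ M + 2 * ‖A‖ := add_le_add (hFb ζ h0) (divb A ζ w (by rw [hwn]; linarith))
    calc ‖H ζ / (ζ - z)‖ * ‖ζ‖ ^ 2 = (‖H ζ / (ζ - z)‖ * ‖ζ‖) * ‖ζ‖ := by ring
      _ ≤ (2 * ‖H ζ‖) * ‖ζ‖ := mul_le_mul_of_nonneg_right h3 h5
      _ = 2 * (‖H ζ‖ * ‖ζ‖) := by ring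
      _ ≤ 2 * (M + 2 * ‖A‖) := mul_le_mul_of_nonneg_left h4 zero_le_two)
  obtain ⟨p1, p2⟩ := pois z hz
  rw [← hw] at p1 p2
  have hpt : ∀ x : ℝ, F x / ((x : ℂ) - z) =
      dslope H z x + A * (((x : ℂ) - w) * ((x : ℂ) - z))⁻¹ := by
    intro x
    have n1 := hxz x
    have n2 := hwne (x : ℂ) (by rw [Complex.ofReal_im])
    rw [hds (x : ℂ) (fun h => n1 (by rw [h, sub_self])), hH]
    show F x / ((x : ℂ) - z) = (F x - A / ((x : ℂ) - w)) / ((x : ℂ) - z) +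
      A * (((x : ℂ) - w) * ((x : ℂ) - z))⁻¹
    field_simp
    ring
  rw [← hw]
  refine ⟨?_, ?_, h2.2⟩
  · exact (h1.1.add (p1.const_mul A)).congr (Eventually.of_forall fun x => (hpt x).symm)
  · simp only [hpt]
    rw [integral_add h1.1 (p1.const_mul A), h1.2, integral_const_mul, p2, zero_add, hA]
    have e1 : z - w = 2 * (z.im : ℂ) * Complex.I := by
      rw [hw]
      apply Complex.ext
      · simp
      · simp
        ring
    rw [e1, Complex.ofReal_div]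
    have h0 : (z.im : ℂ) ≠ 0 := by exact_mod_cast hz.ne'
    field_simp

end Pool.Agent.H288.TF
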