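import Pool.Agent.H288.TF.Stm

/-!
# Continuity of the Cauchy transform under weak convergence
-/

set_option autoImplicit false

open MeasureTheory Set Filter Topology

namespace Pool.Agent.H288.TF

namespace CONTN

theorem ne_zero (z : ℂ) (hz : 0 < z.im) (t : ℝ) : z - (t : ℂ) ≠ 0 := by
  intro h
  have h1 : (z - (t : ℂ)).im = 0 := by rw [h]; rfl
  rw [Complex.sub_im, Complex.ofReal_im, sub_zero] at h1
  exact hz.ne' h1

theorem norm_le (z : ℂ) (hz : 0 < z.im) (t : ℝ) : ‖(z - (t : ℂ))⁻¹‖ ≤ z.im⁻¹ := by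
  rw [norm_inv]
  have h1 : z.im ≤ ‖z - (t : ℂ)‖ := by
    have h2 := Complex.abs_im_le_norm (z - (t : ℂ))
    rw [Complex.sub_im, Complex.ofReal_im, sub_zero] at h2
    exact (le_abs_self _).trans h2
  exact inv_anti₀ hz h1

theorem cont (z : ℂ) (hz : 0 < z.im) : Continuous (fun t : ℝ => (z - (t : ℂ))⁻¹) :=
  (continuous_const.sub Complex.continuous_ofReal).inv₀ (ne_zero z hz)

/-- The function `t ↦ (z - t)⁻¹` as a bounded continuous function. -/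
noncomputable def bf (z : ℂ) (hz : 0 < z.im) : BoundedContinuousFunction ℝ ℂ :=
  BoundedContinuousFunction.ofNormedAddCommGroup (fun t : ℝ => (z - (t : ℂ))⁻¹) (cont z hz)
    z.im⁻¹ (norm_le z hz)

theorem bf_apply (z : ℂ) (hz : 0 < z.im) (t : ℝ) : bf z hz t = (z - (t : ℂ))⁻¹ := rfl

theorem G_tendsto (ρ : ℕ → ProbabilityMeasure ℝ) (ρ₀ : ProbabilityMeasure ℝ)
    (h : Tendsto ρ atTop (𝓝 ρ₀)) (z : ℂ) (hz : 0 < z.im) :
    Tendsto (fun n => G (ρ n : Measure ℝ) z) atTop (𝓝 (G (ρ₀ : Measure ℝ) z)) := by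
  rw [ProbabilityMeasure.tendsto_iff_forall_integral_rclike_tendsto ℂ] at h
  exact h (bf z hz)

theorem im_inv (z : ℂ) (t : ℝ) :
    ((z - (t : ℂ))⁻¹).im = -(z.im / Complex.normSq (z - (t : ℂ))) := by
  rw [Complex.inv_im, Complex.sub_im, Complex.ofReal_im, sub_zero]
  ring

theorem G_ne (ρ₀ : ProbabilityMeasure ℝ) (z : ℂ) (hz : 0 < z.im) :
    G (ρ₀ : Measure ℝ) z ≠ 0 := by
  intro h
  have hint : Integrable (fun t : ℝ => (z - (t : ℂ))⁻¹) (ρ₀ : Measure ℝ) := by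
    exact (bf z hz).integrable (ρ₀ : Measure ℝ)
  have h1 : ∫ t : ℝ, ((z - (t : ℂ))⁻¹).im ∂(ρ₀ : Measure ℝ) = 0 := by
    have h2 : ∫ t : ℝ, RCLike.im ((z - (t : ℂ))⁻¹) ∂(ρ₀ : Measure ℝ) =
        RCLike.im (∫ t : ℝ, (z - (t : ℂ))⁻¹ ∂(ρ₀ : Measure ℝ)) := integral_im hint
    have h3 : (∫ t : ℝ, (z - (t : ℂ))⁻¹ ∂(ρ₀ : Measure ℝ)) = 0 := h
    rw [h3] at h2
    simpa using h2
  have h4 : ∫ t : ℝ, z.im / Complex.normSq (z - (t : ℂ)) ∂(ρ₀ : Measure ℝ) = 0 := by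
    have h5 : ∫ t : ℝ, ((z - (t : ℂ))⁻¹).im ∂(ρ₀ : Measure ℝ) =
        ∫ t : ℝ, -(z.im / Complex.normSq (z - (t : ℂ))) ∂(ρ₀ : Measure ℝ) :=
      integral_congr_ae (Filter.Eventually.of_forall (fun t => im_inv z t))
    rw [h5, integral_neg] at h1
    linarith only [h1]
  have hpos : ∀ t : ℝ, 0 < z.im / Complex.normSq (z - (t : ℂ)) := fun t =>
    div_pos hz (Complex.normSq_pos.2 (ne_zero z hz t))
  have hint2 : Integrable (fun t : ℝ => z.im / Complex.normSq (z - (t : ℂ)))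
      (ρ₀ : Measure ℝ) := by
    have h6 := hint.im.neg
    refine h6.congr (Filter.Eventually.of_forall (fun t => ?_))
    have h7 : (-fun t : ℝ => RCLike.im ((z - (t : ℂ))⁻¹)) t = -((z - (t : ℂ))⁻¹).im := rfl
    show (-fun t : ℝ => RCLike.im ((z - (t : ℂ))⁻¹)) t = _
    rw [h7, im_inv, neg_neg]
  have h8 := (integral_pos_iff_support_of_nonneg (μ := (ρ₀ : Measure ℝ))
    (f := fun t : ℝ => z.im / Complex.normSq (z - (t : ℂ)))
    (fun t => (hpos t).le) hint2).2 (by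
      have h9 : Function.support (fun t : ℝ => z.im / Complex.normSq (z - (t : ℂ))) = univ :=
        Set.eq_univ_of_forall (fun t => (hpos t).ne')
      rw [h9, measure_univ]
      exact one_pos)
  exact h8.ne' h4

end CONTN

theorem t_CONT : S_CONT := by
  intro ρ ρ₀ h z hz
  unfold KK
  exact tendsto_const_nhds.sub ((CONTN.G_tendsto ρ ρ₀ h z hz).inv₀ (CONTN.G_ne ρ₀ z hz))

end Pool.Agent.H288.TF
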