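import Pool.Agent.H288.TF.Stm

set_option autoImplicit false

open MeasureTheory Set Filter Topology

namespace Pool.Agent.H288.TF

theorem t_CORE (h1 : S_MAJ) (h2 : S_STEP) (h3 : S_BASE) (h4 : S_LOC) (h5 : S_WT) : S_CORE := by
  obtain ⟨C, hC, hstep⟩ := h2
  obtain ⟨b, B, hB, hb0, hb1, hbB, hbC, hbe⟩ := h1 C hC
  refine ⟨B, hB, ?_⟩
  intro L hL
  have base : Good L b (fun j => if j = 1 then 1 else 0) (2 * 0 + 1) := h3 L hL b hb1
  have step : ∀ k : ℕ, ∀ g : {g : ℕ → ℂ // Good L b g (2 * k + 1)},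
      ∃ g' : {g : ℕ → ℂ // Good L b g (2 * (k + 1) + 1)}, ∀ a, a ≤ 2 * k + 1 → g'.1 a = g.1 a := by
    intro k g
    have e : 2 * (k + 1) - 1 = 2 * k + 1 := by omega
    have hg : Good L b g.1 (2 * (k + 1) - 1) := by rw [e]; exact g.2
    obtain ⟨x, y, hxy⟩ := hstep b hb0 hb1 hbC hbe L hL (k + 1) (by omega) g.1 hg
    refine ⟨⟨_, hxy⟩, ?_⟩
    intro a ha
    show Function.update (Function.update g.1 (2 * (k + 1)) x) (2 * (k + 1) + 1) y a = g.1 a
    rw [Function.update_of_ne (by omega), Function.update_of_ne (by omega)]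
  choose nx hnx using step
  let G : (k : ℕ) → {g : ℕ → ℂ // Good L b g (2 * k + 1)} := fun k =>
    Nat.rec (motive := fun k => {g : ℕ → ℂ // Good L b g (2 * k + 1)}) ⟨_, base⟩
      (fun k g => nx k g) k
  have hG : ∀ k, G (k + 1) = nx k (G k) := fun k => rfl
  have hG1 : ∀ k a, a ≤ 2 * k + 1 → (G (k + 1)).1 a = (G k).1 a := by
    intro k a ha
    rw [hG]
    exact hnx k (G k) a ha
  have hG2 : ∀ k d a, a ≤ 2 * k + 1 → (G (k + d)).1 a = (G k).1 a := by
    intro k d
    induction d with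
    | zero => intro a _; rfl
    | succ d ih =>
      intro a ha
      rw [← Nat.add_assoc, hG1 (k + d) a (by omega)]
      exact ih a ha
  have hag : ∀ k a, a ≤ 2 * k + 1 → (G a).1 a = (G k).1 a := by
    intro k a ha
    rcases le_total k a with h | h
    · obtain ⟨d, rfl⟩ := Nat.exists_eq_add_of_le h
      exact hG2 k d (k + d) ha
    · obtain ⟨d, rfl⟩ := Nat.exists_eq_add_of_le h
      exact (hG2 a d a (by omega)).symm
  have hloc : ∀ i j, hh L (fun a => (G a).1 a) i j = hh L (G j).1 i j := by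
    intro i j
    exact h4.1 L (fun a => (G a).1 a) (G j).1 (2 * j + 1) (fun a ha => hag j a ha) i j (by omega)
  refine ⟨fun a => (G a).1 a, (G 1).2.1, ?_, ?_⟩
  · intro i hi j hj
    rw [hloc]
    have h6 := (G j).2.2.1 j hj (by omega) i hi
    obtain ⟨hM0, hM1, -⟩ := h5.2.1 i j
    refine h6.trans ?_
    calc MM i j * b j ≤ 1 / 4 ^ i * B ^ j :=
          mul_le_mul hM1 (hbB j) (hb0 j) (by positivity)
      _ = B ^ j / 4 ^ i := by ring
  · intro j hj
    rw [hloc]
    exact (G j).2.2.2 j (by omega) hj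

end Pool.Agent.H288.TF
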