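import Pool.Agent.H288.TF.Stm

set_option autoImplicit false

namespace Pool.Agent.H288.TF

namespace CPN

theorem cp_zero_right {R : Type} [CommSemiring R] (h : ℕ → R) (p : ℕ) (hp : 1 ≤ p) :
    cp h p 0 = 0 := by
  obtain ⟨q, rfl⟩ := Nat.exists_eq_add_of_le' hp
  simp [cp]

theorem cp_one {R : Type} [CommSemiring R] (h : ℕ → R) (m : ℕ) (hm : 1 ≤ m) :
    cp h (0 + 1) m = h m := by
  unfold cp
  rw [Finset.sum_eq_single m]
  · simp [cp]
  · intro a ha hne
    rw [Finset.mem_Icc] at ha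
    have : m - a ≠ 0 := by omega
    simp [cp, this]
  · intro hn
    exact absurd (Finset.mem_Icc.2 ⟨hm, le_rfl⟩) hn

theorem cp_nonneg (b : ℕ → ℝ) (hb : ∀ a, 0 ≤ b a) (p : ℕ) : ∀ n, 0 ≤ cp b p n := by
  induction p with
  | zero =>
    intro n
    unfold cp
    split_ifs
    · exact zero_le_one
    · exact le_rfl
  | succ p ih =>
    intro n
    exact Finset.sum_nonneg fun a _ => mul_nonneg (hb a) (ih _)

theorem main (h1 : S_WT) (s n : ℕ) (h : ℕ → ℂ) (b : ℕ → ℝ) (hb : ∀ a, 0 ≤ b a)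
    (hh : ∀ a, 1 ≤ a → a ≤ n → ‖h a‖ ≤ MM s a * b a) (p : ℕ) :
    ∀ m, m ≤ n → ‖cp h (p + 1) m‖ ≤ (2 / 4 ^ s) ^ p * MM s m * cp b (p + 1) m := by
  obtain ⟨w1, w2, -, -⟩ := h1
  induction p with
  | zero =>
    intro m hm
    rcases Nat.eq_zero_or_pos m with rfl | hm0
    · rw [cp_zero_right h (0 + 1) le_rfl, cp_zero_right b (0 + 1) le_rfl]
      simp
    · rw [cp_one h m hm0, cp_one b m hm0, pow_zero, one_mul]
      exact hh m hm0 hm
  | succ p ih =>
    intro m hm
    have e1 : cp h (p + 1 + 1) m = ∑ a ∈ Finset.Icc 1 m, h a * cp h (p + 1) (m - a) := rfl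
    have e2 : cp b (p + 1 + 1) m = ∑ a ∈ Finset.Icc 1 m, b a * cp b (p + 1) (m - a) := rfl
    rw [e1, e2, Finset.mul_sum]
    refine (norm_sum_le _ _).trans (Finset.sum_le_sum fun a ha => ?_)
    rw [Finset.mem_Icc] at ha
    rw [norm_mul]
    rcases Nat.lt_or_ge a m with hlt | hge
    · have h2 := hh a ha.1 (ha.2.trans hm)
      have h3 := ih (m - a) (by omega)
      have h4 := w1 s a (m - a) ha.1 (by omega)
      have h5 : a + (m - a) = m := by omega
      rw [h5] at h4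
      have hM := (w2 s a).1
      have hM' := (w2 s (m - a)).1
      have hb1 := cp_nonneg b hb (p + 1) (m - a)
      have hpow : (0 : ℝ) ≤ (2 / 4 ^ s) ^ p := by positivity
      calc ‖h a‖ * ‖cp h (p + 1) (m - a)‖ ≤
          (MM s a * b a) * ((2 / 4 ^ s) ^ p * MM s (m - a) * cp b (p + 1) (m - a)) :=
            mul_le_mul h2 h3 (norm_nonneg _) (mul_nonneg hM.le (hb a))
        _ = (MM s a * MM s (m - a)) * ((2 / 4 ^ s) ^ p * (b a * cp b (p + 1) (m - a))) := by ring
        _ ≤ (2 / 4 ^ s * MM s m) * ((2 / 4 ^ s) ^ p * (b a * cp b (p + 1) (m - a))) :=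
            mul_le_mul_of_nonneg_right h4 (mul_nonneg hpow (mul_nonneg (hb a) hb1))
        _ = _ := by ring
    · have h6 : m - a = 0 := by omega
      rw [h6, cp_zero_right h (p + 1) (by omega), cp_zero_right b (p + 1) (by omega)]
      simp

end CPN

theorem t_CP (h1 : S_WT) : S_CP := by
  intro s n h b hb hh p hp
  obtain ⟨q, rfl⟩ := Nat.exists_eq_add_of_le' hp
  rw [Nat.add_sub_cancel]
  exact CPN.main h1 s n h b hb hh q n le_rfl

end Pool.Agent.H288.TF
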