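import Pool.Agent.H288.TF.Stm

/-!
# Composition of power series
-/

set_option autoImplicit false

open MeasureTheory Set Filter Topology

namespace Pool.Agent.H288.TF

namespace FUNCN

open Finset

/-- the terms of the series -/
noncomputable def f (h : ℕ → ℂ) (w : ℂ) (n : ℕ) : ℂ := if n = 0 then 0 else h n * w ^ n

theorem f_zero (h : ℕ → ℂ) (w : ℂ) : f h w 0 = 0 := if_pos rfl

theorem f_pos (h : ℕ → ℂ) (w : ℂ) {n : ℕ} (hn : 1 ≤ n) : f h w n = h n * w ^ n :=
  if_neg (by omega)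

theorem cp_big (h : ℕ → ℂ) : ∀ p n : ℕ, n < p → cp h p n = 0 := by
  intro p
  induction p with
  | zero => intro n hn; omega
  | succ p ih =>
    intro n hn
    show ∑ a ∈ Finset.Icc 1 n, h a * cp h p (n - a) = 0
    refine sum_eq_zero fun a ha => ?_
    rw [Finset.mem_Icc] at ha
    rw [ih (n - a) (by omega), mul_zero]

theorem cp_zero (h : ℕ → ℂ) {n : ℕ} (hn : 1 ≤ n) : cp h 0 n = 0 := by
  show (if n = 0 then (1 : ℂ) else 0) = 0
  rw [if_neg (by omega)]

theorem conv (h : ℕ → ℂ) (w : ℂ) (p n : ℕ) :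
    cp h (p + 1) n * w ^ n =
      ∑ x ∈ antidiagonal n, f h w x.1 * (cp h p x.2 * w ^ x.2) := by
  rw [Finset.Nat.sum_antidiagonal_eq_sum_range_succ_mk]
  show (∑ a ∈ Finset.Icc 1 n, h a * cp h p (n - a)) * w ^ n =
    ∑ k ∈ range n.succ, f h w k * (cp h p (n - k) * w ^ (n - k))
  have hsub : Finset.Icc 1 n ⊆ range n.succ := by
    intro k hk
    rw [Finset.mem_Icc] at hk
    exact Finset.mem_range.2 (by omega)
  rw [← sum_subset hsub, sum_mul]
  · refine sum_congr rfl fun k hk => ?_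
    rw [Finset.mem_Icc] at hk
    rw [f_pos h w hk.1]
    have : w ^ n = w ^ k * w ^ (n - k) := by
      rw [← pow_add]
      congr 1
      omega
    rw [this]
    ring
  · intro k hk hk'
    rw [Finset.mem_range] at hk
    rw [Finset.mem_Icc] at hk'
    have : k = 0 := by omega
    rw [this, f_zero, zero_mul]

theorem pows (h : ℕ → ℂ) (w : ℂ) {S : ℝ} (hf : Summable fun n => ‖f h w n‖)
    (hS : ∑' n, ‖f h w n‖ ≤ S) (p : ℕ) :
    Summable (fun n => ‖cp h p n * w ^ n‖) ∧ ∑' n, ‖cp h p n * w ^ n‖ ≤ S ^ p ∧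
      ∑' n, cp h p n * w ^ n = (∑' n, f h w n) ^ p := by
  have hS0 : 0 ≤ S := le_trans (tsum_nonneg fun _ => norm_nonneg _) hS
  induction p with
  | zero =>
    have e : ∀ n, cp h 0 n * w ^ n = if n = 0 then 1 else 0 := by
      intro n
      show (if n = 0 then (1 : ℂ) else 0) * w ^ n = _
      split_ifs with hn
      · rw [hn, pow_zero, mul_one]
      · rw [zero_mul]
    have e' : ∀ n, ‖cp h 0 n * w ^ n‖ = if n = 0 then 1 else 0 := by
      intro n
      rw [e]
      split_ifs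
      · exact norm_one
      · exact norm_zero
    refine ⟨?_, ?_, ?_⟩
    · simp only [e']
      exact (hasSum_ite_eq 0 (1 : ℝ)).summable
    · rw [tsum_congr e', tsum_ite_eq, pow_zero]
    · rw [tsum_congr e, tsum_ite_eq, pow_zero]
  | succ p ih =>
    obtain ⟨g, hg⟩ : ∃ g : ℕ → ℂ, ∀ n, g n = cp h p n * w ^ n := ⟨_, fun _ => rfl⟩
    obtain ⟨g', hg'⟩ : ∃ g' : ℕ → ℂ, ∀ n, g' n = cp h (p + 1) n * w ^ n := ⟨_, fun _ => rfl⟩
    simp only [← hg] at ih
    simp only [← hg']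
    have hc : ∀ n, g' n = ∑ x ∈ antidiagonal n, f h w x.1 * g x.2 := by
      intro n
      rw [hg', conv h w p n]
      exact sum_congr rfl fun x _ => by rw [hg]
    obtain ⟨i1, i2, i3⟩ := ih
    simp only [hc]
    have hm : Summable fun x : ℕ × ℕ => ‖f h w x.1‖ * ‖g x.2‖ :=
      Summable.mul_of_nonneg hf i1 (fun _ => norm_nonneg _) fun _ => norm_nonneg _
    have hs1 : Summable fun n => ‖∑ x ∈ antidiagonal n, f h w x.1 * g x.2‖ :=
      summable_norm_sum_mul_antidiagonal_of_summable_norm (f := f h w) (g := g) hf i1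
    have hs2 : Summable fun n => ∑ x ∈ antidiagonal n, ‖f h w x.1‖ * ‖g x.2‖ :=
      summable_sum_mul_antidiagonal_of_summable_mul (f := fun n => ‖f h w n‖)
        (g := fun n => ‖g n‖) hm
    have e1 : (∑' n, ‖f h w n‖) * ∑' n, ‖g n‖ =
        ∑' n, ∑ x ∈ antidiagonal n, ‖f h w x.1‖ * ‖g x.2‖ :=
      Summable.tsum_mul_tsum_eq_tsum_sum_antidiagonal (f := fun n => ‖f h w n‖)
        (g := fun n => ‖g n‖) hf i1 hm
    refine ⟨hs1, ?_, ?_⟩
    · clear hm
      have e2 : ∑' n, ‖∑ x ∈ antidiagonal n, f h w x.1 * g x.2‖ ≤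
          ∑' n, ∑ x ∈ antidiagonal n, ‖f h w x.1‖ * ‖g x.2‖ := by
        refine Summable.tsum_le_tsum (fun n => ?_) hs1 hs2
        refine (norm_sum_le _ _).trans (sum_le_sum fun x _ => ?_)
        rw [norm_mul]
      refine e2.trans ?_
      rw [← e1, pow_succ']
      exact mul_le_mul hS i2 (tsum_nonneg fun _ => norm_nonneg _) hS0
    · rw [← tsum_mul_tsum_eq_tsum_sum_antidiagonal_of_summable_norm hf i1, i3, pow_succ']

/-- the coefficients of the exponential -/
noncomputable def E (h : ℕ → ℂ) (w z : ℂ) (n : ℕ) : ℂ :=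
  ∑ p ∈ range (n + 1), z ^ p / (p.factorial : ℂ) * (cp h p n * w ^ n)

theorem expo (h : ℕ → ℂ) (w : ℂ) {S : ℝ} (hf : Summable fun n => ‖f h w n‖)
    (hS : ∑' n, ‖f h w n‖ ≤ S) (z : ℂ) :
    Summable (fun n => ‖E h w z n‖) ∧ ∑' n, ‖E h w z n‖ ≤ Real.exp (‖z‖ * S) ∧
      ∑' n, E h w z n = Complex.exp (z * ∑' n, f h w n) := by
  have hS0 : 0 ≤ S := le_trans (tsum_nonneg fun _ => norm_nonneg _) hS
  obtain ⟨F, hF⟩ : ∃ F : ℕ → ℕ → ℂ, F = fun p n => z ^ p / (p.factorial : ℂ) * (cp h p n * w ^ n) :=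
    ⟨_, rfl⟩
  have hFa : ∀ p n, F p n = z ^ p / (p.factorial : ℂ) * (cp h p n * w ^ n) := fun p n => by rw [hF]
  have hnorm : ∀ p n, ‖F p n‖ = ‖z‖ ^ p / p.factorial * ‖cp h p n * w ^ n‖ := by
    intro p n
    rw [hFa, norm_mul, norm_div, norm_pow]
    congr 2
    exact Complex.norm_natCast _
  have h1 : ∀ p, Summable fun n => ‖F p n‖ := by
    intro p
    simp only [hnorm]
    exact (pows h w hf hS p).1.mul_left _
  have h2 : ∀ p, ∑' n, ‖F p n‖ ≤ (‖z‖ * S) ^ p / p.factorial := by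
    intro p
    simp only [hnorm]
    rw [tsum_mul_left, mul_pow, mul_div_right_comm]
    exact mul_le_mul_of_nonneg_left (pows h w hf hS p).2.1 (by positivity)
  have h2' : Summable fun p => ∑' n, ‖F p n‖ :=
    Summable.of_nonneg_of_le (fun p => tsum_nonneg fun _ => norm_nonneg _) h2
      (Real.summable_pow_div_factorial _)
  have h3 : Summable fun x : ℕ × ℕ => ‖F x.1 x.2‖ :=
    (summable_prod_of_nonneg fun _ => norm_nonneg _).2 ⟨h1, h2'⟩
  have h4 : Summable (Function.uncurry F) := Summable.of_norm h3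
  have h5 : Summable (Function.uncurry fun p n => ‖F p n‖) := h3
  have hin : ∀ n, ∑' p, F p n = E h w z n := by
    intro n
    unfold E
    rw [tsum_eq_sum (s := range (n + 1))]
    · exact sum_congr rfl fun p _ => hFa p n
    · intro p hp
      rw [Finset.mem_range] at hp
      rw [hFa, cp_big h p n (by omega), zero_mul, mul_zero]
  have h6 : ∀ n, Summable fun p => ‖F p n‖ := fun n => h3.prod_symm.prod_factor n
  have h7 : Summable fun n => ∑' p, ‖F p n‖ := h3.prod_symm.prod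
  have h8 : ∀ n, ‖E h w z n‖ ≤ ∑' p, ‖F p n‖ := by
    intro n
    rw [← hin]
    exact norm_tsum_le_tsum_norm (h6 n)
  have h9 : Summable fun n => ‖E h w z n‖ := Summable.of_nonneg_of_le (fun _ => norm_nonneg _) h8 h7
  refine ⟨h9, ?_, ?_⟩
  · refine (Summable.tsum_le_tsum h8 h9 h7).trans ?_
    rw [h5.tsum_comm]
    refine (Summable.tsum_le_tsum h2 h2' (Real.summable_pow_div_factorial _)).trans (le_of_eq ?_)
    rw [Real.exp_eq_exp_ℝ]
    exact (NormedSpace.expSeries_div_hasSum_exp (‖z‖ * S)).tsum_eq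
  · have e1 : ∑' n, E h w z n = ∑' n, ∑' p, F p n := tsum_congr fun n => (hin n).symm
    rw [e1, h4.tsum_comm]
    have e2 : ∀ p, ∑' n, F p n = (z * ∑' n, f h w n) ^ p / p.factorial := by
      intro p
      have e3 : ∑' n, F p n = ∑' n, z ^ p / (p.factorial : ℂ) * (cp h p n * w ^ n) :=
        tsum_congr fun n => hFa p n
      rw [e3, tsum_mul_left, (pows h w hf hS p).2.2, mul_pow]
      ring
    rw [tsum_congr e2, Complex.exp_eq_exp_ℂ]
    exact (NormedSpace.expSeries_div_hasSum_exp (z * ∑' n, f h w n)).tsum_eq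

theorem antidiag {F : ℕ × ℕ → ℂ} (hF : Summable F) :
    Summable (fun j => ∑ x ∈ antidiagonal j, F x) ∧
      ∑' x, F x = ∑' j, ∑ x ∈ antidiagonal j, F x := by
  have h1 : Summable fun x : Σ n : ℕ, antidiagonal n => F (x.2 : ℕ × ℕ) :=
    Finset.HasAntidiagonal.sigmaAntidiagonalEquivProd.summable_iff.2 hF
  have h2 : ∀ j, ∑ x ∈ antidiagonal j, F x = ∑' x : antidiagonal j, F (x : ℕ × ℕ) := by
    intro j
    rw [tsum_fintype, ← Finset.sum_finset_coe]
    rfl
  simp only [h2]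
  refine ⟨h1.sigma' fun n => (hasSum_fintype _).summable, ?_⟩
  rw [← Finset.HasAntidiagonal.sigmaAntidiagonalEquivProd.tsum_eq F]
  exact h1.tsum_sigma' fun n => (hasSum_fintype _).summable

/-- the coefficient of the composition -/
theorem coeff (q : ℂ) (h : ℕ → ℂ) (w : ℂ) {j : ℕ} (hj : 1 ≤ j) :
    ∑ x ∈ antidiagonal j, q ^ x.1 * f h w x.1 * E h w (-Complex.I * x.1) x.2 =
      (q ^ j * h j + Nl q h j) * w ^ j := by
  rw [Finset.Nat.sum_antidiagonal_eq_sum_range_succ_mk]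
  show ∑ k ∈ range (j + 1), q ^ k * f h w k * E h w (-Complex.I * (k : ℂ)) (j - k) = _
  rw [sum_range_succ, Nat.sub_self]
  have e1 : E h w (-Complex.I * (j : ℂ)) 0 = 1 := by
    unfold E
    rw [zero_add, sum_range_one]
    simp [cp]
  rw [e1, mul_one, f_pos h w hj]
  have e2 : ∑ k ∈ range j, q ^ k * f h w k * E h w (-Complex.I * (k : ℂ)) (j - k) =
      ∑ k ∈ Finset.Ico 1 j, q ^ k * f h w k * E h w (-Complex.I * (k : ℂ)) (j - k) := by
    symm
    apply sum_subset
    · intro k hk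
      rw [Finset.mem_Ico] at hk
      exact Finset.mem_range.2 hk.2
    · intro k hk hk'
      rw [Finset.mem_range] at hk
      rw [Finset.mem_Ico] at hk'
      have : k = 0 := by omega
      rw [this, f_zero, mul_zero, zero_mul]
  rw [e2]
  have e3 : ∑ k ∈ Finset.Ico 1 j, q ^ k * f h w k * E h w (-Complex.I * (k : ℂ)) (j - k) =
      Nl q h j * w ^ j := by
    unfold Nl
    rw [sum_mul]
    refine sum_congr rfl fun k hk => ?_
    rw [Finset.mem_Ico] at hk
    rw [f_pos h w hk.1]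
    have e4 : E h w (-Complex.I * (k : ℂ)) (j - k) =
        (∑ p ∈ Finset.Icc 1 j, (-Complex.I * k) ^ p / (p.factorial : ℂ) * cp h p (j - k)) *
          w ^ (j - k) := by
      unfold E
      rw [sum_mul]
      have e5 : ∑ p ∈ range (j - k + 1), (-Complex.I * (k : ℂ)) ^ p / (p.factorial : ℂ) *
          (cp h p (j - k) * w ^ (j - k)) = ∑ p ∈ range (j + 1),
            (-Complex.I * (k : ℂ)) ^ p / (p.factorial : ℂ) * (cp h p (j - k) * w ^ (j - k)) := by
        apply sum_subset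
        · intro p hp
          rw [Finset.mem_range] at hp ⊢
          omega
        · intro p _ hp'
          rw [Finset.mem_range] at hp'
          rw [cp_big h p (j - k) (by omega), zero_mul, mul_zero]
      have e6 : ∑ p ∈ Finset.Icc 1 j, (-Complex.I * (k : ℂ)) ^ p / (p.factorial : ℂ) *
          cp h p (j - k) * w ^ (j - k) = ∑ p ∈ range (j + 1),
            (-Complex.I * (k : ℂ)) ^ p / (p.factorial : ℂ) * cp h p (j - k) * w ^ (j - k) := by
        apply sum_subset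
        · intro p hp
          rw [Finset.mem_Icc] at hp
          exact Finset.mem_range.2 (by omega)
        · intro p hp hp'
          rw [Finset.mem_range] at hp
          rw [Finset.mem_Icc] at hp'
          have : p = 0 := by omega
          rw [this, cp_zero h (by omega), mul_zero, zero_mul]
      rw [e5, e6]
      exact sum_congr rfl fun p _ => by ring
    rw [e4]
    have e7 : w ^ j = w ^ k * w ^ (j - k) := by
      rw [← pow_add]
      congr 1
      omega
    rw [e7]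
    ring
  rw [e3]
  ring

theorem norm_f {B : ℝ} {h : ℕ → ℂ} {w : ℂ} (hh : ∀ j, 1 ≤ j → ‖h j‖ ≤ B ^ j)
    (hw : B * ‖w‖ ≤ 1 / 8) (hB : 1 ≤ B) (n : ℕ) : ‖f h w (n + 1)‖ ≤ (1 / 8 : ℝ) ^ (n + 1) := by
  rw [f_pos h w (by omega), norm_mul, norm_pow]
  have h1 : ‖h (n + 1)‖ * ‖w‖ ^ (n + 1) ≤ B ^ (n + 1) * ‖w‖ ^ (n + 1) :=
    mul_le_mul_of_nonneg_right (hh _ (by omega)) (by positivity)
  refine h1.trans ?_
  rw [← mul_pow]
  exact pow_le_pow_left₀ (by positivity) hw _

theorem sum_f {B : ℝ} {h : ℕ → ℂ} {w : ℂ} (hh : ∀ j, 1 ≤ j → ‖h j‖ ≤ B ^ j)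
    (hw : B * ‖w‖ ≤ 1 / 8) (hB : 1 ≤ B) :
    Summable (fun n => ‖f h w n‖) ∧ ∑' n, ‖f h w n‖ ≤ 1 / 7 := by
  have hg : Summable fun n : ℕ => (1 / 8 : ℝ) ^ (n + 1) :=
    (summable_nat_add_iff 1).2 (summable_geometric_of_lt_one (by norm_num) (by norm_num))
  have h1 : Summable fun n => ‖f h w (n + 1)‖ :=
    Summable.of_nonneg_of_le (fun _ => norm_nonneg _) (norm_f hh hw hB) hg
  have h2 : Summable fun n => ‖f h w n‖ := (summable_nat_add_iff (f := fun n => ‖f h w n‖) 1).1 h1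
  refine ⟨h2, ?_⟩
  rw [h2.tsum_eq_zero_add, f_zero, norm_zero, zero_add]
  refine (Summable.tsum_le_tsum (norm_f hh hw hB) h1 hg).trans (le_of_eq ?_)
  have h3 : ∑' n : ℕ, (1 / 8 : ℝ) ^ (n + 1) = ∑' n : ℕ, (1 / 8 : ℝ) * (1 / 8) ^ n :=
    tsum_congr fun n => by rw [pow_succ']
  rw [h3, tsum_mul_left, tsum_geometric_of_lt_one (by norm_num) (by norm_num)]
  norm_num

theorem Hf_eq {h : ℕ → ℂ} {w : ℂ} (hs : Summable (f h w)) : Hf h w = ∑' n, f h w n := by
  rw [hs.tsum_eq_zero_add, f_zero, zero_add]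
  unfold Hf
  exact tsum_congr fun n => (f_pos h w (by omega)).symm

end FUNCN

open FUNCN in
theorem t_FUNC : S_FUNC := by
  intro B q h h' hB hq hh hh' w hw
  obtain ⟨hf, hS⟩ := sum_f hh hw hB
  have hH : Hf h w = ∑' n, f h w n := Hf_eq hf.of_norm
  obtain ⟨H, hHd⟩ : ∃ H, H = Hf h w := ⟨_, rfl⟩
  obtain ⟨K, hK⟩ : ∃ K : ℕ × ℕ → ℂ, K = fun x => q ^ x.1 * f h w x.1 *
    E h w (-Complex.I * x.1) x.2 := ⟨_, rfl⟩
  have hKa : ∀ a n, K (a, n) = q ^ a * f h w a * E h w (-Complex.I * a) n := fun a n => by rw [hK]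
  have hE := expo h w hf hS
  have hfa : ∀ a, ‖q ^ a * f h w a‖ ≤ (1 / 8 : ℝ) ^ a := by
    intro a
    rw [norm_mul, norm_pow]
    have h1 : ‖q‖ ^ a ≤ 1 := pow_le_one₀ (norm_nonneg _) hq
    have h2 : ‖f h w a‖ ≤ (1 / 8 : ℝ) ^ a := by
      rcases Nat.eq_zero_or_pos a with h0 | h0
      · rw [h0, f_zero, norm_zero]
        positivity
      · obtain ⟨b, rfl⟩ : ∃ b, a = b + 1 := ⟨a - 1, by omega⟩
        exact norm_f hh hw hB b
    calc ‖q‖ ^ a * ‖f h w a‖ ≤ 1 * (1 / 8 : ℝ) ^ a := mul_le_mul h1 h2 (norm_nonneg _) zero_le_one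
      _ = (1 / 8 : ℝ) ^ a := one_mul _
  have hz : ∀ a : ℕ, ‖-Complex.I * (a : ℂ)‖ = a := by
    intro a
    rw [norm_mul, norm_neg, Complex.norm_I, one_mul, Complex.norm_natCast]
  have k1 : ∀ a, Summable fun n => ‖K (a, n)‖ := by
    intro a
    simp only [hKa, norm_mul (q ^ a * f h w a)]
    exact (hE _).1.mul_left _
  have k2 : ∀ a, ∑' n, ‖K (a, n)‖ ≤ (1 / 8 * Real.exp (1 / 7)) ^ a := by
    intro a
    simp only [hKa, norm_mul (q ^ a * f h w a)]
    rw [tsum_mul_left, mul_pow, ← Real.exp_nat_mul]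
    have := (hE (-Complex.I * (a : ℂ))).2.1
    rw [hz] at this
    exact mul_le_mul (hfa a) this (tsum_nonneg fun _ => norm_nonneg _) (by positivity)
  have hexp : 1 / 8 * Real.exp (1 / 7) < 1 := by
    have h1 : Real.exp (1 / 7) ≤ Real.exp 1 := Real.exp_le_exp.2 (by norm_num)
    have h2 := Real.exp_one_lt_d9
    linarith
  have k3 : Summable fun x : ℕ × ℕ => ‖K x‖ :=
    (summable_prod_of_nonneg fun _ => norm_nonneg _).2 ⟨k1,
      Summable.of_nonneg_of_le (fun a => tsum_nonneg fun _ => norm_nonneg _) k2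
        (summable_geometric_of_lt_one (by positivity) hexp)⟩
  have k4 : Summable K := Summable.of_norm k3
  obtain ⟨k5, k6⟩ := antidiag k4
  -- the composition
  obtain ⟨v, hv⟩ : ∃ v, v = q * w * Complex.exp (-Complex.I * H) := ⟨_, rfl⟩
  have hfv : ∀ a, f h v a = ∑' n, K (a, n) := by
    intro a
    have e1 : ∑' n, K (a, n) = q ^ a * f h w a * ∑' n, E h w (-Complex.I * a) n := by
      rw [← tsum_mul_left]
      exact tsum_congr fun n => hKa a n
    rw [e1, (hE (-Complex.I * a)).2.2, ← hH, ← hHd]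
    rcases Nat.eq_zero_or_pos a with h0 | h0
    · rw [h0, f_zero, f_zero, mul_zero, zero_mul]
    · rw [f_pos h v h0, f_pos h w h0, hv, mul_pow, mul_pow, ← Complex.exp_nat_mul]
      have : (a : ℂ) * (-Complex.I * H) = -Complex.I * a * H := by ring
      rw [this]
      ring
  have hsv : Summable (f h v) := by
    have : f h v = fun a => ∑' n, K (a, n) := funext hfv
    rw [this]
    exact k4.prod
  have hHv : Hf h v = ∑' j, ∑ x ∈ Finset.HasAntidiagonal.antidiagonal j, K x := by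
    rw [Hf_eq hsv, ← k6, k4.tsum_prod]
    exact tsum_congr hfv
  have hD : ∀ j, 1 ≤ j → ∑ x ∈ Finset.HasAntidiagonal.antidiagonal j, K x = (q ^ j * h j + Nl q h j) * w ^ j := by
    intro j hj
    rw [← coeff q h w hj, hK]
  have hD0 : ∑ x ∈ Finset.HasAntidiagonal.antidiagonal 0, K x = 0 := by
    rw [Finset.Nat.antidiagonal_zero, Finset.sum_singleton, hKa, f_zero, mul_zero, zero_mul]
  rw [k5.tsum_eq_zero_add, hD0, zero_add] at hHv
  have k7 : Summable fun j => ∑ x ∈ Finset.HasAntidiagonal.antidiagonal (j + 1), K x :=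
    (summable_nat_add_iff (f := fun j => ∑ x ∈ Finset.HasAntidiagonal.antidiagonal j, K x) 1).2 k5
  have k8 : Summable fun j => h (j + 1) * w ^ (j + 1) := by
    have : (fun j => h (j + 1) * w ^ (j + 1)) = fun j => f h w (j + 1) :=
      funext fun j => (f_pos h w (by omega)).symm
    rw [this]
    exact (summable_nat_add_iff (f := f h w) 1).2 hf.of_norm
  have hgoal : Hf h' w = Hf h w + 3 * Hf h v := by
    rw [hHv, ← tsum_mul_left]
    unfold Hf
    rw [← k8.tsum_add (k7.mul_left 3)]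
    refine tsum_congr fun j => ?_
    rw [hD (j + 1) (by omega), hh' (j + 1) (by omega)]
    ring
  rw [hgoal, hv, hHd]

end Pool.Agent.H288.TF
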