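import Pool.Agent.H288.TF.Stm

/-!
# TF, HB: elementary bounds of power series
-/

set_option autoImplicit false

open MeasureTheory Set Filter Topology

namespace Pool.Agent.H288.TF

namespace HBN

/-- the terms of the series -/
theorem term_le {B c : ℝ} {h : ℕ → ℂ} (hh : ∀ j, 1 ≤ j → ‖h j‖ ≤ c * B ^ j) (w : ℂ) (j : ℕ)
    (hj : 1 ≤ j) : ‖h j * w ^ j‖ ≤ c * (B * ‖w‖) ^ j := by
  rw [norm_mul, norm_pow, mul_pow, ← mul_assoc]
  exact mul_le_mul_of_nonneg_right (hh j hj) (pow_nonneg (norm_nonneg _) _)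

/-- a geometric series -/
theorem geo {c x : ℝ} (hx0 : 0 ≤ x) (hx : x ≤ 1 / 8) (m : ℕ) :
    HasSum (fun j : ℕ => c * x ^ (j + m)) (c * x ^ m / (1 - x)) := by
  have h1 := (hasSum_geometric_of_lt_one hx0 (by linarith)).mul_left (c * x ^ m)
  have h2 : (fun j : ℕ => c * x ^ m * x ^ j) = fun j : ℕ => c * x ^ (j + m) := by
    funext j
    rw [pow_add]
    ring
  rw [h2] at h1
  exact h1

end HBN

theorem t_HB : S_HB := by
  intro B c h hB hc hh
  have hB0 : 0 < B := by linarith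
  have hsum : ∀ w : ℂ, B * ‖w‖ ≤ 1 / 8 → ∀ m : ℕ, 1 ≤ m →
      Summable (fun j : ℕ => h (j + m) * w ^ (j + m)) ∧
      ‖∑' j : ℕ, h (j + m) * w ^ (j + m)‖ ≤ c * (B * ‖w‖) ^ m / (1 - B * ‖w‖) := by
    intro w hw m hm
    have hx0 : 0 ≤ B * ‖w‖ := mul_nonneg hB0.le (norm_nonneg _)
    have hg := HBN.geo (c := c) hx0 hw m
    have hle : ∀ j : ℕ, ‖h (j + m) * w ^ (j + m)‖ ≤ c * (B * ‖w‖) ^ (j + m) := fun j =>
      HBN.term_le hh w (j + m) (by omega)
    exact ⟨Summable.of_norm_bounded hg.summable hle, tsum_of_norm_bounded hg hle⟩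
  refine ⟨?_, ?_, ?_⟩
  · intro w hw
    have hx0 : 0 ≤ B * ‖w‖ := mul_nonneg hB0.le (norm_nonneg _)
    refine ((hsum w hw 1 le_rfl).2).trans ?_
    rw [pow_one, div_le_div_iff₀ (by linarith) (by norm_num)]
    have h1 := mul_le_mul_of_nonneg_left hw hc
    linarith
  · have hU : IsOpen (Metric.ball (0 : ℂ) (1 / (8 * B))) := Metric.isOpen_ball
    have hu : Summable (fun j : ℕ => c * (1 / 8 : ℝ) ^ (j + 1)) :=
      (HBN.geo (c := c) (by norm_num) le_rfl 1).summable
    refine Complex.differentiableOn_tsum_of_summable_norm hu (fun j => ?_) hU (fun j w hw => ?_)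
    · exact ((differentiable_const _).mul (differentiable_id.pow _)).differentiableOn
    · have hw1 : ‖w‖ < 1 / (8 * B) := by
        rwa [Metric.mem_ball, dist_zero_right] at hw
      have hw2 : B * ‖w‖ ≤ 1 / 8 := by
        have h1 := mul_le_mul_of_nonneg_left hw1.le hB0.le
        have h2 : B * (1 / (8 * B)) = 1 / 8 := by
          field_simp
        linarith
      have hx0 : 0 ≤ B * ‖w‖ := mul_nonneg hB0.le (norm_nonneg _)
      exact (HBN.term_le hh w (j + 1) (by omega)).trans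
        (mul_le_mul_of_nonneg_left (pow_le_pow_left₀ hx0 hw2 _) hc)
  · intro w hw
    have hx0 : 0 ≤ B * ‖w‖ := mul_nonneg hB0.le (norm_nonneg _)
    have h1 : Hf h w - h 1 * w = ∑' j : ℕ, h (j + 2) * w ^ (j + 2) := by
      unfold Hf
      rw [(hsum w hw 1 le_rfl).1.tsum_eq_zero_add]
      simp only [zero_add, pow_one]
      ring
    rw [h1]
    refine ((hsum w hw 2 (by norm_num)).2).trans ?_
    rw [div_le_iff₀ (by linarith)]
    have h2 : 0 ≤ c * (B * ‖w‖) ^ 2 := mul_nonneg hc (pow_nonneg hx0 _)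
    nlinarith [mul_nonneg h2 (sub_nonneg.2 hw)]

end Pool.Agent.H288.TF
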