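import Pool.Agent.H288.TF.Stm

set_option autoImplicit false

namespace Pool.Agent.H288.TF.LOCN

open Pool.Agent.H288.TF

lemma cp_congr (h h' : ℕ → ℂ) (p : ℕ) : ∀ n : ℕ, (∀ a, 1 ≤ a → a ≤ n → h a = h' a) → cp h p n = cp h' p n := by
  induction p with
  | zero =>
    intro n _
    rfl
  | succ p ih =>
    intro n hn
    show ∑ a ∈ Finset.Icc 1 n, h a * cp h p (n - a) = ∑ a ∈ Finset.Icc 1 n, h' a * cp h' p (n - a)
    refine Finset.sum_congr rfl fun a ha => ?_
    rw [Finset.mem_Icc] at ha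
    rw [hn a ha.1 ha.2, ih (n - a) fun b hb1 hb2 => hn b hb1 (by omega)]

lemma Nl_congr (q : ℂ) (h h' : ℕ → ℂ) (j : ℕ) (hh : ∀ a, 1 ≤ a → a < j → h a = h' a) :
    Nl q h j = Nl q h' j := by
  unfold Nl
  refine Finset.sum_congr rfl fun a ha => ?_
  rw [Finset.mem_Ico] at ha
  have h1 : ∀ p, cp h p (j - a) = cp h' p (j - a) := fun p =>
    cp_congr h h' p (j - a) fun b hb1 hb2 => hh b hb1 (by omega)
  rw [hh a ha.1 ha.2]
  simp only [h1]

lemma lev_congr (L : ℕ) (g g' : ℕ → ℂ) (J : ℕ) (hg : ∀ a, a ≤ J → g a = g' a) (d : ℕ) :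
    ∀ j, j ≤ J → lev L g d j = lev L g' d j := by
  induction d with
  | zero =>
    intro j hj
    show g j / 4 ^ L = g' j / 4 ^ L
    rw [hg j hj]
  | succ d ih =>
    intro j hj
    show AA (L - d) j * lev L g d j + 3 * Nl (qq (L - d)) (lev L g d) j =
      AA (L - d) j * lev L g' d j + 3 * Nl (qq (L - d)) (lev L g' d) j
    rw [ih j hj, Nl_congr _ _ _ j fun a _ ha => ih a (by omega)]

end Pool.Agent.H288.TF.LOCN

namespace Pool.Agent.H288.TF

theorem t_LOC : S_LOC := by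
  refine ⟨?_, ?_, ?_, ?_⟩
  · intro L g g' J hg i j hj
    exact LOCN.lev_congr L g g' J hg (L - i) j hj
  · intro L g i j hi
    unfold hh
    obtain ⟨d, hd⟩ : ∃ d, L = i + 1 + d := ⟨L - (i + 1), by omega⟩
    have h1 : L - i = d + 1 := by omega
    have h2 : L - (i + 1) = d := by omega
    have h3 : L - d = i + 1 := by omega
    rw [h1, h2]
    show AA (L - d) j * lev L g d j + 3 * Nl (qq (L - d)) (lev L g d) j = _
    rw [h3]
  · intro L g j
    unfold hh
    rw [Nat.sub_self]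
    rfl
  · intro q h h' j hh
    exact LOCN.Nl_congr q h h' j hh

end Pool.Agent.H288.TF
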