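import Pool.Agent.H288.TF.Stm

/-!
# Lower bound of products of `1 + 3 exp (-θ x)` off the resonances
-/

set_option autoImplicit false

open MeasureTheory Set Filter Topology

namespace Pool.Agent.H288.TF.LOWN

open Pool.Agent.H288.TF

/-- The argument. -/
noncomputable def xx (t j : ℕ) : ℝ := 4 * (j : ℝ) / 4 ^ t

theorem xx_pos {t j : ℕ} (hj : 1 ≤ j) : 0 < xx t j := by
  unfold xx
  have : (0 : ℝ) < j := by exact_mod_cast hj
  positivity

theorem qq_pow (t j : ℕ) : qq t ^ j = Complex.exp (-(th * ((xx t j : ℝ) : ℂ))) := by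
  unfold qq xx
  rw [← Complex.exp_nat_mul]
  congr 1
  push_cast
  ring

theorem th_re : th.re = Real.log 3 := by
  unfold th
  rw [Complex.add_re, Complex.ofReal_re, Complex.mul_re, Complex.I_re, Complex.I_im,
    Complex.ofReal_im]
  ring

theorem th_norm : ‖th‖ ≤ 6 := by
  unfold th
  have h1 : ‖(Real.log 3 : ℂ) + Real.pi * Complex.I‖ ≤ ‖(Real.log 3 : ℂ)‖ + ‖(Real.pi : ℂ) * Complex.I‖ :=
    norm_add_le _ _
  have h2 : ‖(Real.log 3 : ℂ)‖ ≤ 2 := by
    rw [Complex.norm_real, Real.norm_eq_abs, abs_of_nonneg (Real.log_nonneg (by norm_num))]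
    have := Real.log_le_sub_one_of_pos (show (0 : ℝ) < 3 by norm_num)
    linarith
  have h3 : ‖(Real.pi : ℂ) * Complex.I‖ ≤ 4 := by
    rw [norm_mul, Complex.norm_I, mul_one, Complex.norm_real, Real.norm_eq_abs,
      abs_of_nonneg Real.pi_pos.le]
    exact Real.pi_le_four
  linarith

theorem norm_qq_pow (t j : ℕ) : ‖qq t ^ j‖ = Real.exp (-(Real.log 3 * xx t j)) := by
  rw [qq_pow, Complex.norm_exp]
  congr 1
  rw [Complex.neg_re, Complex.mul_re, Complex.ofReal_re, Complex.ofReal_im, th_re]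
  ring

theorem log3_ge : 1 ≤ Real.log 3 := by
  rw [Real.le_log_iff_exp_le (by norm_num)]
  have := Real.exp_one_lt_d9
  linarith

/-- `3 * 3 ^ (-x) = exp (log 3 (1 - x))`. -/
theorem three_mul (t j : ℕ) : 3 * ‖qq t ^ j‖ = Real.exp (Real.log 3 * (1 - xx t j)) := by
  rw [norm_qq_pow]
  have h : (3 : ℝ) = Real.exp (Real.log 3) := (Real.exp_log (by norm_num)).symm
  nth_rw 1 [h]
  rw [← Real.exp_add]
  congr 1
  ring

theorem AA_ge1 (t j : ℕ) : 1 - Real.exp (Real.log 3 * (1 - xx t j)) ≤ ‖AA t j‖ := by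
  unfold AA
  have h := norm_sub_norm_le (1 : ℂ) (-(3 * qq t ^ j))
  rw [sub_neg_eq_add, norm_neg, norm_mul, norm_one] at h
  have h3 : ‖(3 : ℂ)‖ = 3 := by norm_num
  rw [h3, three_mul] at h
  exact h

theorem AA_ge2 (t j : ℕ) : Real.exp (Real.log 3 * (1 - xx t j)) - 1 ≤ ‖AA t j‖ := by
  unfold AA
  have h := norm_sub_norm_le (3 * qq t ^ j) (-(1 : ℂ))
  rw [sub_neg_eq_add, norm_neg, norm_mul, norm_one] at h
  have h3 : ‖(3 : ℂ)‖ = 3 := by norm_num
  rw [h3, three_mul, add_comm] at h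
  exact h

/-- Off the resonance. -/
theorem AA_mid {t j : ℕ} (h : 1 / 4000 ≤ |xx t j - 1|) : 1 / 8000 ≤ ‖AA t j‖ := by
  rcases le_abs.1 h with h1 | h1
  · -- `x ≥ 1 + 1/4000`
    refine le_trans ?_ (AA_ge1 t j)
    have h2 : Real.exp (Real.log 3 * (1 - xx t j)) ≤ Real.exp (-(1 / 4000)) := by
      apply Real.exp_le_exp.2
      nlinarith [log3_ge]
    have h3 : Real.exp (-(1 / 4000 : ℝ)) ≤ 4000 / 4001 := by
      rw [Real.exp_neg, inv_eq_one_div, div_le_div_iff₀ (Real.exp_pos _) (by norm_num)]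
      have := Real.add_one_le_exp (1 / 4000 : ℝ)
      linarith
    linarith
  · refine le_trans ?_ (AA_ge2 t j)
    have h2 : Real.exp (1 / 4000) ≤ Real.exp (Real.log 3 * (1 - xx t j)) := by
      apply Real.exp_le_exp.2
      nlinarith [log3_ge]
    have := Real.add_one_le_exp (1 / 4000 : ℝ)
    linarith

/-- Large argument. -/
theorem AA_big {t j : ℕ} (h : 4 ≤ xx t j) : 1 - 1 / xx t j ≤ ‖AA t j‖ := by
  refine le_trans ?_ (AA_ge1 t j)
  have hx : 0 < xx t j := by linarith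
  have h2 : Real.exp (Real.log 3 * (1 - xx t j)) ≤ Real.exp (-(xx t j - 1)) := by
    apply Real.exp_le_exp.2
    nlinarith [log3_ge]
  have h3 : Real.exp (-(xx t j - 1)) ≤ 1 / xx t j := by
    rw [Real.exp_neg, inv_eq_one_div, div_le_div_iff₀ (Real.exp_pos _) hx]
    have := Real.add_one_le_exp (xx t j - 1)
    linarith
  linarith

/-- Small argument. -/
theorem AA_small {t j : ℕ} (hj : 1 ≤ j) (h : xx t j ≤ 1 / 6) : 4 - 36 * xx t j ≤ ‖AA t j‖ := by
  unfold AA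
  have hx := xx_pos (t := t) hj
  have h1 : ‖-(th * ((xx t j : ℝ) : ℂ))‖ ≤ 6 * xx t j := by
    rw [norm_neg, norm_mul, Complex.norm_real, Real.norm_eq_abs, abs_of_pos hx]
    exact mul_le_mul_of_nonneg_right th_norm hx.le
  have h2 : ‖Complex.exp (-(th * ((xx t j : ℝ) : ℂ))) - 1‖ ≤ 2 * ‖-(th * ((xx t j : ℝ) : ℂ))‖ :=
    Complex.norm_exp_sub_one_le (by linarith)
  have h3 : (1 : ℂ) + 3 * qq t ^ j = 4 - -(3 * (Complex.exp (-(th * ((xx t j : ℝ) : ℂ))) - 1)) := by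
    rw [qq_pow]
    ring
  rw [h3]
  have h4 := norm_sub_norm_le (4 : ℂ) (-(3 * (Complex.exp (-(th * ((xx t j : ℝ) : ℂ))) - 1)))
  rw [norm_neg, norm_mul] at h4
  have h5 : ‖(3 : ℂ)‖ = 3 := by norm_num
  have h6 : ‖(4 : ℂ)‖ = 4 := by norm_num
  rw [h5, h6] at h4
  linarith

/-- The quotient `MM 0 j / MM L j`. -/
noncomputable def QQ (L j : ℕ) : ℝ := max ((4 : ℝ) ^ L) (j : ℝ)

theorem QQ_pos (L j : ℕ) : 0 < QQ L j := lt_max_of_lt_left (by positivity)

theorem QQ_succ_le (L j : ℕ) : QQ (L + 1) j ≤ 4 * QQ L j := by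
  unfold QQ
  apply max_le
  · rw [pow_succ]
    have := le_max_left ((4 : ℝ) ^ L) (j : ℝ)
    linarith
  · have h1 := le_max_right ((4 : ℝ) ^ L) (j : ℝ)
    have h2 : (0 : ℝ) ≤ j := Nat.cast_nonneg j
    linarith

/-- The normalised product. -/
noncomputable def FF (L j : ℕ) : ℝ := (∏ t ∈ Finset.range L, ‖AA (t + 1) j‖) / QQ L j * QQ 0 j

theorem FF_nonneg (L j : ℕ) : 0 ≤ FF L j := by
  unfold FF
  have h1 := QQ_pos L j
  have h2 := QQ_pos 0 j
  have h3 : 0 ≤ ∏ t ∈ Finset.range L, ‖AA (t + 1) j‖ := Finset.prod_nonneg (fun _ _ => norm_nonneg _)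
  positivity

theorem FF_succ (L j : ℕ) : FF (L + 1) j = FF L j * (‖AA (L + 1) j‖ * (QQ L j / QQ (L + 1) j)) := by
  unfold FF
  rw [Finset.prod_range_succ]
  have h1 := (QQ_pos L j).ne'
  have h2 := (QQ_pos (L + 1) j).ne'
  field_simp

theorem FF_zero (j : ℕ) : FF 0 j = 1 := by
  unfold FF
  have h1 := (QQ_pos 0 j).ne'
  simp only [Finset.range_zero, Finset.prod_empty]
  field_simp

/-- The first part. -/
theorem part1 {j : ℕ} (hj : 1 ≤ j) (L : ℕ) (hL : 4 ^ L ≤ j) : 1 - (4 : ℝ) ^ L / (3 * j) ≤ FF L j := by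
  have hj0 : (0 : ℝ) < j := by exact_mod_cast hj
  induction L with
  | zero =>
    rw [FF_zero]
    have : 0 ≤ (4 : ℝ) ^ 0 / (3 * j) := by positivity
    linarith
  | succ L ih =>
    have h4 : (4 : ℕ) ^ L ≤ j := le_trans (Nat.pow_le_pow_right (by norm_num) (Nat.le_succ L)) hL
    have ih := ih h4
    have hLr : (4 : ℝ) ^ (L + 1) ≤ j := by exact_mod_cast hL
    have hLr' : (4 : ℝ) ^ L ≤ j := by exact_mod_cast h4
    have hQ : QQ L j / QQ (L + 1) j = 1 := by
      unfold QQ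
      rw [max_eq_right hLr, max_eq_right hLr', div_self hj0.ne']
    rw [FF_succ, hQ, mul_one]
    have hx : xx (L + 1) j = 4 * j / 4 ^ (L + 1) := rfl
    have hx4 : 4 ≤ xx (L + 1) j := by
      rw [hx, le_div_iff₀ (by positivity)]
      linarith
    have hA := AA_big hx4
    have hinv : 1 / xx (L + 1) j = (4 : ℝ) ^ L / j := by
      rw [hx, pow_succ]
      field_simp
    rw [hinv] at hA
    have hq : (4 : ℝ) ^ L / j ≤ 1 / 4 := by
      rw [div_le_div_iff₀ hj0 (by norm_num)]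
      rw [pow_succ] at hLr
      linarith
    have hs : (4 : ℝ) ^ L / (3 * j) = (1 / 3) * ((4 : ℝ) ^ L / j) := by
      field_simp
    have hs' : (4 : ℝ) ^ (L + 1) / (3 * j) = (4 / 3) * ((4 : ℝ) ^ L / j) := by
      rw [pow_succ]
      field_simp
    rw [hs] at ih
    rw [hs']
    have hy : 0 ≤ (4 : ℝ) ^ L / j := by positivity
    have hA' : 0 ≤ ‖AA (L + 1) j‖ := norm_nonneg _
    generalize (4 : ℝ) ^ L / j = y at *
    generalize ‖AA (L + 1) j‖ = a at *
    generalize FF L j = f at *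
    have h1 : (1 - 1 / 3 * y) * (1 - y) ≤ f * a := by
      apply mul_le_mul ih hA (by linarith) (by linarith)
    nlinarith

/-- One step, off the resonance. -/
theorem step {L j : ℕ} (h : 1 / 4000 ≤ |xx (L + 1) j - 1|) : 1 / 32000 * FF L j ≤ FF (L + 1) j := by
  rw [FF_succ, mul_comm]
  apply mul_le_mul_of_nonneg_left _ (FF_nonneg L j)
  have h1 := AA_mid h
  have h2 : 1 / 4 ≤ QQ L j / QQ (L + 1) j := by
    rw [le_div_iff₀ (QQ_pos _ _)]
    have := QQ_succ_le L j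
    linarith
  calc (1 / 32000 : ℝ) = 1 / 8000 * (1 / 4) := by norm_num
    _ ≤ _ := mul_le_mul h1 h2 (by norm_num) (norm_nonneg _)

/-- The last part. -/
theorem part3 {j n : ℕ} (hj : 1 ≤ j) (hn : 64 * j ≤ 4 ^ n) (K : ℕ) :
    FF n j * (1 - 12 * j * (1 / 4 ^ n - 1 / 4 ^ (n + K))) ≤ FF (n + K) j := by
  have hj0 : (0 : ℝ) < j := by exact_mod_cast hj
  have hnr : 64 * (j : ℝ) ≤ 4 ^ n := by exact_mod_cast hn
  induction K with
  | zero => simp
  | succ K ih =>
    rw [← Nat.add_assoc, FF_succ]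
    have h4 : (j : ℝ) ≤ 4 ^ (n + K) := by
      have : (4 : ℝ) ^ n ≤ 4 ^ (n + K) := pow_le_pow_right₀ (by norm_num) (Nat.le_add_right _ _)
      linarith
    have h4' : (j : ℝ) ≤ 4 ^ (n + K + 1) := by
      have : (4 : ℝ) ^ (n + K) ≤ 4 ^ (n + K + 1) := pow_le_pow_right₀ (by norm_num) (Nat.le_succ _)
      linarith
    have hQ : QQ (n + K) j / QQ (n + K + 1) j = 1 / 4 := by
      unfold QQ
      rw [max_eq_left h4, max_eq_left h4', pow_succ]
      field_simp
    rw [hQ]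
    have hx : xx (n + K + 1) j = j / 4 ^ (n + K) := by
      unfold xx
      rw [pow_succ]
      field_simp
    have hxs : xx (n + K + 1) j ≤ 1 / 64 := by
      rw [hx, div_le_div_iff₀ (by positivity) (by norm_num)]
      have : (4 : ℝ) ^ n ≤ 4 ^ (n + K) := pow_le_pow_right₀ (by norm_num) (Nat.le_add_right _ _)
      linarith
    have hA := AA_small (t := n + K + 1) hj (by linarith)
    have hxp := xx_pos (t := n + K + 1) hj
    have hz : 12 * (j : ℝ) * (1 / 4 ^ n - 1 / 4 ^ (n + K + 1)) =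
        12 * j * (1 / 4 ^ n - 1 / 4 ^ (n + K)) + 9 * xx (n + K + 1) j := by
      rw [hx, pow_succ]
      field_simp
      ring
    rw [hz]
    have hs0 : 0 ≤ 12 * (j : ℝ) * (1 / 4 ^ n - 1 / 4 ^ (n + K)) := by
      have : (1 : ℝ) / 4 ^ (n + K) ≤ 1 / 4 ^ n :=
        one_div_le_one_div_of_le (by positivity)
          (pow_le_pow_right₀ (by norm_num) (Nat.le_add_right _ _))
      have h5 : 0 ≤ (1 : ℝ) / 4 ^ n - 1 / 4 ^ (n + K) := by linarith
      positivity
    have hf := FF_nonneg n j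
    generalize 12 * (j : ℝ) * (1 / 4 ^ n - 1 / 4 ^ (n + K)) = s at *
    generalize xx (n + K + 1) j = x at *
    generalize ‖AA (n + K + 1) j‖ = a at *
    generalize FF n j = f at *
    have hF := ih
    have hg := FF_nonneg (n + K) j
    generalize FF (n + K) j = g at *
    have ha : 1 - 9 * x ≤ a * (1 / 4) := by linarith
    have h1 : 0 ≤ 1 - 9 * x := by linarith
    calc f * (1 - (s + 9 * x)) ≤ f * ((1 - s) * (1 - 9 * x)) := by
          apply mul_le_mul_of_nonneg_left _ hf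
          nlinarith
      _ = f * (1 - s) * (1 - 9 * x) := by ring
      _ ≤ g * (1 - 9 * x) := mul_le_mul_of_nonneg_right hF h1
      _ ≤ g * (a * (1 / 4)) := mul_le_mul_of_nonneg_left ha hg

/-- A few steps off the resonance. -/
theorem steps {j n : ℕ} (K : ℕ) (h : ∀ t, n < t → t ≤ n + K → 1 / 4000 ≤ |xx t j - 1|) :
    (1 / 32000) ^ K * FF n j ≤ FF (n + K) j := by
  induction K with
  | zero => simp
  | succ K ih =>
    have ih := ih (fun t h1 h2 => h t h1 (by omega))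
    have h1 := step (L := n + K) (j := j) (h (n + K + 1) (by omega) (by omega))
    rw [← Nat.add_assoc]
    refine le_trans ?_ h1
    rw [pow_succ]
    calc (1 / 32000 : ℝ) ^ K * (1 / 32000) * FF n j = 1 / 32000 * ((1 / 32000) ^ K * FF n j) := by ring
      _ ≤ _ := mul_le_mul_of_nonneg_left ih (by norm_num)

theorem main (L j : ℕ) (hj : 1 ≤ j)
    (h : ∀ t, 1 ≤ t → t ≤ L → 1 / 4000 ≤ |xx t j - 1|) : (1 / 32000 : ℝ) ^ 5 ≤ FF L j := by
  have hj0 : (0 : ℝ) < j := by exact_mod_cast hj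
  obtain ⟨n, hn1, hn2⟩ : ∃ n : ℕ, 4 ^ n ≤ j ∧ j < 4 ^ (n + 1) := by
    refine ⟨Nat.log 4 j, Nat.pow_log_le_self 4 (by omega), ?_⟩
    exact Nat.lt_pow_succ_log_self (by norm_num) j
  have key : ∀ m, m ≤ n → 2 / 3 ≤ FF m j := by
    intro m hm
    have h1 : 4 ^ m ≤ j := le_trans (Nat.pow_le_pow_right (by norm_num) hm) hn1
    have h2 := part1 hj m h1
    have h3 : (4 : ℝ) ^ m ≤ j := by exact_mod_cast h1
    have h4 : (4 : ℝ) ^ m / (3 * j) ≤ 1 / 3 := by
      rw [div_le_div_iff₀ (by positivity) (by norm_num)]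
      linarith
    linarith
  rcases le_or_gt L n with hL | hL
  · refine le_trans ?_ (key L hL)
    norm_num
  rcases le_or_gt L (n + 4) with hL' | hL'
  · obtain ⟨K, rfl⟩ := Nat.exists_eq_add_of_lt hL
    have h1 := steps (j := j) (n := n) (K + 1) (fun t h1 h2 => h t (by omega) (by omega))
    rw [← Nat.add_assoc] at h1
    refine le_trans ?_ h1
    have h2 := key n le_rfl
    have h3 : (1 / 32000 : ℝ) ^ 4 ≤ (1 / 32000) ^ (K + 1) :=
      pow_le_pow_of_le_one (by norm_num) (by norm_num) (by omega)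
    calc (1 / 32000 : ℝ) ^ 5 ≤ (1 / 32000) ^ 4 * (2 / 3) := by norm_num
      _ ≤ _ := mul_le_mul h3 h2 (by norm_num) (by positivity)
  · obtain ⟨K, rfl⟩ := Nat.exists_eq_add_of_lt hL'
    have h1 := steps (j := j) (n := n) 4 (fun t h1 h2 => h t (by omega) (by omega))
    have h64 : 64 * j ≤ 4 ^ (n + 4) := by
      have : 4 ^ (n + 4) = 64 * 4 ^ (n + 1) := by
        rw [pow_add, pow_succ]
        ring
      omega
    have h2 := part3 (j := j) (n := n + 4) hj h64 (K + 1)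
    rw [← Nat.add_assoc] at h2
    refine le_trans ?_ h2
    have h3 := key n le_rfl
    have h64r : 64 * (j : ℝ) ≤ 4 ^ (n + 4) := by exact_mod_cast h64
    have h4 : 12 * (j : ℝ) * (1 / 4 ^ (n + 4) - 1 / 4 ^ (n + 4 + K + 1)) ≤ 1 / 4 := by
      have h5 : (0 : ℝ) ≤ 1 / 4 ^ (n + 4 + K + 1) := by positivity
      have h6 : 12 * (j : ℝ) * (1 / 4 ^ (n + 4)) ≤ 1 / 4 := by
        rw [mul_one_div, div_le_div_iff₀ (by positivity) (by norm_num)]
        linarith
      nlinarith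
    have h7 : (1 / 32000 : ℝ) ^ 4 * (2 / 3) ≤ FF (n + 4) j := by
      refine le_trans ?_ h1
      exact mul_le_mul_of_nonneg_left h3 (by norm_num)
    calc (1 / 32000 : ℝ) ^ 5 ≤ ((1 / 32000) ^ 4 * (2 / 3)) * (3 / 4) := by norm_num
      _ ≤ _ := mul_le_mul h7 (by linarith) (by norm_num) (FF_nonneg _ _)

end Pool.Agent.H288.TF.LOWN

namespace Pool.Agent.H288.TF

theorem t_LOW : S_LOW := by
  refine ⟨(1 / 32000) ^ 5, by norm_num, ?_⟩
  intro L j hj h
  have hm := LOWN.main L j (by omega) h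
  unfold LOWN.FF at hm
  have hQL := LOWN.QQ_pos L j
  have hQ0 := LOWN.QQ_pos 0 j
  have e1 : MM 0 j / MM L j = LOWN.QQ L j / LOWN.QQ 0 j := by
    unfold MM
    change 1 / LOWN.QQ 0 j / (1 / LOWN.QQ L j) = _
    have h1 := hQL.ne'
    have h2 := hQ0.ne'
    field_simp
  have e2 : ∏ t ∈ Finset.Icc 1 L, ‖AA t j‖ = ∏ t ∈ Finset.range L, ‖AA (t + 1) j‖ := by
    clear hm hQL e1 h
    induction L with
    | zero => simp
    | succ L ih => rw [Finset.prod_Icc_succ_top (by omega), Finset.prod_range_succ, ih]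
  rw [e1, e2]
  have h1 := hQL.ne'
  have h2 := hQ0.ne'
  calc (1 / 32000 : ℝ) ^ 5 * (LOWN.QQ L j / LOWN.QQ 0 j)
      ≤ ((∏ t ∈ Finset.range L, ‖AA (t + 1) j‖) / LOWN.QQ L j * LOWN.QQ 0 j) *
        (LOWN.QQ L j / LOWN.QQ 0 j) := mul_le_mul_of_nonneg_right hm (by positivity)
    _ = _ := by field_simp

end Pool.Agent.H288.TF
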