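import Pool.Agent.H288.TF.Stm

/-!
# Task MAJ: the majorant sequence
-/

set_option autoImplicit false

namespace Pool.Agent.H288.TF

namespace MAJN

open Finset

/-- `1 / n ^ 2` -/
noncomputable def w (n : ℕ) : ℝ := 1 / (n : ℝ) ^ 2

theorem w_nonneg (n : ℕ) : 0 ≤ w n := by unfold w; positivity

theorem w_zero : w 0 = 0 := by simp [w]

theorem w_one : w 1 = 1 := by simp [w]

theorem w_anti {n : ℕ} (hn : 1 ≤ n) : w (n + 1) ≤ w n := by
  unfold w
  have h1 : (0 : ℝ) < n := by exact_mod_cast hn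
  apply one_div_le_one_div_of_le (by positivity)
  push_cast
  nlinarith

theorem w_le_one (n : ℕ) : w n ≤ 1 := by
  rcases Nat.eq_zero_or_pos n with rfl | hn
  · rw [w_zero]; norm_num
  · unfold w
    have h1 : (1 : ℝ) ≤ n := by exact_mod_cast hn
    rw [div_le_one (by positivity)]
    nlinarith

theorem sum_w2 (N : ℕ) : ∑ a ∈ range (N + 2), w a ≤ 2 - 1 / ((N : ℝ) + 1) := by
  induction N with
  | zero =>
    rw [sum_range_succ, sum_range_one, w_zero, w_one]
    norm_num
  | succ N ih =>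
    rw [sum_range_succ]
    have h1 : w (N + 2) ≤ 1 / ((N : ℝ) + 1) - 1 / ((N : ℝ) + 2) := by
      unfold w
      push_cast
      rw [div_sub_div _ _ (by positivity) (by positivity), div_le_div_iff₀ (by positivity)
        (by positivity)]
      nlinarith [(Nat.cast_nonneg N : (0 : ℝ) ≤ N)]
    push_cast
    have h2 : (N : ℝ) + 1 + 1 = N + 2 := by ring
    rw [h2]
    linarith

theorem sum_w (N : ℕ) : ∑ a ∈ range N, w a ≤ 2 := by
  have h1 : ∑ a ∈ range N, w a ≤ ∑ a ∈ range (N + 2), w a :=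
    sum_le_sum_of_subset_of_nonneg (range_mono (by omega)) fun i _ _ => w_nonneg i
  have h2 := sum_w2 N
  have h3 : (0 : ℝ) ≤ 1 / ((N : ℝ) + 1) := by positivity
  linarith

theorem term {a m : ℕ} (ha : 1 ≤ a) (hm : 1 ≤ m) :
    w a * w m ≤ 2 * w (a + m) * (w a + w m) := by
  unfold w
  have h1 : (0 : ℝ) < a := by exact_mod_cast ha
  have h2 : (0 : ℝ) < m := by exact_mod_cast hm
  push_cast
  have e1 : 1 / (a : ℝ) ^ 2 * (1 / (m : ℝ) ^ 2) = 1 / ((a : ℝ) ^ 2 * (m : ℝ) ^ 2) := by
    rw [one_div_mul_one_div]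
  have e2 : 2 * (1 / ((a : ℝ) + m) ^ 2) * (1 / (a : ℝ) ^ 2 + 1 / (m : ℝ) ^ 2) =
      (2 * ((a : ℝ) ^ 2 + m ^ 2)) / (((a : ℝ) + m) ^ 2 * ((a : ℝ) ^ 2 * (m : ℝ) ^ 2)) := by
    field_simp
    ring
  rw [e1, e2, div_le_div_iff₀ (by positivity) (by positivity)]
  have h3 : ((a : ℝ) + m) ^ 2 ≤ 2 * ((a : ℝ) ^ 2 + m ^ 2) := by nlinarith [sq_nonneg ((a : ℝ) - m)]
  have h4 : (0 : ℝ) ≤ (a : ℝ) ^ 2 * (m : ℝ) ^ 2 := by positivity
  nlinarith [mul_le_mul_of_nonneg_right h3 h4]

theorem conv (n : ℕ) : ∑ a ∈ Icc 1 n, w a * w (n - a) ≤ 8 * w n := by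
  have h1 : ∀ a ∈ Icc 1 n, w a * w (n - a) ≤ 2 * w n * (w a + w (n - a)) := by
    intro a ha
    rw [mem_Icc] at ha
    rcases Nat.lt_or_ge a n with h | h
    · have h2 := term ha.1 (show 1 ≤ n - a by omega)
      rw [show a + (n - a) = n by omega] at h2
      exact h2
    · rw [show n - a = 0 by omega, w_zero, mul_zero, add_zero]
      exact mul_nonneg (mul_nonneg zero_le_two (w_nonneg _)) (w_nonneg _)
  have h2 : ∑ a ∈ Icc 1 n, w a ≤ 2 := by
    refine le_trans ?_ (sum_w (n + 1))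
    refine sum_le_sum_of_subset_of_nonneg ?_ fun i _ _ => w_nonneg i
    intro a ha
    rw [mem_Icc] at ha
    rw [mem_range]
    omega
  have h3 : ∑ a ∈ Icc 1 n, w (n - a) ≤ 2 := by
    have e : ∑ a ∈ Icc 1 n, w (n - a) = ∑ m ∈ range n, w m := by
      refine sum_nbij' (fun a => n - a) (fun a => n - a) ?_ ?_ ?_ ?_ ?_
      · intro a ha
        rw [mem_Icc] at ha
        rw [mem_range]
        omega
      · intro a ha
        rw [mem_range] at ha
        rw [mem_Icc]
        omega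
      · intro a ha
        rw [mem_Icc] at ha
        show n - (n - a) = a
        omega
      · intro a ha
        rw [mem_range] at ha
        show n - (n - a) = a
        omega
      · intro a _
        rfl
    rw [e]
    exact sum_w n
  calc ∑ a ∈ Icc 1 n, w a * w (n - a) ≤ ∑ a ∈ Icc 1 n, 2 * w n * (w a + w (n - a)) :=
        sum_le_sum h1
    _ = 2 * w n * (∑ a ∈ Icc 1 n, w a + ∑ a ∈ Icc 1 n, w (n - a)) := by
        rw [← mul_sum, sum_add_distrib]
    _ ≤ 2 * w n * (2 + 2) :=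
        mul_le_mul_of_nonneg_left (add_le_add h2 h3) (mul_nonneg zero_le_two (w_nonneg _))
    _ = 8 * w n := by ring

theorem cp_nonneg {b : ℕ → ℝ} (hb : ∀ a, 0 ≤ b a) : ∀ k n : ℕ, 0 ≤ cp b k n := by
  intro k
  induction k with
  | zero =>
    intro n
    rw [cp]
    split_ifs
    · exact zero_le_one
    · exact le_rfl
  | succ k ih =>
    intro n
    rw [cp]
    exact sum_nonneg fun a _ => mul_nonneg (hb a) (ih _)

theorem cp_one (b : ℕ → ℝ) (n : ℕ) : cp b 1 n = if n = 0 then 0 else b n := by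
  rw [cp]
  rcases Nat.eq_zero_or_pos n with rfl | hn
  · simp
  · rw [if_neg (by omega)]
    have h1 : ∀ a ∈ Icc 1 n, b a * cp b 0 (n - a) = if a = n then b n else 0 := by
      intro a ha
      rw [mem_Icc] at ha
      rw [cp]
      by_cases h : a = n
      · rw [if_pos h, if_pos (by omega), h, mul_one]
      · rw [if_neg h, if_neg (by omega), mul_zero]
    rw [sum_congr rfl h1, sum_ite_eq', if_pos (mem_Icc.2 ⟨hn, le_rfl⟩)]

theorem cp_le {b : ℕ → ℝ} {B : ℝ} (hB : 0 < B) (hb0 : ∀ a, 0 ≤ b a)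
    (hb : ∀ a, 1 ≤ a → B * b a ≤ B ^ a * w a) (k : ℕ) : ∀ n : ℕ,
    B ^ (k + 1) * cp b (k + 1) n ≤ 8 ^ k * (B ^ n * w n) := by
  induction k with
  | zero =>
    intro n
    rw [zero_add, cp_one, pow_one, pow_zero, one_mul]
    split_ifs with h
    · rw [mul_zero]
      exact mul_nonneg (by positivity) (w_nonneg _)
    · exact hb n (by omega)
  | succ k ih =>
    intro n
    rw [cp, mul_sum]
    have h1 : ∀ a ∈ Icc 1 n, B ^ (k + 1 + 1) * (b a * cp b (k + 1) (n - a)) ≤
        8 ^ k * B ^ n * (w a * w (n - a)) := by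
      intro a ha
      rw [mem_Icc] at ha
      have e1 : B ^ (k + 1 + 1) * (b a * cp b (k + 1) (n - a)) =
          (B * b a) * (B ^ (k + 1) * cp b (k + 1) (n - a)) := by ring
      have e2 : 8 ^ k * B ^ n * (w a * w (n - a)) =
          (B ^ a * w a) * (8 ^ k * (B ^ (n - a) * w (n - a))) := by
        have : B ^ n = B ^ a * B ^ (n - a) := by rw [← pow_add]; congr 1; omega
        rw [this]
        ring
      rw [e1, e2]
      apply mul_le_mul (hb a ha.1) (ih (n - a))
      · exact mul_nonneg (by positivity) (cp_nonneg hb0 _ _)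
      · exact mul_nonneg (by positivity) (w_nonneg _)
    refine (sum_le_sum h1).trans ?_
    rw [← mul_sum]
    have h2 : (0 : ℝ) ≤ 8 ^ k * B ^ n := by positivity
    calc 8 ^ k * B ^ n * ∑ a ∈ Icc 1 n, w a * w (n - a) ≤ 8 ^ k * B ^ n * (8 * w n) :=
          mul_le_mul_of_nonneg_left (conv n) h2
      _ = 8 ^ (k + 1) * (B ^ n * w n) := by ring

theorem cp_le' {b : ℕ → ℝ} {B : ℝ} (hB : 0 < B) (hb0 : ∀ a, 0 ≤ b a)
    (hb : ∀ a, 1 ≤ a → B * b a ≤ B ^ a * w a) (k n : ℕ) (hk : 1 ≤ k) :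
    cp b k n ≤ 1 / 8 * (B ^ n * w n) * (8 / B) ^ k := by
  obtain ⟨l, rfl⟩ : ∃ l, k = l + 1 := ⟨k - 1, by omega⟩
  have h := cp_le hB hb0 hb l n
  have e : 1 / 8 * (B ^ n * w n) * (8 / B) ^ (l + 1) = 8 ^ l * (B ^ n * w n) / B ^ (l + 1) := by
    rw [div_pow, pow_succ (8 : ℝ) l]
    ring
  rw [e, le_div_iff₀ (by positivity)]
  linarith

theorem tail {b : ℕ → ℝ} {B : ℝ} (hB : 16 ≤ B) (hb0 : ∀ a, 0 ≤ b a)
    (hb : ∀ a, 1 ≤ a → B * b a ≤ B ^ a * w a) (m n : ℕ) (hm : 1 ≤ m) :
    ∑ k ∈ Icc m n, cp b k n ≤ 1 / 4 * (B ^ n * w n) * (8 / B) ^ m := by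
  have hB0 : 0 < B := by linarith
  have hX : 0 ≤ B ^ n * w n := mul_nonneg (by positivity) (w_nonneg _)
  have h1 : ∑ k ∈ Icc m n, cp b k n ≤ ∑ k ∈ Icc m n, 1 / 8 * (B ^ n * w n) * (8 / B) ^ k := by
    apply sum_le_sum
    intro k hk
    rw [mem_Icc] at hk
    exact cp_le' hB0 hb0 hb k n (by omega)
  have hr0 : 0 ≤ 8 / B := by positivity
  have hr1 : 8 / B ≤ 1 / 2 := by
    rw [div_le_div_iff₀ hB0 (by norm_num)]
    linarith
  have h2 : ∑ k ∈ Icc m n, (8 / B) ^ k ≤ (8 / B) ^ m / (1 - 8 / B) := by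
    have e : Icc m n = Ico m (n + 1) := by
      ext k
      rw [mem_Icc, mem_Ico]
      omega
    rw [e]
    exact geom_sum_Ico_le_of_lt_one hr0 (by linarith)
  have h3 : (8 / B) ^ m / (1 - 8 / B) ≤ 2 * (8 / B) ^ m := by
    rw [div_le_iff₀ (by linarith)]
    have : 0 ≤ (8 / B) ^ m := by positivity
    nlinarith
  rw [← mul_sum] at h1
  refine h1.trans ?_
  calc 1 / 8 * (B ^ n * w n) * ∑ k ∈ Icc m n, (8 / B) ^ k ≤
        1 / 8 * (B ^ n * w n) * (2 * (8 / B) ^ m) :=
        mul_le_mul_of_nonneg_left (h2.trans h3) (by positivity)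
    _ = _ := by ring

/-- The sequence. -/
noncomputable def bs (d B : ℝ) (j : ℕ) : ℝ := if j = 1 then 1 else d / B * (B ^ j * w j)

theorem bs_one (d B : ℝ) : bs d B 1 = 1 := if_pos rfl

theorem bs_of (d B : ℝ) {j : ℕ} (hj : j ≠ 1) : bs d B j = d / B * (B ^ j * w j) := if_neg hj

theorem phi_nonneg {b : ℕ → ℝ} (hb : ∀ a, 0 ≤ b a) (j : ℕ) : 0 ≤ Phi b j :=
  mul_nonneg zero_le_two (sum_nonneg fun _ _ => cp_nonneg hb _ _)

end MAJN

open MAJN Finset in
/-- **MAJ** -/
theorem t_MAJ : S_MAJ := by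
  intro C hC
  set d : ℝ := 1 / (32 * C) with hd
  set B : ℝ := 32768 * C ^ 3 with hBdef
  have hC0 : 0 < C := by linarith
  have hd0 : 0 < d := by positivity
  have hd1 : d ≤ 1 := by
    rw [hd, div_le_one (by positivity)]
    linarith
  have hC3 : 1 ≤ C ^ 3 := one_le_pow₀ hC
  have hB16 : 16 ≤ B := by rw [hBdef]; linarith
  have hB0 : 0 < B := by linarith
  have hX : ∀ n, 0 ≤ B ^ n * w n := fun n => mul_nonneg (by positivity) (w_nonneg _)
  have hb0 : ∀ j, 0 ≤ bs d B j := by
    intro j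
    unfold bs
    split_ifs
    · exact zero_le_one
    · exact mul_nonneg (by positivity) (hX j)
  have hbB : ∀ a, 1 ≤ a → B * bs d B a ≤ B ^ a * w a := by
    intro a _
    by_cases h : a = 1
    · rw [h, bs_one, w_one, pow_one]
    · rw [bs_of d B h]
      have e : B * (d / B * (B ^ a * w a)) = d * (B ^ a * w a) := by
        field_simp
      rw [e]
      have := mul_le_mul_of_nonneg_right hd1 (hX a)
      linarith
  -- the two numerical conditions
  have hCd : C * d = 1 / 32 := by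
    rw [hd]; field_simp
  have hnum2 : (4 * C + 1) * (32 * C / B ^ 2) + 16 * C * d ^ 2 / B + 256 * C / B ^ 2 ≤ d / B := by
    have e1 : (4 * C + 1) * (32 * C / B ^ 2) + 16 * C * d ^ 2 / B + 256 * C / B ^ 2 =
        ((4 * C + 1) * (32 * C) + 16 * C * d ^ 2 * B + 256 * C) / B ^ 2 := by
      field_simp
    have e2 : d / B = d * B / B ^ 2 := by field_simp
    rw [e1, e2]
    apply div_le_div_of_nonneg_right _ (by positivity)
    have e3 : 16 * C * d ^ 2 * B = 1 / 2 * (d * B) := by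
      have : 16 * C * d ^ 2 * B = 16 * (C * d) * (d * B) := by ring
      rw [this, hCd]; ring
    have e4 : d * B = 1024 * C ^ 2 := by
      rw [hd, hBdef]
      field_simp
      norm_num
    rw [e3, e4]
    nlinarith
  have hnum1 : 32 * C / B ^ 2 ≤ d / B := by
    have h1 : 0 ≤ (4 * C) * (32 * C / B ^ 2) := by positivity
    have h2 : 0 ≤ 16 * C * d ^ 2 / B := by positivity
    have h3 : 0 ≤ 256 * C / B ^ 2 := by positivity
    have h4 : (4 * C + 1) * (32 * C / B ^ 2) = (4 * C) * (32 * C / B ^ 2) + 32 * C / B ^ 2 := by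
      ring
    linarith
  -- the bound for Phi
  have hPhi : ∀ j, C * Phi (bs d B) j ≤ 32 * C / B ^ 2 * (B ^ j * w j) := by
    intro j
    have h1 := tail hB16 hb0 hbB 2 j (by norm_num)
    unfold Phi
    have e : 32 * C / B ^ 2 * (B ^ j * w j) =
        C * (2 * (1 / 4 * (B ^ j * w j) * (8 / B) ^ 2)) := by
      rw [div_pow]
      ring
    rw [e]
    exact mul_le_mul_of_nonneg_left (mul_le_mul_of_nonneg_left h1 zero_le_two) hC0.le
  have hi : ∀ j, 2 ≤ j → C * Phi (bs d B) j ≤ bs d B j := by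
    intro j hj
    rw [bs_of d B (by omega)]
    exact (hPhi j).trans (mul_le_mul_of_nonneg_right hnum1 (hX j))
  refine ⟨bs d B, B, by linarith, hb0, bs_one d B, ?_, hi, ?_⟩
  · intro j
    by_cases h : j = 1
    · rw [h, bs_one, pow_one]; linarith
    · rw [bs_of d B h]
      have h1 : d / B ≤ 1 := by
        rw [div_le_one hB0]; linarith
      have h2 : B ^ j * w j ≤ B ^ j := by
        have := mul_le_mul_of_nonneg_left (w_le_one j) (by positivity : (0 : ℝ) ≤ B ^ j)
        linarith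
      calc d / B * (B ^ j * w j) ≤ 1 * (B ^ j * w j) := mul_le_mul_of_nonneg_right h1 (hX j)
        _ ≤ B ^ j := by rw [one_mul]; exact h2
  · intro e he
    set β : ℝ := C * Phi (bs d B) e with hβ
    have hβ0 : 0 ≤ β := mul_nonneg hC0.le (phi_nonneg hb0 _)
    have hβe : β ≤ bs d B e := hi e he
    set b' : ℕ → ℝ := Function.update (bs d B) e β with hb'
    have hb'e : b' e = β := Function.update_self _ _ _
    have hb'n : ∀ a, a ≠ e → b' a = bs d B a := fun a ha => Function.update_of_ne ha _ _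
    have hb'0 : ∀ a, 0 ≤ b' a := by
      intro a
      by_cases h : a = e
      · rw [h, hb'e]; exact hβ0
      · rw [hb'n a h]; exact hb0 a
    have hb'le : ∀ a, b' a ≤ bs d B a := by
      intro a
      by_cases h : a = e
      · rw [h, hb'e]; exact hβe
      · rw [hb'n a h]
    have hb'B : ∀ a, 1 ≤ a → B * b' a ≤ B ^ a * w a := fun a ha =>
      (mul_le_mul_of_nonneg_left (hb'le a) hB0.le).trans (hbB a ha)
    -- the part `k = 2`
    have h2 : cp b' 2 (e + 1) ≤ 2 * β + 8 * (d / B) ^ 2 * (B ^ (e + 1) * w (e + 1)) := by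
      have hterm : ∀ a ∈ Icc 1 (e + 1), b' a * cp b' 1 (e + 1 - a) ≤
          (if a = 1 then β else 0) + (if a = e then β else 0) +
            (d / B) ^ 2 * B ^ (e + 1) * (w a * w (e + 1 - a)) := by
        intro a ha
        rw [mem_Icc] at ha
        have hq : 0 ≤ (d / B) ^ 2 * B ^ (e + 1) * (w a * w (e + 1 - a)) :=
          mul_nonneg (by positivity) (mul_nonneg (w_nonneg _) (w_nonneg _))
        rw [cp_one]
        by_cases h1 : a = 1
        · rw [if_pos h1, if_neg (by omega : ¬ e + 1 - a = 0), if_neg (by omega : ¬ a = e)]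
          have e1 : e + 1 - a = e := by omega
          rw [e1, hb'e, hb'n a (by omega), h1, bs_one, one_mul]
          rw [h1, e1.symm.trans (by rw [h1])] at hq
          have e2 : e + 1 - 1 = e := by omega
          rw [e2] at hq
          have hq' : 0 ≤ (d / B) ^ 2 * B ^ (e + 1) * (w 1 * w e) :=
            mul_nonneg (by positivity) (mul_nonneg (w_nonneg _) (w_nonneg _))
          linarith
        · rw [if_neg h1]
          by_cases h3 : a = e
          · rw [if_pos h3, if_neg (by omega : ¬ e + 1 - a = 0)]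
            have e1 : e + 1 - a = 1 := by omega
            rw [e1] at hq ⊢
            rw [hb'n 1 (by omega), bs_one, mul_one, h3, hb'e]
            rw [h3] at hq
            linarith
          · rw [if_neg h3]
            by_cases h4 : e + 1 - a = 0
            · rw [if_pos h4, mul_zero]
              linarith
            · rw [if_neg h4, hb'n a h3, hb'n _ (by omega), bs_of d B h1, bs_of d B (by omega)]
              have e5 : B ^ (e + 1) = B ^ a * B ^ (e + 1 - a) := by
                rw [← pow_add]; congr 1; omega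
              rw [e5]
              have e6 : d / B * (B ^ a * w a) * (d / B * (B ^ (e + 1 - a) * w (e + 1 - a))) =
                  0 + 0 + (d / B) ^ 2 * (B ^ a * B ^ (e + 1 - a)) * (w a * w (e + 1 - a)) := by
                ring
              exact e6.le
      have hsum : cp b' 2 (e + 1) = ∑ a ∈ Icc 1 (e + 1), b' a * cp b' 1 (e + 1 - a) := rfl
      rw [hsum]
      refine (sum_le_sum hterm).trans ?_
      rw [sum_add_distrib, sum_add_distrib, sum_ite_eq', sum_ite_eq',
        if_pos (mem_Icc.2 ⟨le_rfl, by omega⟩), if_pos (mem_Icc.2 ⟨by omega, by omega⟩), ← mul_sum]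
      have h5 := mul_le_mul_of_nonneg_left (conv (e + 1))
        (by positivity : (0 : ℝ) ≤ (d / B) ^ 2 * B ^ (e + 1))
      linarith
    -- the part `k ≥ 3`
    have h3 := tail hB16 hb'0 hb'B 3 (e + 1) (by norm_num)
    have hsplit : Phi b' (e + 1) = 2 * cp b' 2 (e + 1) + 2 * ∑ k ∈ Icc 3 (e + 1), cp b' k (e + 1) := by
      unfold Phi
      have e1 : Icc 2 (e + 1) = insert 2 (Icc 3 (e + 1)) := by
        ext k
        rw [mem_insert, mem_Icc, mem_Icc]
        omega
      rw [e1, sum_insert (by rw [mem_Icc]; omega), mul_add]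
    have hw : B ^ (e + 1) * w (e + 1) ≤ B * (B ^ e * w e) := by
      have h6 := mul_le_mul_of_nonneg_left (w_anti (n := e) (by omega))
        (by positivity : (0 : ℝ) ≤ B ^ (e + 1))
      calc B ^ (e + 1) * w (e + 1) ≤ B ^ (e + 1) * w e := h6
        _ = B * (B ^ e * w e) := by ring
    have hβ2 : β ≤ 32 * C / B ^ 2 * (B ^ e * w e) := hPhi e
    set Y : ℝ := B ^ e * w e with hY
    have hY0 : 0 ≤ Y := hX e
    rw [bs_of d B (by omega), hsplit]
    have hfin : C * (2 * cp b' 2 (e + 1) + 2 * ∑ k ∈ Icc 3 (e + 1), cp b' k (e + 1)) + β ≤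
        ((4 * C + 1) * (32 * C / B ^ 2) + 16 * C * d ^ 2 / B + 256 * C / B ^ 2) * Y := by
      have h7 : cp b' 2 (e + 1) ≤ 2 * β + 8 * (d / B) ^ 2 * (B * Y) := by
        have h8 := mul_le_mul_of_nonneg_left hw (by positivity : (0 : ℝ) ≤ 8 * (d / B) ^ 2)
        linarith
      have h9 : ∑ k ∈ Icc 3 (e + 1), cp b' k (e + 1) ≤ 1 / 4 * (B * Y) * (8 / B) ^ 3 := by
        have h8 := mul_le_mul_of_nonneg_left hw (by positivity : (0 : ℝ) ≤ 1 / 4 * (8 / B) ^ 3)
        linarith
      calc C * (2 * cp b' 2 (e + 1) + 2 * ∑ k ∈ Icc 3 (e + 1), cp b' k (e + 1)) + β ≤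
            C * (2 * (2 * β + 8 * (d / B) ^ 2 * (B * Y)) +
              2 * (1 / 4 * (B * Y) * (8 / B) ^ 3)) + β := by
            have h10 : 2 * cp b' 2 (e + 1) + 2 * ∑ k ∈ Icc 3 (e + 1), cp b' k (e + 1) ≤
                2 * (2 * β + 8 * (d / B) ^ 2 * (B * Y)) +
                  2 * (1 / 4 * (B * Y) * (8 / B) ^ 3) := by linarith
            have := mul_le_mul_of_nonneg_left h10 hC0.le
            linarith
        _ = (4 * C + 1) * β + (16 * C * d ^ 2 / B + 256 * C / B ^ 2) * Y := by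
            field_simp
            ring
        _ ≤ (4 * C + 1) * (32 * C / B ^ 2 * Y) + (16 * C * d ^ 2 / B + 256 * C / B ^ 2) * Y := by
            have := mul_le_mul_of_nonneg_left hβ2 (by positivity : (0 : ℝ) ≤ 4 * C + 1)
            linarith
        _ = _ := by ring
    exact hfin.trans (mul_le_mul_of_nonneg_right hnum2 hY0)

end Pool.Agent.H288.TF
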