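import Pool.Agent.H288.TF.Stm

/-!
# MEAS: the probability measure with given `K`
-/

set_option autoImplicit false

open MeasureTheory Set Filter Topology

namespace Pool.Agent.H288.TF.MEASN

open Pool.Agent.H288.TF

variable {K : ℂ → ℂ} {R c : ℝ}

theorem im_ge (h : Nice K R c) {z : ℂ} (hz : 0 ≤ z.im) : z.im + c ≤ (z - K z).im := by
  have h1 := h.im_le z hz
  rw [Complex.sub_im]
  linarith

theorem ne_zero (h : Nice K R c) {z : ℂ} (hz : 0 ≤ z.im) : z - K z ≠ 0 := by
  intro h0
  have h1 := im_ge h hz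
  rw [h0, Complex.zero_im] at h1
  have := h.pos
  linarith

theorem norm_ge (h : Nice K R c) {z : ℂ} (hz : 0 ≤ z.im) : z.im + c ≤ ‖z - K z‖ :=
  (im_ge h hz).trans ((le_abs_self _).trans (Complex.abs_im_le_norm _))

theorem R_nonneg (h : Nice K R c) : 0 ≤ R := (norm_nonneg _).trans (h.bdd 0 (by simp))

theorem bound (h : Nice K R c) {z : ℂ} (hz : 0 ≤ z.im) :
    1 + ‖z‖ ≤ (1 + (1 + R) / c) * ‖z - K z‖ := by
  have h1 := norm_ge h hz
  have h2 := h.bdd z hz
  have h3 : ‖z‖ ≤ ‖z - K z‖ + ‖K z‖ := by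
    have h4 := norm_add_le (z - K z) (K z)
    rw [sub_add_cancel] at h4
    exact h4
  have hc := h.pos
  have hR := R_nonneg h
  have h5 : 1 + R ≤ (1 + R) / c * ‖z - K z‖ := by
    rw [div_mul_eq_mul_div, le_div_iff₀ hc]
    refine mul_le_mul_of_nonneg_left ?_ (by linarith)
    linarith
  nlinarith

theorem cont_K (h : Nice K R c) : Continuous (fun x : ℝ => K (x : ℂ)) :=
  h.diff.continuousOn.comp_continuous Complex.continuous_ofReal (fun x => by
    show -1 < ((x : ℂ)).im
    rw [Complex.ofReal_im]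
    norm_num)

theorem ne_zero_real (h : Nice K R c) (x : ℝ) : (x : ℂ) - K x ≠ 0 :=
  ne_zero h (by rw [Complex.ofReal_im])

theorem dens_cont (h : Nice K R c) : Continuous (dens K) := by
  unfold dens
  have h1 : Continuous (fun x : ℝ => (x : ℂ) - K x) := Complex.continuous_ofReal.sub (cont_K h)
  refine Continuous.div (Complex.continuous_im.comp h1)
    (continuous_const.mul (Complex.continuous_normSq.comp h1)) fun x => ?_
  exact mul_ne_zero Real.pi_ne_zero (by
    intro h0
    exact ne_zero_real h x (Complex.normSq_eq_zero.1 h0))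

theorem dens_nonneg (h : Nice K R c) (x : ℝ) : 0 ≤ dens K x := by
  unfold dens
  refine div_nonneg ?_ (mul_nonneg Real.pi_pos.le (Complex.normSq_nonneg _))
  have h1 := im_ge h (z := (x : ℂ)) (by rw [Complex.ofReal_im])
  rw [Complex.ofReal_im] at h1
  have := h.pos
  linarith

theorem dens_eq (h : Nice K R c) (x : ℝ) :
    (((x : ℂ) - K x)⁻¹).im = - (Real.pi * dens K x) := by
  unfold dens
  rw [Complex.inv_im]
  have hn : Complex.normSq ((x : ℂ) - K x) ≠ 0 := fun h0 =>
    ne_zero_real h x (Complex.normSq_eq_zero.1 h0)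
  have hpi := Real.pi_ne_zero
  field_simp

theorem dens_le (h : Nice K R c) (x : ℝ) :
    dens K x ≤ R * (1 + (1 + R) / c) ^ 2 / Real.pi * (1 + ‖x‖) ^ (-(2 : ℝ)) := by
  have hz : (0 : ℝ) ≤ ((x : ℂ)).im := by rw [Complex.ofReal_im]
  have h1 := bound h hz
  have h2 := h.bdd (x : ℂ) hz
  have hR := R_nonneg h
  have hc := h.pos
  have hM : 0 ≤ 1 + (1 + R) / c := by positivity
  rw [Complex.norm_real] at h1
  have hx : 0 < 1 + ‖x‖ := by
    have := norm_nonneg x
    linarith
  have h3 : (1 + ‖x‖) ^ 2 ≤ (1 + (1 + R) / c) ^ 2 * Complex.normSq ((x : ℂ) - K x) := by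
    rw [Complex.normSq_eq_norm_sq, ← mul_pow]
    exact pow_le_pow_left₀ hx.le h1 2
  have h4 : ((x : ℂ) - K x).im ≤ R := by
    rw [Complex.sub_im, Complex.ofReal_im, zero_sub]
    exact (neg_le_abs _).trans ((Complex.abs_im_le_norm _).trans h2)
  have hn : 0 < Complex.normSq ((x : ℂ) - K x) := Complex.normSq_pos.2 (ne_zero_real h x)
  unfold dens
  rw [Real.rpow_neg hx.le, Real.rpow_two, ← div_eq_mul_inv, div_div, div_le_div_iff₀
    (mul_pos Real.pi_pos hn) (mul_pos Real.pi_pos (by positivity))]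
  have h5 : ((x : ℂ) - K x).im * (Real.pi * (1 + ‖x‖) ^ 2) ≤
      R * (Real.pi * (1 + ‖x‖) ^ 2) := mul_le_mul_of_nonneg_right h4
        (mul_nonneg Real.pi_pos.le (sq_nonneg _))
  have h6 : R * (Real.pi * (1 + ‖x‖) ^ 2) ≤
      R * (Real.pi * ((1 + (1 + R) / c) ^ 2 * Complex.normSq ((x : ℂ) - K x))) :=
    mul_le_mul_of_nonneg_left (mul_le_mul_of_nonneg_left h3 Real.pi_pos.le) hR
  refine (h5.trans h6).trans (le_of_eq ?_)
  ring

theorem dens_int (h : Nice K R c) : Integrable (dens K) := by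
  have h1 : Integrable (fun x : ℝ => (1 + ‖x‖) ^ (-(2 : ℝ))) :=
    integrable_one_add_norm (by simp)
  refine (h1.const_mul (R * (1 + (1 + R) / c) ^ 2 / Real.pi)).mono'
    (dens_cont h).aestronglyMeasurable (Eventually.of_forall fun x => ?_)
  rw [Real.norm_eq_abs, abs_of_nonneg (dens_nonneg h x)]
  exact dens_le h x

theorem cauchy (h1 : S_CAU) (h : Nice K R c) {z : ℂ} (hz : 0 < z.im) :
    ∫ x : ℝ, ((dens K x : ℝ) : ℂ) * (z - x)⁻¹ = (z - K z)⁻¹ := by
  have hsub : {z : ℂ | 0 ≤ z.im} ⊆ {z : ℂ | -1 < z.im} := fun w hw => by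
    have hw' : 0 ≤ w.im := hw
    show -1 < w.im
    linarith
  have hsub2 : {z : ℂ | 0 < z.im} ⊆ {z : ℂ | -1 < z.im} := fun w hw => by
    have hw' : 0 < w.im := hw
    show -1 < w.im
    linarith
  have hcont : ContinuousOn (fun z : ℂ => (z - K z)⁻¹) {z | 0 ≤ z.im} :=
    (continuousOn_id.sub (h.diff.continuousOn.mono hsub)).inv₀ fun w hw => ne_zero h hw
  have hdiff : DifferentiableOn ℂ (fun z : ℂ => (z - K z)⁻¹) {z | 0 < z.im} :=
    (differentiableOn_id.sub (h.diff.mono hsub2)).inv fun w hw =>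
      ne_zero h (le_of_lt (show 0 < w.im from hw))
  have hb : ∀ w : ℂ, 0 ≤ w.im → ‖(w - K w)⁻¹‖ * (1 + ‖w‖) ≤ 1 + (1 + R) / c := by
    intro w hw
    have h2 := bound h hw
    have h3 : 0 < ‖w - K w‖ := norm_pos_iff.2 (ne_zero h hw)
    rw [norm_inv, inv_mul_le_iff₀ h3, mul_comm]
    exact h2
  obtain ⟨i1, e1, e2⟩ := h1 (fun z => (z - K z)⁻¹) (1 + (1 + R) / c) hcont hdiff hb z hz
  have hxz : ∀ x : ℝ, (x : ℂ) - z ≠ 0 := by
    intro x h0
    have h2 := congrArg Complex.im h0
    rw [Complex.sub_im, Complex.ofReal_im, Complex.zero_im] at h2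
    linarith
  have e3 : ∫ x : ℝ, (starRingEnd ℂ) (((x : ℂ) - K x)⁻¹) / ((x : ℂ) - z) = 0 := by
    have h2 : ∫ x : ℝ, (starRingEnd ℂ) (((x : ℂ) - K x)⁻¹ / ((x : ℂ) - (starRingEnd ℂ) z)) =
        (starRingEnd ℂ) (∫ x : ℝ, ((x : ℂ) - K x)⁻¹ / ((x : ℂ) - (starRingEnd ℂ) z)) :=
      integral_conj
    rw [e2, map_zero] at h2
    rw [← h2]
    refine integral_congr_ae (Eventually.of_forall fun x => ?_)
    simp only [map_div₀, map_sub, Complex.conj_conj, Complex.conj_ofReal]
  have hPhi : Continuous (fun x : ℝ => ((x : ℂ) - K x)⁻¹) :=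
    (Complex.continuous_ofReal.sub (cont_K h)).inv₀ (ne_zero_real h)
  have i2 : Integrable (fun x : ℝ => (starRingEnd ℂ) (((x : ℂ) - K x)⁻¹) / ((x : ℂ) - z)) := by
    refine i1.mono ?_ (Eventually.of_forall fun x => ?_)
    · refine Continuous.aestronglyMeasurable ?_
      exact (Complex.continuous_conj.comp hPhi).div
        (Complex.continuous_ofReal.sub continuous_const) hxz
    · rw [norm_div, norm_div, RCLike.norm_conj]
  have e4 := integral_sub i1 i2
  rw [e1, e3, sub_zero] at e4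
  have e5 : ∀ x : ℝ, ((x : ℂ) - K x)⁻¹ / ((x : ℂ) - z) -
      (starRingEnd ℂ) (((x : ℂ) - K x)⁻¹) / ((x : ℂ) - z) =
      (2 * Real.pi * Complex.I) * (((dens K x : ℝ) : ℂ) * (z - x)⁻¹) := by
    intro x
    have h2 : z - (x : ℂ) ≠ 0 := by
      intro h0
      apply hxz x
      rw [← neg_sub, h0, neg_zero]
    rw [← sub_div, Complex.sub_conj, dens_eq h x]
    have h3 := hxz x
    have h4 : (x : ℂ) - z = -(z - x) := by ring
    rw [h4]
    push_cast
    field_simp
  rw [integral_congr_ae (Eventually.of_forall e5), integral_const_mul] at e4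
  have h2pi : (2 * Real.pi * Complex.I : ℂ) ≠ 0 := by
    refine mul_ne_zero (mul_ne_zero two_ne_zero ?_) Complex.I_ne_zero
    exact_mod_cast Real.pi_ne_zero
  exact mul_left_cancel₀ h2pi e4

/-- the points `(n + 1) i` -/
noncomputable def zn (n : ℕ) : ℂ := ((n : ℝ) + 1 : ℝ) * Complex.I

theorem zn_im (n : ℕ) : (zn n).im = (n : ℝ) + 1 := by
  unfold zn
  rw [Complex.im_ofReal_mul, Complex.I_im, mul_one]

theorem zn_norm (n : ℕ) : ‖zn n‖ = (n : ℝ) + 1 := by
  unfold zn
  rw [norm_mul, Complex.norm_I, mul_one, Complex.norm_real, Real.norm_eq_abs,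
    abs_of_nonneg (by positivity)]

/-- `z / (z - w) → 1` if `w` is bounded and the imaginary part of `z - w` is large -/
theorem lim_one (w : ℕ → ℂ) (R : ℝ) (hw : ∀ n, ‖w n‖ ≤ R)
    (hi : ∀ n : ℕ, (n : ℝ) + 1 ≤ ‖zn n - w n‖) :
    Tendsto (fun n => zn n * (zn n - w n)⁻¹) atTop (𝓝 1) := by
  have h1 : ∀ n, zn n * (zn n - w n)⁻¹ = 1 + w n * (zn n - w n)⁻¹ := by
    intro n
    have h2 : zn n - w n ≠ 0 := by
      intro h0
      have h3 := hi n
      rw [h0, norm_zero] at h3
      have : (0 : ℝ) ≤ n := Nat.cast_nonneg n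
      linarith
    field_simp
    ring
  simp only [h1]
  have h2 : Tendsto (fun n => w n * (zn n - w n)⁻¹) atTop (𝓝 0) := by
    refine squeeze_zero_norm (a := fun n : ℕ => R * (1 / ((n : ℝ) + 1))) ?_ ?_
    · intro n
      rw [norm_mul, norm_inv, one_div]
      have h3 : (0 : ℝ) < (n : ℝ) + 1 := by positivity
      have h4 : ‖zn n - w n‖⁻¹ ≤ ((n : ℝ) + 1)⁻¹ := inv_anti₀ h3 (hi n)
      exact mul_le_mul (hw n) h4 (inv_nonneg.2 (norm_nonneg _)) ((norm_nonneg _).trans (hw n))
    · have h3 := (tendsto_one_div_add_atTop_nhds_zero_nat (𝕜 := ℝ)).const_mul R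
      rw [mul_zero] at h3
      exact h3
  have h3 := h2.const_add 1
  rw [add_zero] at h3
  exact h3

theorem mass (h1 : S_CAU) (h : Nice K R c) : ∫ x : ℝ, dens K x = 1 := by
  have hz : ∀ n, 0 < (zn n).im := fun n => by
    rw [zn_im]
    positivity
  have hnorm : ∀ (n : ℕ) (x : ℝ), (n : ℝ) + 1 ≤ ‖zn n - x‖ := by
    intro n x
    refine le_trans ?_ (Complex.abs_im_le_norm _)
    rw [Complex.sub_im, Complex.ofReal_im, sub_zero, zn_im]
    exact le_abs_self _
  have hA : Tendsto (fun n => ∫ x : ℝ, ((dens K x : ℝ) : ℂ) * (zn n * (zn n - x)⁻¹)) atTop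
      (𝓝 (∫ x : ℝ, ((dens K x : ℝ) : ℂ))) := by
    refine tendsto_integral_of_dominated_convergence (fun x => dens K x) ?_ (dens_int h) ?_ ?_
    · intro n
      refine Continuous.aestronglyMeasurable ?_
      refine (Complex.continuous_ofReal.comp (dens_cont h)).mul (continuous_const.mul ?_)
      refine (continuous_const.sub Complex.continuous_ofReal).inv₀ fun x h0 => ?_
      have h2 := hnorm n x
      have h0' : zn n - (x : ℂ) = 0 := h0
      rw [h0', norm_zero] at h2
      have : (0 : ℝ) ≤ n := Nat.cast_nonneg n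
      linarith
    · intro n
      refine Eventually.of_forall fun x => ?_
      rw [norm_mul, Complex.norm_real, Real.norm_eq_abs, abs_of_nonneg (dens_nonneg h x)]
      have h2 : ‖zn n * (zn n - x)⁻¹‖ ≤ 1 := by
        rw [norm_mul, norm_inv, zn_norm]
        have h3 : (0 : ℝ) < (n : ℝ) + 1 := by positivity
        have h4 := hnorm n x
        rw [← div_eq_mul_inv, div_le_one (by linarith)]
        exact h4
      calc dens K x * ‖zn n * (zn n - x)⁻¹‖ ≤ dens K x * 1 :=
            mul_le_mul_of_nonneg_left h2 (dens_nonneg h x)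
        _ = dens K x := mul_one _
    · refine Eventually.of_forall fun x => ?_
      have h2 := (lim_one (fun _ => (x : ℂ)) |x| (fun n => by
        rw [Complex.norm_real, Real.norm_eq_abs]) (fun n => hnorm n x)).const_mul
          (((dens K x : ℝ) : ℂ))
      rw [mul_one] at h2
      exact h2
  have hB : ∀ n, ∫ x : ℝ, ((dens K x : ℝ) : ℂ) * (zn n * (zn n - x)⁻¹) =
      zn n * (zn n - K (zn n))⁻¹ := by
    intro n
    rw [← cauchy h1 h (hz n), ← integral_const_mul]
    refine integral_congr_ae (Eventually.of_forall fun x => ?_)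
    simp only
    ring
  simp only [hB] at hA
  have hC := lim_one (fun n => K (zn n)) R (fun n => h.bdd _ (hz n).le) (fun n => by
    have h2 := norm_ge h (hz n).le
    rw [zn_im] at h2
    have := h.pos
    linarith)
  have hD := tendsto_nhds_unique hA hC
  have hE : ∫ x : ℝ, ((dens K x : ℝ) : ℂ) = ((∫ x : ℝ, dens K x : ℝ) : ℂ) := integral_ofReal
  rw [hE] at hD
  exact_mod_cast hD

end Pool.Agent.H288.TF.MEASN

namespace Pool.Agent.H288.TF

open MEASN

theorem t_MEAS (h1 : S_CAU) : S_MEAS := by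
  intro K R c h
  refine ⟨⟨?_⟩, ?_⟩
  · unfold mu
    rw [withDensity_apply _ MeasurableSet.univ, Measure.restrict_univ,
      ← ofReal_integral_eq_lintegral_ofReal (dens_int h) (Eventually.of_forall (dens_nonneg h)),
      mass h1 h, ENNReal.ofReal_one]
  · intro z hz
    unfold KK
    have h2 : G (mu K) z = (z - K z)⁻¹ := by
      rw [← cauchy h1 h hz]
      unfold G mu
      rw [integral_withDensity_eq_integral_toReal_smul
        (dens_cont h).measurable.ennreal_ofReal (Eventually.of_forall fun x => ENNReal.ofReal_lt_top)]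
      refine integral_congr_ae (Eventually.of_forall fun x => ?_)
      simp only
      rw [ENNReal.toReal_ofReal (dens_nonneg h x), Complex.real_smul]
    rw [h2, inv_inv]
    ring

end Pool.Agent.H288.TF
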