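import Pool.Agent.H288.TF.Stm

/-!
# NICE: a function on the upper half-plane from a power series (helper597 for helper288)
-/

set_option autoImplicit false

open MeasureTheory Set Filter Topology

namespace Pool.Agent.H288.TF

namespace NICEN

theorem norm_arg (ε z : ℂ) : ‖ε * Complex.exp (Complex.I * z)‖ = ‖ε‖ * Real.exp (-z.im) := by
  rw [norm_mul, Complex.norm_exp]
  congr 2
  simp

theorem norm_arg_lt {B : ℝ} {ε z : ℂ} (hB : 1 ≤ B) (hε : 24 * B * ‖ε‖ ≤ 1) (hz : -1 < z.im) :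
    ‖ε * Complex.exp (Complex.I * z)‖ < 1 / (8 * B) := by
  have hB0 : 0 < B := by linarith
  have h1 : Real.exp (-z.im) < 3 := by
    have h2 : Real.exp (-z.im) < Real.exp 1 := Real.exp_lt_exp.2 (by linarith)
    have h3 := Real.exp_one_lt_d9
    linarith
  have h4 : 0 < Real.exp (-z.im) := Real.exp_pos _
  rw [norm_arg, lt_div_iff₀ (by positivity)]
  have h5 : ‖ε‖ * Real.exp (-z.im) * (8 * B) = (24 * B * ‖ε‖) * (Real.exp (-z.im) / 3) := by ring
  rw [h5]
  calc (24 * B * ‖ε‖) * (Real.exp (-z.im) / 3) ≤ 1 * (Real.exp (-z.im) / 3) :=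
        mul_le_mul_of_nonneg_right hε (by positivity)
    _ < 1 := by linarith

theorem norm_arg_le {B : ℝ} {ε z : ℂ} (hB : 1 ≤ B) (hε : 24 * B * ‖ε‖ ≤ 1) (hz : 0 ≤ z.im) :
    B * ‖ε * Complex.exp (Complex.I * z)‖ ≤ 1 / 8 := by
  have hB0 : 0 < B := by linarith
  have h := norm_arg_lt hB hε (by linarith : -1 < z.im)
  rw [lt_div_iff₀ (by positivity)] at h
  linarith

end NICEN

open NICEN in
theorem t_NICE (h1 : S_HB) : S_NICE := by
  intro B c h κ ε hB hc hh hκ hε
  obtain ⟨hb, hd, -⟩ := h1 B c h hB hc.le hh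
  refine ⟨hc, ?_, ?_, ?_⟩
  · have h2 : DifferentiableOn ℂ (fun z : ℂ => ε * Complex.exp (Complex.I * z))
        {z | -1 < z.im} := by
      fun_prop
    have h3 : MapsTo (fun z : ℂ => ε * Complex.exp (Complex.I * z)) {z | -1 < z.im}
        (Metric.ball 0 (1 / (8 * B))) := by
      intro z hz
      rw [Metric.mem_ball, dist_zero_right]
      exact norm_arg_lt hB hε hz
    exact (hd.comp h2 h3).const_add κ
  · intro z hz
    have h2 := hb _ (norm_arg_le hB hε hz)
    calc ‖κ + Hf h (ε * Complex.exp (Complex.I * z))‖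
        ≤ ‖κ‖ + ‖Hf h (ε * Complex.exp (Complex.I * z))‖ := norm_add_le _ _
      _ ≤ ‖κ‖ + c := by linarith
  · intro z hz
    have h2 := hb _ (norm_arg_le hB hε hz)
    have h3 := (Complex.abs_im_le_norm (Hf h (ε * Complex.exp (Complex.I * z)))).trans h2
    have h4 := (abs_le.1 h3).2
    show (κ + Hf h (ε * Complex.exp (Complex.I * z))).im ≤ -c
    rw [Complex.add_im]
    linarith

end Pool.Agent.H288.TF
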