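import Pool.Agent.H288.TF.Stm

set_option autoImplicit false

open MeasureTheory Set Filter Topology

namespace Pool.Agent.H288.TF.NLN

theorem cp_nonneg (b : ℕ → ℝ) (hb : ∀ a, 0 ≤ b a) : ∀ p n : ℕ, 0 ≤ cp b p n
  | 0, n => by
    unfold cp
    split_ifs
    · exact zero_le_one
    · exact le_rfl
  | p + 1, n => by
    unfold cp
    exact Finset.sum_nonneg fun a _ => mul_nonneg (hb a) (cp_nonneg b hb p (n - a))

theorem cp_lt (b : ℕ → ℝ) : ∀ p n : ℕ, n < p → cp b p n = 0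
  | 0, n => fun h => absurd h (Nat.not_lt_zero n)
  | p + 1, n => fun h => by
    unfold cp
    refine Finset.sum_eq_zero fun a ha => ?_
    rw [Finset.mem_Icc] at ha
    rw [cp_lt b p (n - a) (by omega), mul_zero]

theorem one_side (h2 : S_CP) (s j : ℕ) (q : ℂ) (h : ℕ → ℂ) (b : ℕ → ℝ) (hb : ∀ a, 0 ≤ b a)
    (hh : ∀ a, 1 ≤ a → a < j → ‖h a‖ ≤ MM s a * b a)
    (hMM : ∀ a b : ℕ, 1 ≤ a → 1 ≤ b → MM s a * MM s b ≤ 2 / 4 ^ s * MM s (a + b))
    (hpos : ∀ j, 0 < MM s j) :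
    ‖Nl q h j‖ / MM s j ≤ ∑ a ∈ Finset.Ico 1 j, ∑ p ∈ Finset.Icc 1 j,
      ((2 * (a : ℝ) / 4 ^ s) ^ p * ‖q‖ ^ a / (p.factorial : ℝ)) * (b a * cp b p (j - a)) := by
  rw [div_le_iff₀ (hpos j)]
  unfold Nl
  refine (norm_sum_le _ _).trans ?_
  rw [Finset.sum_mul]
  refine Finset.sum_le_sum fun a ha => ?_
  rw [Finset.mem_Ico] at ha
  rw [norm_mul, norm_mul, norm_pow, Finset.sum_mul]
  have hj : a + (j - a) = j := by omega
  have hja : 1 ≤ j - a := by omega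
  have h0 : ‖∑ p ∈ Finset.Icc 1 j, (-Complex.I * a) ^ p / (p.factorial : ℂ) * cp h p (j - a)‖ ≤
      ∑ p ∈ Finset.Icc 1 j, (a : ℝ) ^ p / (p.factorial : ℝ) *
        ((2 / 4 ^ s) ^ (p - 1) * MM s (j - a) * cp b p (j - a)) := by
    refine (norm_sum_le _ _).trans (Finset.sum_le_sum fun p hp => ?_)
    rw [Finset.mem_Icc] at hp
    rw [norm_mul, norm_div, norm_pow, norm_mul, norm_neg, Complex.norm_I, one_mul,
      Complex.norm_natCast, Complex.norm_natCast]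
    refine mul_le_mul_of_nonneg_left ?_ (by positivity)
    exact h2 s (j - a) h b hb (fun a' h1 h3 => hh a' h1 (by omega)) p hp.1
  have h1 : ‖h a‖ ≤ MM s a * b a := hh a ha.1 ha.2
  have hS0 : 0 ≤ ∑ p ∈ Finset.Icc 1 j, (a : ℝ) ^ p / (p.factorial : ℝ) *
        ((2 / 4 ^ s) ^ (p - 1) * MM s (j - a) * cp b p (j - a)) :=
    Finset.sum_nonneg fun p _ => mul_nonneg (by positivity)
      (mul_nonneg (mul_nonneg (by positivity) (hpos _).le) (cp_nonneg b hb _ _))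
  refine (mul_le_mul (mul_le_mul_of_nonneg_left h1 (by positivity)) h0 (norm_nonneg _)
    (mul_nonneg (by positivity) (mul_nonneg (hpos a).le (hb a)))).trans ?_
  rw [Finset.mul_sum]
  refine Finset.sum_le_sum fun p hp => ?_
  rw [Finset.mem_Icc] at hp
  have h3 := hMM a (j - a) ha.1 hja
  rw [hj] at h3
  have h4 : ‖q‖ ^ a * (MM s a * b a) * ((a : ℝ) ^ p / (p.factorial : ℝ) *
      ((2 / 4 ^ s) ^ (p - 1) * MM s (j - a) * cp b p (j - a))) =
      (‖q‖ ^ a * b a * ((a : ℝ) ^ p / (p.factorial : ℝ)) * (2 / 4 ^ s) ^ (p - 1) *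
        cp b p (j - a)) * (MM s a * MM s (j - a)) := by ring
  have h5 : ((2 * (a : ℝ) / 4 ^ s) ^ p * ‖q‖ ^ a / (p.factorial : ℝ)) * (b a * cp b p (j - a)) *
      MM s j = (‖q‖ ^ a * b a * ((a : ℝ) ^ p / (p.factorial : ℝ)) * (2 / 4 ^ s) ^ (p - 1) *
        cp b p (j - a)) * (2 / 4 ^ s * MM s j) := by
    obtain ⟨r, rfl⟩ : ∃ r, p = r + 1 := ⟨p - 1, by omega⟩
    have h6 : (2 * (a : ℝ) / 4 ^ s) ^ (r + 1) = (2 / 4 ^ s) ^ r * (2 / 4 ^ s) * (a : ℝ) ^ (r + 1) := by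
      rw [← pow_succ, ← mul_pow]
      congr 1
      ring
    rw [h6, Nat.add_sub_cancel]
    ring
  rw [h4, h5]
  refine mul_le_mul_of_nonneg_left h3 ?_
  exact mul_nonneg (mul_nonneg (mul_nonneg (mul_nonneg (by positivity) (hb a)) (by positivity))
    (by positivity)) (cp_nonneg b hb _ _)

end Pool.Agent.H288.TF.NLN

namespace Pool.Agent.H288.TF

theorem t_NL (h1 : S_WT) (h2 : S_CP) (h3 : S_SUM2) : S_NL := by
  intro L j h b hb hj hh
  have hMM := h1.1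
  have hpos : ∀ s j, 0 < MM s j := fun s j => (h1.2.1 s j).1
  have hstep : ∀ s ∈ Finset.Icc 1 L, ‖Nl (qq s) (h s) j‖ / MM s j ≤
      ∑ a ∈ Finset.Ico 1 j, ∑ p ∈ Finset.Icc 1 j,
        ((2 * (a : ℝ) / 4 ^ s) ^ p * ‖qq s‖ ^ a / (p.factorial : ℝ)) *
          (b a * cp b p (j - a)) := by
    intro s hs
    rw [Finset.mem_Icc] at hs
    exact NLN.one_side h2 s j (qq s) (h s) b hb (hh s hs.1 hs.2) (hMM s) (hpos s)
  refine (Finset.sum_le_sum hstep).trans ?_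
  rw [Finset.sum_comm]
  have hA : ∀ a ∈ Finset.Ico 1 j, ∑ s ∈ Finset.Icc 1 L, ∑ p ∈ Finset.Icc 1 j,
      ((2 * (a : ℝ) / 4 ^ s) ^ p * ‖qq s‖ ^ a / (p.factorial : ℝ)) *
        (b a * cp b p (j - a)) ≤
      ∑ p ∈ Finset.Icc 1 j, 2 * (b a * cp b p (j - a)) := by
    intro a ha
    rw [Finset.mem_Ico] at ha
    rw [Finset.sum_comm]
    refine Finset.sum_le_sum fun p hp => ?_
    rw [Finset.mem_Icc] at hp
    rw [← Finset.sum_mul]
    exact mul_le_mul_of_nonneg_right (h3 a p L ha.1 hp.1)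
      (mul_nonneg (hb a) (NLN.cp_nonneg b hb _ _))
  refine (Finset.sum_le_sum hA).trans ?_
  rw [Finset.sum_comm]
  unfold Phi
  simp_rw [← Finset.mul_sum]
  refine mul_le_mul_of_nonneg_left ?_ zero_le_two
  have hB : ∀ p ∈ Finset.Icc 1 j, ∑ a ∈ Finset.Ico 1 j, b a * cp b p (j - a) =
      cp b (p + 1) j := by
    intro p hp
    rw [Finset.mem_Icc] at hp
    have hIcc : Finset.Icc 1 j = insert j (Finset.Ico 1 j) := by
      ext x
      simp only [Finset.mem_Icc, Finset.mem_insert, Finset.mem_Ico]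
      omega
    have hcp : cp b (p + 1) j = ∑ a ∈ Finset.Icc 1 j, b a * cp b p (j - a) := by
      conv_lhs => unfold cp
    rw [hcp, hIcc, Finset.sum_insert (by simp)]
    rw [Nat.sub_self, NLN.cp_lt b p 0 (by omega), mul_zero, zero_add]
  rw [Finset.sum_congr rfl hB]
  have hC : ∑ p ∈ Finset.Icc 1 j, cp b (p + 1) j = ∑ k ∈ Finset.Icc 2 (j + 1), cp b k j := by
    refine Finset.sum_nbij' (fun p => p + 1) (fun k => k - 1) ?_ ?_ ?_ ?_ ?_
    · intro p hp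
      rw [Finset.mem_Icc] at hp ⊢
      omega
    · intro p hp
      rw [Finset.mem_Icc] at hp ⊢
      omega
    · intro p hp
      simp
    · intro p hp
      rw [Finset.mem_Icc] at hp
      omega
    · intro p hp
      rfl
  have hD : Finset.Icc 2 (j + 1) = insert (j + 1) (Finset.Icc 2 j) := by
    ext x
    simp only [Finset.mem_Icc, Finset.mem_insert]
    omega
  rw [hC, hD, Finset.sum_insert (by simp), NLN.cp_lt b (j + 1) j (by omega), zero_add]

end Pool.Agent.H288.TF
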