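import Pool.Agent.H288.TF.Stm

/-!
# REP: solution formula of the linear recursion
-/

set_option autoImplicit false

open MeasureTheory Set Filter Topology

namespace Pool.Agent.H288.TF

namespace REPN

lemma Ioc_insert_succ {i m : ℕ} (h : i < m) :
    Finset.Ioc i m = insert (i + 1) (Finset.Ioc (i + 1) m) := by
  ext t
  simp only [Finset.mem_Ioc, Finset.mem_insert]
  omega

lemma prod_Ioc {i m : ℕ} (h : i < m) (f : ℕ → ℂ) :
    ∏ t ∈ Finset.Ioc i m, f t = f (i + 1) * ∏ t ∈ Finset.Ioc (i + 1) m, f t := by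
  rw [Ioc_insert_succ h, Finset.prod_insert (by simp)]

lemma sum_Ioc {i m : ℕ} (h : i < m) (f : ℕ → ℂ) :
    ∑ t ∈ Finset.Ioc i m, f t = f (i + 1) + ∑ t ∈ Finset.Ioc (i + 1) m, f t := by
  rw [Ioc_insert_succ h, Finset.sum_insert (by simp)]

lemma hh_step (L : ℕ) (g : ℕ → ℂ) (i j : ℕ) (h : i < L) :
    hh L g i j = AA (i + 1) j * hh L g (i + 1) j + 3 * Nl (qq (i + 1)) (hh L g (i + 1)) j := by
  obtain ⟨d, hd⟩ : ∃ d, L = i + 1 + d := ⟨L - (i + 1), by omega⟩
  have h1 : L - i = d + 1 := by omega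
  have h2 : L - (i + 1) = d := by omega
  have h3 : L - d = i + 1 := by omega
  unfold hh
  rw [h1, h2]
  show AA (L - d) j * lev L g d j + 3 * Nl (qq (L - d)) (lev L g d) j = _
  rw [h3]

lemma hh_top (L : ℕ) (g : ℕ → ℂ) (j : ℕ) : hh L g L j = g j / 4 ^ L := by
  unfold hh
  rw [Nat.sub_self]
  rfl

end REPN

open REPN in
theorem t_REP : S_REP := by
  intro L g j i hi
  induction hi using Nat.decreasingInduction with
  | self =>
    rw [hh_top]
    simp only [VV, Finset.Ioc_self, Finset.prod_empty, Finset.sum_empty, add_zero]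
    ring
  | of_succ i hi ih =>
    have hiL : i < L := hi
    rw [hh_step L g i j hiL, ih, sum_Ioc hiL]
    have h1 : VV L i j = AA (i + 1) j * VV L (i + 1) j := by
      unfold VV
      rw [prod_Ioc hiL]
      ring
    have h2 : ∀ s ∈ Finset.Ioc (i + 1) L,
        3 * Nl (qq s) (hh L g s) j * ∏ t ∈ Finset.Ioc i (s - 1), AA t j =
          AA (i + 1) j *
            (3 * Nl (qq s) (hh L g s) j * ∏ t ∈ Finset.Ioc (i + 1) (s - 1), AA t j) := by
      intro s hs
      rw [Finset.mem_Ioc] at hs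
      rw [prod_Ioc (show i < s - 1 by omega) (fun t => AA t j)]
      ring
    rw [Finset.sum_congr rfl h2, ← Finset.mul_sum, h1, Nat.add_sub_cancel, Finset.Ioc_self,
      Finset.prod_empty]
    ring

end Pool.Agent.H288.TF
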