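import Pool.Agent.H288.TF.Stm

set_option autoImplicit false

open MeasureTheory Set Filter Topology

namespace Pool.Agent.H288.TF

namespace RESN

theorem log3_pos : 0 < Real.log 3 := Real.log_pos (by norm_num)

theorem log3_le : Real.log 3 ≤ 1.1 := by
  have := Real.log_three_lt_d9
  linarith

theorem th_re : th.re = Real.log 3 := by
  unfold th
  rw [Complex.add_re, Complex.ofReal_re, Complex.re_ofReal_mul, Complex.I_re, mul_zero, add_zero]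

theorem th_im : th.im = Real.pi := by
  unfold th
  rw [Complex.add_im, Complex.ofReal_im, Complex.im_ofReal_mul, Complex.I_im, mul_one, zero_add]

theorem th_norm : ‖th‖ ≤ 10 / 3 := by
  have h1 : ‖th‖ ^ 2 = Real.log 3 ^ 2 + Real.pi ^ 2 := by
    rw [← Complex.normSq_eq_norm_sq, Complex.normSq_apply, th_re, th_im]
    ring
  have h2 := Real.pi_lt_d4
  have h3 := Real.pi_pos
  have h4 := log3_le
  have h5 := log3_pos
  have h6 : ‖th‖ ^ 2 ≤ (10 / 3) ^ 2 := by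
    rw [h1]
    have a1 : Real.log 3 ^ 2 ≤ 1.1 ^ 2 := by gcongr
    have a2 : Real.pi ^ 2 ≤ 3.1416 ^ 2 := by gcongr
    norm_num at a1 a2 ⊢
    linarith
  exact le_of_sq_le_sq h6 (by norm_num)

theorem qq_pow (t j : ℕ) : qq t ^ j = Complex.exp (-(th * ((4 * (j : ℝ) / 4 ^ t : ℝ) : ℂ))) := by
  unfold qq
  rw [← Complex.exp_nat_mul]
  congr 1
  push_cast
  ring

theorem norm_qq_pow (t j : ℕ) : ‖qq t‖ ^ j = Real.exp (-(Real.log 3 * (4 * (j : ℝ) / 4 ^ t))) := by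
  rw [← norm_pow, qq_pow, Complex.norm_exp]
  congr 1
  rw [Complex.neg_re, Complex.re_mul_ofReal, th_re]

theorem norm_qq_le (t j : ℕ) : ‖qq t‖ ^ j ≤ 1 := by
  rw [norm_qq_pow, Real.exp_le_one_iff]
  have := log3_pos
  have : 0 ≤ Real.log 3 * (4 * (j : ℝ) / 4 ^ t) := by positivity
  linarith

theorem AA_le (t j : ℕ) : ‖AA t j‖ ≤ 4 := by
  unfold AA
  calc ‖1 + 3 * qq t ^ j‖ ≤ ‖(1 : ℂ)‖ + ‖3 * qq t ^ j‖ := norm_add_le _ _
    _ = 1 + 3 * ‖qq t‖ ^ j := by rw [norm_one, norm_mul, norm_pow]; norm_num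
    _ ≤ 4 := by linarith [norm_qq_le t j]

/-- `|exp (-u) - 1| ≤ |u|` in the right half-plane -/
theorem exp_half (u : ℂ) (hu : 0 ≤ u.re) : ‖Complex.exp (-u) - 1‖ ≤ ‖u‖ := by
  have hd : ∀ s ∈ Icc (0 : ℝ) 1, HasDerivWithinAt (fun s : ℝ => Complex.exp (-((s : ℂ) * u)))
      (Complex.exp (-((s : ℂ) * u)) * (-(1 * u))) (Icc 0 1) s := by
    intro s _
    have h1 : HasDerivAt (fun s : ℝ => (s : ℂ)) 1 s := Complex.ofRealCLM.hasDerivAt
    exact ((h1.mul_const u).neg.cexp).hasDerivWithinAt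
  have h := norm_image_sub_le_of_norm_deriv_le_segment_01' hd (C := ‖u‖) (by
    intro s hs
    rw [norm_mul, Complex.norm_exp, one_mul, norm_neg]
    have : (-((s : ℂ) * u)).re ≤ 0 := by
      rw [Complex.neg_re, Complex.re_ofReal_mul]
      have := mul_nonneg hs.1 hu
      linarith
    calc Real.exp (-((s : ℂ) * u)).re * ‖u‖ ≤ 1 * ‖u‖ := by
          gcongr
          exact Real.exp_le_one_iff.2 this
      _ = ‖u‖ := one_mul _)
  simpa using h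

theorem AA_low (t j : ℕ) : 4 * (1 - 10 * (j : ℝ) / 4 ^ t) ≤ ‖AA t j‖ := by
  unfold AA
  rw [qq_pow]
  have h0 : (0 : ℝ) ≤ 4 * (j : ℝ) / 4 ^ t := by positivity
  generalize hx : 4 * (j : ℝ) / 4 ^ t = x at *
  have h1 := exp_half (th * (x : ℂ)) (by
    rw [Complex.re_mul_ofReal, th_re]
    exact mul_nonneg log3_pos.le h0)
  have h2 : ‖th * (x : ℂ)‖ ≤ 10 / 3 * x := by
    rw [norm_mul, Complex.norm_real, Real.norm_of_nonneg h0]
    exact mul_le_mul_of_nonneg_right th_norm h0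
  have h3 : (1 : ℂ) + 3 * Complex.exp (-(th * (x : ℂ))) =
      4 + 3 * (Complex.exp (-(th * (x : ℂ))) - 1) := by ring
  have h4 : ‖(4 : ℂ)‖ - ‖3 * (Complex.exp (-(th * (x : ℂ))) - 1)‖ ≤
      ‖4 + 3 * (Complex.exp (-(th * (x : ℂ))) - 1)‖ := by
    have := norm_sub_norm_le (4 : ℂ) (-(3 * (Complex.exp (-(th * (x : ℂ))) - 1)))
    rw [norm_neg, sub_neg_eq_add] at this
    exact this
  rw [h3]
  rw [norm_mul] at h4
  have e1 : ‖(4 : ℂ)‖ = 4 := by norm_num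
  have e2 : ‖(3 : ℂ)‖ = 3 := by norm_num
  rw [e1, e2] at h4
  have e3 : 4 * (1 - 10 * (j : ℝ) / 4 ^ t) = 4 - 10 * x := by rw [← hx]; ring
  rw [e3]
  linarith

theorem exp_neg_th : Complex.exp (-th) = -(1 / 3) := by
  have h1 : -th = -((Real.log 3 : ℝ) : ℂ) + -(Real.pi * Complex.I) := by
    unfold th; ring
  rw [h1, Complex.exp_add, Complex.exp_neg, Complex.exp_neg, Complex.exp_pi_mul_I,
    ← Complex.ofReal_exp, Real.exp_log (by norm_num)]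
  norm_num

theorem AA_res (t j : ℕ) (δ : ℝ) (h : |4 * (j : ℝ) / 4 ^ t - 1| ≤ δ) (hδ : δ ≤ 3 / 10) :
    ‖AA t j‖ ≤ 7 * δ := by
  unfold AA
  rw [qq_pow]
  generalize 4 * (j : ℝ) / 4 ^ t = x at *
  have h1 : (1 : ℂ) + 3 * Complex.exp (-(th * (x : ℂ))) =
      -(Complex.exp (-(th * ((x - 1 : ℝ) : ℂ))) - 1) := by
    have e1 : -(th * (x : ℂ)) = -th + -(th * ((x - 1 : ℝ) : ℂ)) := by push_cast; ring
    rw [e1, Complex.exp_add, exp_neg_th]
    ring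
  have h2 : ‖-(th * ((x - 1 : ℝ) : ℂ))‖ ≤ 10 / 3 * δ := by
    rw [norm_neg, norm_mul, Complex.norm_real, Real.norm_eq_abs]
    exact mul_le_mul th_norm h (abs_nonneg _) (by norm_num)
  rw [h1, norm_neg]
  have hδ0 : 0 ≤ δ := (abs_nonneg _).trans h
  have h3 := Complex.norm_exp_sub_one_le (x := -(th * ((x - 1 : ℝ) : ℂ))) (by linarith)
  linarith

theorem q_small (m t j : ℕ) (ht : t ≤ m) (hj : 0.999 * (4 : ℝ) ^ m ≤ j) :
    3 * ‖qq t‖ ^ j ≤ (1 / 9) ^ (m + 1 - t) := by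
  obtain ⟨k, rfl⟩ : ∃ k, m = t + k := ⟨m - t, by omega⟩
  have e : t + k + 1 - t = k + 1 := by omega
  rw [e, norm_qq_pow]
  have h1 : 0.999 * (4 : ℝ) ^ (k + 1) ≤ 4 * j / 4 ^ t := by
    rw [le_div_iff₀ (by positivity)]
    calc 0.999 * (4 : ℝ) ^ (k + 1) * 4 ^ t = 4 * (0.999 * 4 ^ (t + k)) := by ring
      _ ≤ 4 * j := by linarith
  have h2 : (1 : ℝ) + 3 * (k + 1) ≤ 4 ^ (k + 1) := by
    have h := one_add_mul_le_pow (a := (3 : ℝ)) (by norm_num) (k + 1)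
    have e4 : (1 : ℝ) + 3 = 4 := by norm_num
    rw [e4] at h
    push_cast at h
    linarith
  have hk : (0 : ℝ) ≤ k := Nat.cast_nonneg k
  have h3 : 1 + 2 * ((k : ℝ) + 1) ≤ 4 * j / 4 ^ t := by
    refine le_trans ?_ h1
    norm_num at h2 ⊢
    linarith
  have e1 : (1 / 9 : ℝ) = Real.exp (-(Real.log 3 * 2)) := by
    rw [Real.exp_neg, Real.exp_mul, Real.exp_log (by norm_num)]
    norm_num
  have e2 : (1 / 9 : ℝ) ^ (k + 1) = Real.exp (-(Real.log 3 * (2 * ((k : ℝ) + 1)))) := by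
    rw [e1, ← Real.exp_nat_mul]
    congr 1
    push_cast
    ring
  rw [e2]
  generalize 4 * (j : ℝ) / 4 ^ t = x at *
  have e3 : (3 : ℝ) * Real.exp (-(Real.log 3 * x)) = Real.exp (-(Real.log 3 * (x - 1))) := by
    have e5 : -(Real.log 3 * (x - 1)) = Real.log 3 + -(Real.log 3 * x) := by ring
    rw [e5, Real.exp_add, Real.exp_log (by norm_num)]
  rw [e3]
  apply Real.exp_le_exp.2
  have := log3_pos
  nlinarith

theorem AA_up (m t j : ℕ) (ht : t ≤ m) (hj : 0.999 * (4 : ℝ) ^ m ≤ j) :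
    ‖AA t j‖ ≤ 1 + (1 / 9) ^ (m + 1 - t) := by
  unfold AA
  calc ‖1 + 3 * qq t ^ j‖ ≤ ‖(1 : ℂ)‖ + ‖3 * qq t ^ j‖ := norm_add_le _ _
    _ = 1 + 3 * ‖qq t‖ ^ j := by rw [norm_one, norm_mul, norm_pow]; norm_num
    _ ≤ _ := by linarith [q_small m t j ht hj]

theorem AA_dn (m t j : ℕ) (ht : t ≤ m) (hj : 0.999 * (4 : ℝ) ^ m ≤ j) :
    1 - (1 / 9) ^ (m + 1 - t) ≤ ‖AA t j‖ := by
  unfold AA
  have h1 : ‖(1 : ℂ)‖ - ‖3 * qq t ^ j‖ ≤ ‖1 + 3 * qq t ^ j‖ := by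
    have := norm_sub_norm_le (1 : ℂ) (-(3 * qq t ^ j))
    rw [norm_neg, sub_neg_eq_add] at this
    exact this
  have h2 : ‖3 * qq t ^ j‖ = 3 * ‖qq t‖ ^ j := by rw [norm_mul, norm_pow]; norm_num
  rw [norm_one, h2] at h1
  linarith [q_small m t j ht hj]

theorem ninth (m n : ℕ) (hn : n + 1 ≤ m) :
    ((1 : ℝ) / 9) ^ (m + 1 - (n + 1)) = (1 / 9) ^ (m - (n + 1)) / 9 ∧
      ((1 : ℝ) / 9) ^ (m - n) = (1 / 9) ^ (m - (n + 1)) / 9 := by
  have e1 : m + 1 - (n + 1) = (m - (n + 1)) + 1 := by omega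
  have e2 : m - n = (m - (n + 1)) + 1 := by omega
  rw [e1, e2, pow_succ]
  constructor <;> ring

theorem prod_up (m j : ℕ) (hj : 0.999 * (4 : ℝ) ^ m ≤ j) (s n : ℕ) (hsn : s ≤ n) (hn : n ≤ m) :
    ∏ t ∈ Finset.Ioc s n, ‖AA t j‖ ≤ 1 + (1 / 9) ^ (m - n) / 7 := by
  induction n, hsn using Nat.le_induction with
  | base =>
    rw [Finset.Ioc_self, Finset.prod_empty]
    have : (0 : ℝ) ≤ (1 / 9) ^ (m - s) / 7 := by positivity
    linarith
  | succ n hsn ih =>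
    have h1 := ih (by omega)
    have h2 := AA_up m (n + 1) j hn hj
    obtain ⟨e1, e2⟩ := ninth m n hn
    rw [Finset.prod_Ioc_succ_top hsn]
    rw [e1] at h2
    rw [e2] at h1
    have hb0 : (0 : ℝ) ≤ (1 / 9) ^ (m - (n + 1)) := by positivity
    have hb1 : ((1 : ℝ) / 9) ^ (m - (n + 1)) ≤ 1 := pow_le_one₀ (by norm_num) (by norm_num)
    generalize ((1 : ℝ) / 9) ^ (m - (n + 1)) = b at *
    calc (∏ t ∈ Finset.Ioc s n, ‖AA t j‖) * ‖AA (n + 1) j‖ ≤ (1 + b / 9 / 7) * (1 + b / 9) := by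
          exact mul_le_mul h1 h2 (norm_nonneg _) (by positivity)
      _ ≤ 1 + b / 7 := by nlinarith

theorem prod_dn (m j : ℕ) (hj : 0.999 * (4 : ℝ) ^ m ≤ j) (n : ℕ) (hn : n ≤ m) :
    1 - (1 / 9) ^ (m - n) / 8 ≤ ∏ t ∈ Finset.Ioc 0 n, ‖AA t j‖ := by
  induction n with
  | zero =>
    rw [Finset.Ioc_self, Finset.prod_empty]
    have : (0 : ℝ) ≤ (1 / 9) ^ (m - 0) / 8 := by positivity
    linarith
  | succ n ih =>
    have h1 := ih (by omega)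
    have h2 := AA_dn m (n + 1) j hn hj
    obtain ⟨e1, e2⟩ := ninth m n hn
    rw [Finset.prod_Ioc_succ_top (Nat.zero_le n)]
    rw [e1] at h2
    rw [e2] at h1
    have hb0 : (0 : ℝ) ≤ (1 / 9) ^ (m - (n + 1)) := by positivity
    have hb1 : ((1 : ℝ) / 9) ^ (m - (n + 1)) ≤ 1 := pow_le_one₀ (by norm_num) (by norm_num)
    generalize ((1 : ℝ) / 9) ^ (m - (n + 1)) = b at *
    have h3 : (0 : ℝ) ≤ 1 - b / 9 := by linarith
    calc 1 - b / 8 ≤ (1 - b / 9 / 8) * (1 - b / 9) := by nlinarith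
      _ ≤ (∏ t ∈ Finset.Ioc 0 n, ‖AA t j‖) * ‖AA (n + 1) j‖ :=
          mul_le_mul h1 h2 h3 (Finset.prod_nonneg fun _ _ => norm_nonneg _)

theorem prod_le4 (s L j : ℕ) (hsL : s ≤ L) :
    ∏ t ∈ Finset.Ioc s L, ‖AA t j‖ ≤ 4 ^ L / 4 ^ s := by
  induction L, hsL using Nat.le_induction with
  | base => rw [Finset.Ioc_self, Finset.prod_empty, div_self (by positivity)]
  | succ L hsL ih =>
    rw [Finset.prod_Ioc_succ_top hsL]
    calc (∏ t ∈ Finset.Ioc s L, ‖AA t j‖) * ‖AA (L + 1) j‖ ≤ (4 ^ L / 4 ^ s) * 4 :=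
          mul_le_mul ih (AA_le _ _) (norm_nonneg _) (by positivity)
      _ = 4 ^ (L + 1) / 4 ^ s := by ring

theorem prod_ge4 (s L j : ℕ) (hsL : s ≤ L) (h : 10 * (j : ℝ) ≤ 4 ^ (s + 1)) :
    (1 - 10 * j / 3 * (1 / 4 ^ s - 1 / 4 ^ L)) * (4 ^ L / 4 ^ s) ≤
      ∏ t ∈ Finset.Ioc s L, ‖AA t j‖ := by
  induction L, hsL using Nat.le_induction with
  | base =>
    rw [Finset.Ioc_self, Finset.prod_empty, div_self (by positivity), sub_self]
    norm_num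
  | succ L hsL ih =>
    rw [Finset.prod_Ioc_succ_top hsL]
    have h1 := AA_low (L + 1) j
    have hp : (4 : ℝ) ^ (s + 1) ≤ 4 ^ (L + 1) := pow_le_pow_right₀ (by norm_num) (by omega)
    have h2 : 10 * (j : ℝ) / 4 ^ (L + 1) ≤ 1 := by
      rw [div_le_one (by positivity)]
      exact h.trans hp
    have h3 : (0 : ℝ) ≤ 10 * (j : ℝ) / 4 ^ (L + 1) := by positivity
    have h4 : (1 : ℝ) / 4 ^ L ≤ 1 / 4 ^ s :=
      one_div_le_one_div_of_le (by positivity) (pow_le_pow_right₀ (by norm_num) hsL)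
    have h5 : 0 ≤ 10 * (j : ℝ) / 3 * (1 / 4 ^ s - 1 / 4 ^ L) :=
      mul_nonneg (by positivity) (by linarith)
    have h6 : 10 * (j : ℝ) / 3 * (1 / 4 ^ s - 1 / 4 ^ (L + 1)) =
        10 * (j : ℝ) / 3 * (1 / 4 ^ s - 1 / 4 ^ L) + 10 * (j : ℝ) / 4 ^ (L + 1) := by
      rw [pow_succ]
      field_simp
      ring
    have h7 : (0 : ℝ) < 4 ^ L / 4 ^ s := by positivity
    rw [h6]
    have h8 : (4 : ℝ) ^ (L + 1) / 4 ^ s = 4 ^ L / 4 ^ s * 4 := by ring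
    rw [h8]
    generalize 10 * (j : ℝ) / 3 * (1 / 4 ^ s - 1 / 4 ^ L) = u at *
    generalize 10 * (j : ℝ) / 4 ^ (L + 1) = v at *
    generalize (4 : ℝ) ^ L / 4 ^ s = p at *
    calc (1 - (u + v)) * (p * 4) ≤ ((1 - u) * p) * (4 * (1 - v)) := by nlinarith [mul_nonneg (mul_nonneg h5 h3) h7.le]
      _ ≤ (∏ t ∈ Finset.Ioc s L, ‖AA t j‖) * ‖AA (L + 1) j‖ :=
          mul_le_mul ih h1 (by linarith) (Finset.prod_nonneg fun _ _ => norm_nonneg _)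

theorem norm_VV (L s j : ℕ) : ‖VV L s j‖ = (∏ t ∈ Finset.Ioc s L, ‖AA t j‖) / 4 ^ L := by
  unfold VV
  rw [norm_div, norm_pow, norm_prod]
  norm_num

theorem VV_le (L s j : ℕ) (hsL : s ≤ L) : ‖VV L s j‖ ≤ 1 / 4 ^ s := by
  rw [norm_VV, div_le_iff₀ (by positivity)]
  refine (prod_le4 s L j hsL).trans (le_of_eq ?_)
  ring

theorem VV_ge (L s j : ℕ) (hsL : s ≤ L) (h : 10 * (j : ℝ) ≤ 4 ^ (s + 1)) :
    (1 - 10 * j / 3 / 4 ^ s) / 4 ^ s ≤ ‖VV L s j‖ := by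
  rw [norm_VV, le_div_iff₀ (by positivity)]
  refine le_trans ?_ (prod_ge4 s L j hsL h)
  have h1 : (0 : ℝ) ≤ 10 * (j : ℝ) / 3 * (1 / 4 ^ L) := by positivity
  have h2 : (0 : ℝ) < 4 ^ L / 4 ^ s := by positivity
  calc (1 - 10 * (j : ℝ) / 3 / 4 ^ s) / 4 ^ s * 4 ^ L =
        (1 - 10 * j / 3 * (1 / 4 ^ s)) * (4 ^ L / 4 ^ s) := by ring
    _ ≤ (1 - 10 * j / 3 * (1 / 4 ^ s - 1 / 4 ^ L)) * (4 ^ L / 4 ^ s) := by
        refine mul_le_mul_of_nonneg_right ?_ h2.le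
        rw [mul_sub]
        linarith

/-- the terms of the sum -/
noncomputable def T (L e s : ℕ) : ℂ :=
  (-3 * Complex.I) * (qq s + e * qq s ^ e) * VV L s 1 * VV L s e *
    ∏ t ∈ Finset.Ico 1 s, AA t (e + 1)

theorem norm_T (L e s : ℕ) : ‖T L e (s + 1)‖ = 3 * ‖qq (s + 1) + e * qq (s + 1) ^ e‖ *
    ‖VV L (s + 1) 1‖ * ‖VV L (s + 1) e‖ * ∏ t ∈ Finset.Ioc 0 s, ‖AA t (e + 1)‖ := by
  unfold T
  have h : Finset.Ico 1 (s + 1) = Finset.Ioc 0 s := by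
    ext t
    simp only [Finset.mem_Ico, Finset.mem_Ioc]
    omega
  rw [norm_mul, norm_mul, norm_mul, norm_mul, norm_prod, h, norm_mul, norm_neg, Complex.norm_I]
  norm_num

theorem sum_Ioc_pow (k n : ℕ) (h : k ≤ n) :
    ∑ s ∈ Finset.Ioc k n, (1 : ℝ) / 4 ^ s ≤ 1 / 3 / 4 ^ k := by
  have h1 : ∑ s ∈ Finset.Ioc k n, (1 : ℝ) / 4 ^ s = (1 / 4 ^ k - 1 / 4 ^ n) / 3 := by
    induction n, h using Nat.le_induction with
    | base => rw [Finset.Ioc_self, Finset.sum_empty, sub_self, zero_div]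
    | succ n hn ih =>
      rw [Finset.sum_Ioc_succ_top hn, ih, pow_succ]
      field_simp
      ring
  rw [h1]
  have h2 : (0 : ℝ) < 1 / 4 ^ n := by positivity
  have h3 : (1 : ℝ) / 3 / 4 ^ k = (1 / 4 ^ k) / 3 := by ring
  rw [h3]
  linarith

theorem sum_pow49 (m : ℕ) : ∑ s ∈ Finset.Ioc 0 m, ((4 : ℝ) / 9) ^ (m - s) ≤ 9 / 5 := by
  induction m with
  | zero => rw [Finset.Ioc_self, Finset.sum_empty]; norm_num
  | succ m ih =>
    rw [Finset.sum_Ioc_succ_top (Nat.zero_le m), Nat.sub_self, pow_zero]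
    have h1 : ∑ s ∈ Finset.Ioc 0 m, ((4 : ℝ) / 9) ^ (m + 1 - s) =
        (4 / 9) * ∑ s ∈ Finset.Ioc 0 m, ((4 : ℝ) / 9) ^ (m - s) := by
      rw [Finset.mul_sum]
      refine Finset.sum_congr rfl fun s hs => ?_
      rw [Finset.mem_Ioc] at hs
      have : m + 1 - s = (m - s) + 1 := by omega
      rw [this, pow_succ]
      ring
    rw [h1]
    linarith

theorem norm_main (s e : ℕ) : ‖qq s + e * qq s ^ e‖ ≤ 1 + e * ‖qq s‖ ^ e := by
  calc ‖qq s + e * qq s ^ e‖ ≤ ‖qq s‖ + ‖(e : ℂ) * qq s ^ e‖ := norm_add_le _ _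
    _ = ‖qq s‖ + e * ‖qq s‖ ^ e := by rw [norm_mul, norm_pow, Complex.norm_natCast]
    _ ≤ 1 + e * ‖qq s‖ ^ e := by
        have := norm_qq_le s 1
        rw [pow_one] at this
        linarith

/-- the situation near a resonance -/
structure Near (m L e : ℕ) : Prop where
  le : m + 1 ≤ L
  big : (4000 : ℝ) < 4 ^ m
  lo : (1 - 1 / 4000) * (4 : ℝ) ^ m ≤ (e : ℝ) + 1
  hi : (e : ℝ) + 1 ≤ (1 + 1 / 4000) * (4 : ℝ) ^ m

theorem Near.e_lo {m L e : ℕ} (h : Near m L e) : (1 - 1 / 2000) * (4 : ℝ) ^ m ≤ (e : ℝ) := by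
  have h1 := h.lo
  have h2 := h.big
  linarith

theorem Near.e_hi {m L e : ℕ} (h : Near m L e) : (e : ℝ) ≤ (1 + 1 / 4000) * (4 : ℝ) ^ m := by
  have h1 := h.hi
  linarith

theorem Near.e999 {m L e : ℕ} (h : Near m L e) : 0.999 * (4 : ℝ) ^ m ≤ (e : ℝ) := by
  have h1 := h.e_lo
  have h2 := h.big
  norm_num at h1 ⊢
  linarith

theorem Near.e999' {m L e : ℕ} (h : Near m L e) : 0.999 * (4 : ℝ) ^ m ≤ ((e + 1 : ℕ) : ℝ) := by
  have h1 := h.e999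
  push_cast
  linarith

theorem Near.res1 {m L e : ℕ} (h : Near m L e) : ‖AA (m + 1) e‖ ≤ 7 * (1 / 2000) := by
  refine AA_res (m + 1) e (1 / 2000) ?_ (by norm_num)
  have h1 := h.e_lo
  have h2 := h.e_hi
  have hX : (0 : ℝ) < 4 ^ m := by positivity
  have e1 : 4 * (e : ℝ) / 4 ^ (m + 1) = e / 4 ^ m := by rw [pow_succ]; field_simp
  rw [e1, abs_le]
  constructor
  · rw [le_sub_iff_add_le, le_div_iff₀ hX]
    linarith
  · rw [sub_le_iff_le_add, div_le_iff₀ hX]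
    linarith

theorem Near.res2 {m L e : ℕ} (h : Near m L e) : ‖AA (m + 1) (e + 1)‖ ≤ 7 * (1 / 4000) := by
  refine AA_res (m + 1) (e + 1) (1 / 4000) ?_ (by norm_num)
  have h1 := h.lo
  have h2 := h.hi
  have hX : (0 : ℝ) < 4 ^ m := by positivity
  have e1 : 4 * ((e + 1 : ℕ) : ℝ) / 4 ^ (m + 1) = ((e : ℝ) + 1) / 4 ^ m := by
    rw [pow_succ]; push_cast; field_simp
  rw [e1, abs_le]
  constructor
  · rw [le_sub_iff_add_le, le_div_iff₀ hX]
    linarith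
  · rw [sub_le_iff_le_add, div_le_iff₀ hX]
    linarith

theorem Near.main {m L e : ℕ} (h : Near m L e) :
    0.0088 * e / ((4 : ℝ) ^ m) ^ 2 ≤ ‖T L e (m + 1)‖ := by
  have hX : (0 : ℝ) < 4 ^ m := by positivity
  have hb := h.big
  have hlo := h.e_lo
  have hhi := h.e_hi
  have he0 : (0 : ℝ) ≤ e := Nat.cast_nonneg e
  rw [norm_T]
  have a1 : 0.33 * (e : ℝ) ≤ ‖qq (m + 1) + e * qq (m + 1) ^ e‖ := by
    have h1 : ‖(e : ℂ) * qq (m + 1) ^ e‖ - ‖qq (m + 1)‖ ≤ ‖qq (m + 1) + e * qq (m + 1) ^ e‖ := by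
      have := norm_sub_norm_le ((e : ℂ) * qq (m + 1) ^ e) (-qq (m + 1))
      rw [norm_neg, sub_neg_eq_add, add_comm ((e : ℂ) * qq (m + 1) ^ e)] at this
      exact this
    have h2 : ‖(e : ℂ) * qq (m + 1) ^ e‖ = e * ‖qq (m + 1)‖ ^ e := by
      rw [norm_mul, norm_pow, Complex.norm_natCast]
    have h3 := norm_qq_le (m + 1) 1
    rw [pow_one] at h3
    have h4 : 0.333 ≤ ‖qq (m + 1)‖ ^ e := by
      rw [norm_qq_pow]
      have e1 : 4 * (e : ℝ) / 4 ^ (m + 1) = e / 4 ^ m := by rw [pow_succ]; field_simp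
      have e2 : (e : ℝ) / 4 ^ m ≤ 1 + 1 / 4000 := by rw [div_le_iff₀ hX]; exact hhi
      rw [e1]
      have h5 := log3_pos
      have h6 := log3_le
      have h7 : -(Real.log 3 * (1 + 1 / 4000)) ≤ -(Real.log 3 * ((e : ℝ) / 4 ^ m)) := by
        have := mul_le_mul_of_nonneg_left e2 h5.le
        linarith
      refine le_trans ?_ (Real.exp_le_exp.2 h7)
      have e3 : -(Real.log 3 * (1 + 1 / 4000)) = -Real.log 3 + -(Real.log 3 / 4000) := by ring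
      rw [e3, Real.exp_add, Real.exp_neg, Real.exp_log (by norm_num)]
      have h8 := Real.add_one_le_exp (-(Real.log 3 / 4000))
      have h9 : (0.9995 : ℝ) ≤ Real.exp (-(Real.log 3 / 4000)) := by
        norm_num at h6 ⊢
        linarith
      norm_num at h9 ⊢
      linarith
    have h10 : 0.333 * (e : ℝ) ≤ e * ‖qq (m + 1)‖ ^ e := by
      rw [mul_comm]
      exact mul_le_mul_of_nonneg_left h4 he0
    rw [h2] at h1
    norm_num at h10 ⊢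
    linarith
  have a2 : 0.99 / (4 * 4 ^ m) ≤ ‖VV L (m + 1) 1‖ := by
    have h1 := VV_ge L (m + 1) 1 h.le (by
      rw [pow_succ, pow_succ]
      push_cast
      linarith)
    rw [pow_succ, mul_comm ((4 : ℝ) ^ m) 4] at h1
    refine le_trans ?_ h1
    gcongr
    have h2 : 10 * ((1 : ℕ) : ℝ) / 3 / (4 * 4 ^ m) ≤ 0.01 := by
      rw [div_le_iff₀ (by positivity)]
      push_cast
      norm_num
      linarith
    norm_num at h2 ⊢
    linarith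
  have a3 : 0.166 / (4 * 4 ^ m) ≤ ‖VV L (m + 1) e‖ := by
    have h1 := VV_ge L (m + 1) e h.le (by
      rw [pow_succ, pow_succ]
      linarith)
    rw [pow_succ, mul_comm ((4 : ℝ) ^ m) 4] at h1
    refine le_trans ?_ h1
    gcongr
    have h2 : 10 * (e : ℝ) / 3 / (4 * 4 ^ m) ≤ 0.834 := by
      rw [div_le_iff₀ (by positivity)]
      norm_num
      linarith
    norm_num at h2 ⊢
    linarith
  have a4 : 7 / 8 ≤ ∏ t ∈ Finset.Ioc 0 m, ‖AA t (e + 1)‖ := by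
    have h1 := prod_dn m (e + 1) h.e999' m le_rfl
    rw [Nat.sub_self, pow_zero] at h1
    linarith
  calc 0.0088 * e / ((4 : ℝ) ^ m) ^ 2 ≤
      3 * (0.33 * (e : ℝ)) * (0.99 / (4 * 4 ^ m)) * (0.166 / (4 * 4 ^ m)) * (7 / 8) := by
        have e1 : 3 * (0.33 * (e : ℝ)) * (0.99 / (4 * 4 ^ m)) * (0.166 / (4 * 4 ^ m)) * (7 / 8) =
          (3 * 0.33 * 0.99 * 0.166 * 7 / 128) * e / ((4 : ℝ) ^ m) ^ 2 := by
            field_simp
            ring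
        rw [e1]
        gcongr
        norm_num
    _ ≤ _ := by gcongr

theorem Near.small {m L e : ℕ} (h : Near m L e) (s : ℕ) (hs : s < m) :
    ‖T L e (s + 1)‖ ≤ 0.0035 / 4 ^ m * (1 / 4 ^ (s + 1) + 1.001 / 27 * (4 / 9) ^ (m - (s + 1))) := by
  have hX : (0 : ℝ) < 4 ^ m := by positivity
  have hhi := h.e_hi
  have he0 : (0 : ℝ) ≤ e := Nat.cast_nonneg e
  rw [norm_T]
  have a1 : ‖qq (s + 1) + e * qq (s + 1) ^ e‖ ≤ 1 + e * (1 / 3 * (1 / 9) ^ (m + 1 - (s + 1))) := by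
    refine (norm_main _ _).trans ?_
    have h1 := q_small m (s + 1) e (by omega) h.e999
    have h2 : ‖qq (s + 1)‖ ^ e ≤ 1 / 3 * (1 / 9) ^ (m + 1 - (s + 1)) := by linarith
    have := mul_le_mul_of_nonneg_left h2 he0
    linarith
  have a2 := VV_le L (s + 1) 1 (by have := h.le; omega)
  have a3 : ‖VV L (s + 1) e‖ ≤ 0.001 / 4 ^ m := by
    rw [norm_VV, ← Finset.prod_Ioc_consecutive _ (show s + 1 ≤ m by omega)
      (show m ≤ L by have := h.le; omega), ← Finset.prod_Ioc_consecutive _ (show m ≤ m + 1 by omega)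
      h.le, Finset.prod_Ioc_succ_top le_rfl, Finset.Ioc_self, Finset.prod_empty, one_mul]
    have h1 := prod_up m e h.e999 (s + 1) m (by omega) le_rfl
    rw [Nat.sub_self, pow_zero] at h1
    have h2 := h.res1
    have h3 := prod_le4 (m + 1) L e h.le
    have h4 : (∏ t ∈ Finset.Ioc (s + 1) m, ‖AA t e‖) *
        (‖AA (m + 1) e‖ * ∏ t ∈ Finset.Ioc (m + 1) L, ‖AA t e‖) ≤
        (1 + 1 / 7) * (7 * (1 / 2000) * (4 ^ L / 4 ^ (m + 1))) :=
      mul_le_mul h1 (mul_le_mul h2 h3 (Finset.prod_nonneg fun _ _ => norm_nonneg _) (by norm_num))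
        (mul_nonneg (norm_nonneg _) (Finset.prod_nonneg fun _ _ => norm_nonneg _)) (by norm_num)
    rw [div_le_iff₀ (by positivity)]
    refine h4.trans (le_of_eq ?_)
    rw [pow_succ]
    field_simp
    ring
  have a4 : ∏ t ∈ Finset.Ioc 0 s, ‖AA t (e + 1)‖ ≤ 8 / 7 := by
    have h1 := prod_up m (e + 1) h.e999' 0 s (by omega) (by omega)
    have h2 : ((1 : ℝ) / 9) ^ (m - s) ≤ 1 := pow_le_one₀ (by norm_num) (by norm_num)
    linarith
  calc 3 * ‖qq (s + 1) + e * qq (s + 1) ^ e‖ * ‖VV L (s + 1) 1‖ * ‖VV L (s + 1) e‖ *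
        ∏ t ∈ Finset.Ioc 0 s, ‖AA t (e + 1)‖
      ≤ 3 * (1 + e * (1 / 3 * (1 / 9) ^ (m + 1 - (s + 1)))) * (1 / 4 ^ (s + 1)) * (0.001 / 4 ^ m) *
        (8 / 7) := by
          have p4 : (0 : ℝ) ≤ ∏ t ∈ Finset.Ioc 0 s, ‖AA t (e + 1)‖ :=
            Finset.prod_nonneg fun _ _ => norm_nonneg _
          gcongr
    _ ≤ _ := by
        obtain ⟨k, rfl⟩ : ∃ k, m = s + 1 + k := ⟨m - (s + 1), by omega⟩
        have e1 : s + 1 + k + 1 - (s + 1) = k + 1 := by omega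
        have e2 : s + 1 + k - (s + 1) = k := by omega
        rw [e1, e2]
        have h5 : (e : ℝ) * (1 / 3 * (1 / 9) ^ (k + 1)) / 4 ^ (s + 1) ≤ 1.001 / 27 * (4 / 9) ^ k := by
          rw [div_le_iff₀ (by positivity)]
          have e3 : (1.001 : ℝ) / 27 * (4 / 9) ^ k * 4 ^ (s + 1) =
              (1.001 * 4 ^ (s + 1 + k)) * (1 / 3 * (1 / 9) ^ (k + 1)) := by
            rw [pow_add 4 (s + 1) k, pow_succ (1 / 9 : ℝ) k, div_pow 4 9 k, div_pow 1 9 k, one_pow]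
            ring
          rw [e3]
          gcongr
          norm_num at hhi ⊢
          linarith
        calc 3 * (1 + (e : ℝ) * (1 / 3 * (1 / 9) ^ (k + 1))) * (1 / 4 ^ (s + 1)) *
              (0.001 / 4 ^ (s + 1 + k)) * (8 / 7)
            = (0.024 / 7) / 4 ^ (s + 1 + k) *
              (1 / 4 ^ (s + 1) + (e : ℝ) * (1 / 3 * (1 / 9) ^ (k + 1)) / 4 ^ (s + 1)) := by ring
          _ ≤ 0.0035 / 4 ^ (s + 1 + k) * (1 / 4 ^ (s + 1) + 1.001 / 27 * (4 / 9) ^ k) := by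
              gcongr
              norm_num

theorem Near.large {m L e : ℕ} (h : Near m L e) (s : ℕ) (hs : m + 1 ≤ s) (hsL : s + 1 ≤ L) :
    ‖T L e (s + 1)‖ ≤ 0.0004 * (1 + e) / 4 ^ m * (1 / 4 ^ (s + 1)) := by
  have hX : (0 : ℝ) < 4 ^ m := by positivity
  have he0 : (0 : ℝ) ≤ e := Nat.cast_nonneg e
  rw [norm_T]
  have a1 : ‖qq (s + 1) + e * qq (s + 1) ^ e‖ ≤ 1 + e := by
    refine (norm_main _ _).trans ?_
    have := mul_le_mul_of_nonneg_left (norm_qq_le (s + 1) e) he0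
    linarith
  have a2 := VV_le L (s + 1) 1 hsL
  have a3 := VV_le L (s + 1) e hsL
  have a4 : ∏ t ∈ Finset.Ioc 0 s, ‖AA t (e + 1)‖ ≤ 0.002 * (4 ^ s / 4 ^ (m + 1)) := by
    rw [← Finset.prod_Ioc_consecutive _ (Nat.zero_le m)
      (show m ≤ s by omega), ← Finset.prod_Ioc_consecutive _ (show m ≤ m + 1 by omega)
      hs, Finset.prod_Ioc_succ_top le_rfl, Finset.Ioc_self, Finset.prod_empty, one_mul]
    have h1 := prod_up m (e + 1) h.e999' 0 m (by omega) le_rfl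
    rw [Nat.sub_self, pow_zero] at h1
    have h2 := h.res2
    have h3 := prod_le4 (m + 1) s (e + 1) hs
    have h4 : (∏ t ∈ Finset.Ioc 0 m, ‖AA t (e + 1)‖) *
        (‖AA (m + 1) (e + 1)‖ * ∏ t ∈ Finset.Ioc (m + 1) s, ‖AA t (e + 1)‖) ≤
        (1 + 1 / 7) * (7 * (1 / 4000) * (4 ^ s / 4 ^ (m + 1))) :=
      mul_le_mul h1 (mul_le_mul h2 h3 (Finset.prod_nonneg fun _ _ => norm_nonneg _) (by norm_num))
        (mul_nonneg (norm_nonneg _) (Finset.prod_nonneg fun _ _ => norm_nonneg _)) (by norm_num)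
    refine h4.trans (le_of_eq ?_)
    ring
  calc 3 * ‖qq (s + 1) + e * qq (s + 1) ^ e‖ * ‖VV L (s + 1) 1‖ * ‖VV L (s + 1) e‖ *
        ∏ t ∈ Finset.Ioc 0 s, ‖AA t (e + 1)‖
      ≤ 3 * (1 + e) * (1 / 4 ^ (s + 1)) * (1 / 4 ^ (s + 1)) * (0.002 * (4 ^ s / 4 ^ (m + 1))) := by
          have p4 : (0 : ℝ) ≤ ∏ t ∈ Finset.Ioc 0 s, ‖AA t (e + 1)‖ :=
            Finset.prod_nonneg fun _ _ => norm_nonneg _
          gcongr
    _ = (0.006 / 16) * (1 + e) / 4 ^ m * (1 / 4 ^ (s + 1)) := by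
        rw [pow_succ, pow_succ]
        field_simp
        ring
    _ ≤ _ := by
        gcongr
        norm_num

theorem Near.final {m L e : ℕ} (h : Near m L e) : 1 / 1000 / (e : ℝ) ≤ ‖rr L e‖ := by
  have hX : (0 : ℝ) < 4 ^ m := by positivity
  have hb := h.big
  have hlo := h.e_lo
  have hhi := h.e_hi
  have he0 : (0 : ℝ) < e := by linarith
  have h1 : rr L e = ((∑ s ∈ Finset.Ioc 0 m, T L e s) + T L e (m + 1)) +
      ∑ s ∈ Finset.Ioc (m + 1) L, T L e s := by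
    have e1 : rr L e = ∑ s ∈ Finset.Ioc 0 L, T L e s := by
      unfold rr
      refine Finset.sum_congr ?_ fun s _ => rfl
      ext s
      simp only [Finset.mem_Icc, Finset.mem_Ioc]
      omega
    rw [e1, ← Finset.sum_Ioc_consecutive _ (Nat.zero_le (m + 1)) h.le,
      Finset.sum_Ioc_succ_top (Nat.zero_le m)]
  have h2 : ‖∑ s ∈ Finset.Ioc 0 m, T L e s‖ ≤ 0.0035 / 4 ^ m * 0.41 := by
    calc ‖∑ s ∈ Finset.Ioc 0 m, T L e s‖ ≤ ∑ s ∈ Finset.Ioc 0 m, ‖T L e s‖ := norm_sum_le _ _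
      _ ≤ ∑ s ∈ Finset.Ioc 0 m, 0.0035 / 4 ^ m * (1 / 4 ^ s + 1.001 / 27 * (4 / 9) ^ (m - s)) := by
          refine Finset.sum_le_sum fun s hs => ?_
          rw [Finset.mem_Ioc] at hs
          obtain ⟨k, rfl⟩ : ∃ k, s = k + 1 := ⟨s - 1, by omega⟩
          exact h.small k (by omega)
      _ = 0.0035 / 4 ^ m * ((∑ s ∈ Finset.Ioc 0 m, (1 : ℝ) / 4 ^ s) +
            1.001 / 27 * ∑ s ∈ Finset.Ioc 0 m, ((4 : ℝ) / 9) ^ (m - s)) := by
          rw [← Finset.mul_sum, Finset.sum_add_distrib, Finset.mul_sum]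
      _ ≤ 0.0035 / 4 ^ m * 0.41 := by
          have a1 := sum_Ioc_pow 0 m (Nat.zero_le m)
          have a2 := sum_pow49 m
          gcongr
          norm_num at a1 a2 ⊢
          linarith
  have h3 : ‖∑ s ∈ Finset.Ioc (m + 1) L, T L e s‖ ≤ 0.0004 * (1 + e) / 4 ^ m * (1 / 12 / 4 ^ m) := by
    calc ‖∑ s ∈ Finset.Ioc (m + 1) L, T L e s‖ ≤ ∑ s ∈ Finset.Ioc (m + 1) L, ‖T L e s‖ :=
          norm_sum_le _ _
      _ ≤ ∑ s ∈ Finset.Ioc (m + 1) L, 0.0004 * (1 + (e : ℝ)) / 4 ^ m * (1 / 4 ^ s) := by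
          refine Finset.sum_le_sum fun s hs => ?_
          rw [Finset.mem_Ioc] at hs
          obtain ⟨k, rfl⟩ : ∃ k, s = k + 1 := ⟨s - 1, by omega⟩
          exact h.large k (by omega) (by omega)
      _ = 0.0004 * (1 + e) / 4 ^ m * ∑ s ∈ Finset.Ioc (m + 1) L, (1 : ℝ) / 4 ^ s := by
          rw [Finset.mul_sum]
      _ ≤ 0.0004 * (1 + e) / 4 ^ m * (1 / 12 / 4 ^ m) := by
          have a1 := sum_Ioc_pow (m + 1) L h.le
          have e1 : (1 : ℝ) / 3 / 4 ^ (m + 1) = 1 / 12 / 4 ^ m := by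
            rw [pow_succ]
            field_simp
            ring
          rw [e1] at a1
          gcongr
  have h4 := h.main
  have h5 : ‖T L e (m + 1)‖ ≤ ‖rr L e‖ + ‖∑ s ∈ Finset.Ioc 0 m, T L e s‖ +
      ‖∑ s ∈ Finset.Ioc (m + 1) L, T L e s‖ := by
    have e1 : T L e (m + 1) = rr L e - (∑ s ∈ Finset.Ioc 0 m, T L e s) -
        ∑ s ∈ Finset.Ioc (m + 1) L, T L e s := by rw [h1]; ring
    calc ‖T L e (m + 1)‖ = ‖rr L e - (∑ s ∈ Finset.Ioc 0 m, T L e s) -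
        ∑ s ∈ Finset.Ioc (m + 1) L, T L e s‖ := by rw [← e1]
      _ ≤ ‖rr L e - (∑ s ∈ Finset.Ioc 0 m, T L e s)‖ + ‖∑ s ∈ Finset.Ioc (m + 1) L, T L e s‖ :=
          norm_sub_le _ _
      _ ≤ _ := by
          gcongr
          exact norm_sub_le _ _
  have h6 : 0.0088 * (e : ℝ) / (4 ^ m) ^ 2 - 0.0035 / 4 ^ m * 0.41 -
      0.0004 * (1 + e) / 4 ^ m * (1 / 12 / 4 ^ m) ≤ ‖rr L e‖ := by linarith
  refine le_trans ?_ h6
  generalize (4 : ℝ) ^ m = X at *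
  generalize (e : ℝ) = y at *
  rw [div_le_iff₀ he0]
  have h7 : (0.0088 * y / X ^ 2 - 0.0035 / X * 0.41 - 0.0004 * (1 + y) / X * (1 / 12 / X)) * y =
      (0.0088 * y ^ 2 - 0.0035 * 0.41 * (X * y) - 0.0004 / 12 * (1 + y) * y) / X ^ 2 := by
    field_simp
  rw [h7, le_div_iff₀ (by positivity)]
  norm_num at hlo hhi ⊢
  nlinarith

end RESN

theorem t_RES : S_RES := by
  refine ⟨1 / 1000, by norm_num, ?_⟩
  rintro L e he heven ⟨t, ht1, htL, ht⟩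
  obtain ⟨m, rfl⟩ : ∃ m, t = m + 1 := ⟨t - 1, by omega⟩
  have hX : (0 : ℝ) < 4 ^ m := by positivity
  have e1 : 4 * ((e : ℝ) + 1) / 4 ^ (m + 1) = ((e : ℝ) + 1) / 4 ^ m := by
    rw [pow_succ]
    field_simp
  rw [e1, abs_lt] at ht
  obtain ⟨h1, h2⟩ := ht
  have hlo : (1 - 1 / 4000) * (4 : ℝ) ^ m < (e : ℝ) + 1 := by
    rw [← lt_div_iff₀ hX]
    linarith
  have hhi : (e : ℝ) + 1 < (1 + 1 / 4000) * (4 : ℝ) ^ m := by
    rw [← div_lt_iff₀ hX]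
    linarith
  have hm : m ≠ 0 := by
    rintro rfl
    rw [pow_zero] at hhi
    have : (2 : ℝ) ≤ e := by exact_mod_cast he
    linarith
  have hbig : (4000 : ℝ) < 4 ^ m := by
    have hne : e + 1 ≠ 4 ^ m := by
      intro h
      have h3 : Even (4 ^ m) := (show Even 4 by decide).pow_of_ne_zero hm
      rw [← h] at h3
      exact (Nat.even_add_one.1 h3) heven
    rcases Nat.lt_or_gt_of_ne hne with h3 | h3
    · have h4 : ((e + 1 : ℕ) : ℝ) + 1 ≤ ((4 ^ m : ℕ) : ℝ) := by exact_mod_cast h3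
      push_cast at h4
      linarith
    · have h4 : ((4 ^ m : ℕ) : ℝ) + 1 ≤ ((e + 1 : ℕ) : ℝ) := by exact_mod_cast h3
      push_cast at h4
      linarith
  exact RESN.Near.final (m := m) ⟨htL, hbig, hlo.le, hhi.le⟩

end Pool.Agent.H288.TF
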