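import Pool.Agent.H288.TF.Stm

/-!
# SUB: diagonal subsequence of coefficient sequences
-/

set_option autoImplicit false

open MeasureTheory Set Filter Topology

namespace Pool.Agent.H288.TF.SUBN

/-- Sequential compactness of a countable product of closed discs. -/
theorem diag (B : ℝ) (a : ℕ → ℕ → ℂ) (ha : ∀ L j, 1 ≤ j → ‖a L j‖ ≤ B ^ j) :
    ∃ (φ : ℕ → ℕ) (y : ℕ → ℂ), StrictMono φ ∧ (∀ j, ‖y j‖ ≤ B ^ (j + 1)) ∧
      ∀ j, Tendsto (fun m => a (φ m) (j + 1)) atTop (𝓝 (y j)) := by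
  have hK : IsCompact (Set.pi Set.univ (fun j : ℕ => Metric.closedBall (0 : ℂ) (B ^ (j + 1)))) :=
    isCompact_univ_pi (fun j => isCompact_closedBall (0 : ℂ) (B ^ (j + 1)))
  have hx : ∀ L : ℕ, (fun j : ℕ => a L (j + 1)) ∈
      Set.pi Set.univ (fun j : ℕ => Metric.closedBall (0 : ℂ) (B ^ (j + 1))) := by
    intro L j _
    rw [mem_closedBall_zero_iff]
    exact ha L (j + 1) (Nat.le_add_left 1 j)
  obtain ⟨y, hy, φ, hφ, hlim⟩ := hK.tendsto_subseq hx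
  refine ⟨φ, y, hφ, ?_, ?_⟩
  · intro j
    have h := hy j (Set.mem_univ j)
    rwa [mem_closedBall_zero_iff] at h
  · intro j
    exact (tendsto_pi_nhds.1 hlim) j

/-- The termwise bound. -/
theorem term_bound (B : ℝ) (hB : 1 ≤ B) (h : ℕ → ℂ) (j : ℕ) (hh : ‖h (j + 1)‖ ≤ B ^ (j + 1))
    (w : ℂ) (hw : B * ‖w‖ ≤ 1 / 8) :
    ‖h (j + 1) * w ^ (j + 1)‖ ≤ (1 / 8 : ℝ) ^ (j + 1) := by
  rw [norm_mul, norm_pow]
  calc ‖h (j + 1)‖ * ‖w‖ ^ (j + 1) ≤ B ^ (j + 1) * ‖w‖ ^ (j + 1) :=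
        mul_le_mul_of_nonneg_right hh (pow_nonneg (norm_nonneg w) _)
    _ = (B * ‖w‖) ^ (j + 1) := (mul_pow B ‖w‖ (j + 1)).symm
    _ ≤ (1 / 8 : ℝ) ^ (j + 1) :=
        pow_le_pow_left₀ (mul_nonneg (le_trans zero_le_one hB) (norm_nonneg w)) hw (j + 1)

end Pool.Agent.H288.TF.SUBN

namespace Pool.Agent.H288.TF

theorem t_SUB : S_SUB := by
  intro B a hB ha
  obtain ⟨φ, y, hφ, hy, hlim⟩ := SUBN.diag B a ha
  refine ⟨φ, fun j => y (j - 1), hφ, ?_, ?_, ?_⟩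
  · intro j hj
    have h := hy (j - 1)
    rwa [Nat.sub_add_cancel hj] at h
  · intro j hj
    have h := hlim (j - 1)
    rwa [Nat.sub_add_cancel hj] at h
  · intro w hw
    unfold Hf
    refine tendsto_tsum_of_dominated_convergence (bound := fun j : ℕ => (1 / 8 : ℝ) ^ (j + 1)) ?_ ?_ ?_
    · have h := (summable_geometric_of_lt_one (r := (1 / 8 : ℝ)) (by norm_num) (by norm_num))
      exact (summable_nat_add_iff 1).2 h
    · intro j
      have h := (hlim j).mul_const (w ^ (j + 1))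
      simpa only [Nat.add_sub_cancel] using h
    · refine Eventually.of_forall (fun m j => ?_)
      exact SUBN.term_bound B hB (a (φ m)) j (ha (φ m) (j + 1) (Nat.le_add_left 1 j)) w hw

end Pool.Agent.H288.TF
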