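import Pool.Agent.H288.TF.Stm

set_option autoImplicit false

namespace Pool.Agent.H288.TF.SUM2N

open Real

/-- the comparison function -/
noncomputable def Ph (y : ℝ) : ℝ := if y ≤ 1 / 2 then 8 / 3 * y else 2 - 1 / (3 * y)

lemma Ph_nonneg {y : ℝ} (hy : 0 < y) : 0 ≤ Ph y := by
  unfold Ph
  split_ifs with h
  · positivity
  · push Not at h
    have : 1 / (3 * y) ≤ 1 := by
      rw [div_le_one (by linarith)]
      linarith
    linarith

lemma Ph_le {y : ℝ} (hy : 0 < y) : Ph y ≤ 2 := by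
  unfold Ph
  split_ifs with h
  · linarith
  · have : 0 < 1 / (3 * y) := by positivity
    linarith

lemma log3 : (1 : ℝ) < Real.log 3 := by
  rw [Real.lt_log_iff_exp_lt (by norm_num)]
  exact Real.exp_one_lt_three

lemma nq (s a : ℕ) : ‖qq s‖ ^ a = Real.exp (-(4 * Real.log 3) * ((a : ℝ) / 4 ^ s)) := by
  unfold qq
  rw [Complex.norm_exp]
  rw [← Real.exp_nat_mul]
  congr 1
  have : (-(th * (4 / 4 ^ s)) : ℂ).re = -(Real.log 3 * (4 / 4 ^ s)) := by
    have h4 : ((4 : ℂ) / 4 ^ s) = (((4 : ℝ) / 4 ^ s : ℝ) : ℂ) := by push_cast; rfl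
    rw [h4, Complex.neg_re, Complex.re_mul_ofReal]
    have hth : th.re = Real.log 3 := by
      unfold th
      rw [Complex.add_re, Complex.ofReal_re, Complex.re_ofReal_mul, Complex.I_re, mul_zero,
        add_zero]
    rw [hth]
  rw [this]
  ring

lemma key (p : ℕ) (hp : 1 ≤ p) (y : ℝ) (hy : 0 < y) :
    (2 * y) ^ p * Real.exp (-(4 * Real.log 3) * y) / (p.factorial : ℝ) ≤ Ph y - Ph (y / 4) := by
  have hf : (1 : ℝ) ≤ (p.factorial : ℝ) := by exact_mod_cast Nat.one_le_iff_ne_zero.mpr (Nat.factorial_ne_zero p)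
  have hl := log3
  by_cases h : y ≤ 1 / 2
  · have h1 : Ph y - Ph (y / 4) = 2 * y := by
      unfold Ph
      rw [if_pos h, if_pos (by linarith)]
      ring
    rw [h1, div_le_iff₀ (by linarith)]
    have h2 : (2 * y) ^ p ≤ 2 * y := by
      calc (2 * y) ^ p ≤ (2 * y) ^ 1 := pow_le_pow_of_le_one (by linarith) (by linarith) hp
        _ = 2 * y := pow_one _
    have h3 : Real.exp (-(4 * Real.log 3) * y) ≤ 1 := by
      rw [Real.exp_le_one_iff]
      nlinarith
    calc (2 * y) ^ p * Real.exp (-(4 * Real.log 3) * y) ≤ (2 * y) * 1 :=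
          mul_le_mul h2 h3 (Real.exp_pos _).le (by linarith)
      _ ≤ 2 * y * (p.factorial : ℝ) := by
          apply mul_le_mul_of_nonneg_left hf (by linarith)
  · push Not at h
    have h1 : (2 * y) ^ p / (p.factorial : ℝ) ≤ Real.exp (2 * y) :=
      Real.pow_div_factorial_le_exp _ (by linarith) p
    have h2 : (2 * y) ^ p * Real.exp (-(4 * Real.log 3) * y) / (p.factorial : ℝ)
        ≤ Real.exp (-(2 * y)) := by
      calc (2 * y) ^ p * Real.exp (-(4 * Real.log 3) * y) / (p.factorial : ℝ)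
          = (2 * y) ^ p / (p.factorial : ℝ) * Real.exp (-(4 * Real.log 3) * y) := by ring
        _ ≤ Real.exp (2 * y) * Real.exp (-(4 * Real.log 3) * y) :=
            mul_le_mul_of_nonneg_right h1 (Real.exp_pos _).le
        _ = Real.exp (2 * y + -(4 * Real.log 3) * y) := by rw [Real.exp_add]
        _ ≤ Real.exp (-(2 * y)) := by
            apply Real.exp_le_exp.mpr
            nlinarith
    refine h2.trans ?_
    have h3 : Real.exp (-(2 * y)) ≤ 1 / (1 + 2 * y) := by
      rw [Real.exp_neg, ← one_div]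
      apply one_div_le_one_div_of_le (by linarith)
      have := Real.add_one_le_exp (2 * y)
      linarith
    refine h3.trans ?_
    by_cases h4 : y ≤ 2
    · have h5 : Ph y - Ph (y / 4) = 2 - 1 / (3 * y) - 2 / 3 * y := by
        unfold Ph
        rw [if_neg (by push Not; exact h), if_pos (by linarith)]
        ring
      rw [h5]
      have h6 : 1 / (1 + 2 * y) ≤ 1 / 2 := one_div_le_one_div_of_le (by norm_num) (by linarith)
      have h7 : 1 / (3 * y) + 2 / 3 * y ≤ 3 / 2 := by
        have : 1 / (3 * y) + 2 / 3 * y = (2 + 4 * y ^ 2) / (6 * y) := by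
          field_simp
          ring
        rw [this, div_le_iff₀ (by linarith)]
        nlinarith
      linarith
    · push Not at h4
      have h5 : Ph y - Ph (y / 4) = 1 / y := by
        unfold Ph
        rw [if_neg (by push Not; exact h), if_neg (by push Not; linarith)]
        field_simp
        ring
      rw [h5]
      exact one_div_le_one_div_of_le (by linarith) (by linarith)

lemma sum_le (a p : ℕ) (ha : 1 ≤ a) (hp : 1 ≤ p) (L : ℕ) :
    ∑ s ∈ Finset.Icc 1 L, (2 * (a : ℝ) / 4 ^ s) ^ p * ‖qq s‖ ^ a / (p.factorial : ℝ)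
      ≤ Ph ((a : ℝ) / 4) - Ph ((a : ℝ) / 4 ^ (L + 1)) := by
  have ha' : (0 : ℝ) < a := by exact_mod_cast ha
  induction L with
  | zero => simp
  | succ L ih =>
    rw [Finset.sum_Icc_succ_top (by omega)]
    have h := key p hp ((a : ℝ) / 4 ^ (L + 1)) (by positivity)
    have h1 : (a : ℝ) / 4 ^ (L + 1) / 4 = (a : ℝ) / 4 ^ (L + 1 + 1) := by
      rw [div_div, ← pow_succ]
    have h2 : 2 * ((a : ℝ) / 4 ^ (L + 1)) = 2 * (a : ℝ) / 4 ^ (L + 1) := by ring
    rw [h1, h2, ← nq] at h
    linarith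

end Pool.Agent.H288.TF.SUM2N

namespace Pool.Agent.H288.TF

theorem t_SUM2 : S_SUM2 := by
  intro a p L ha hp
  have ha' : (0 : ℝ) < a := by exact_mod_cast ha
  have h := SUM2N.sum_le a p ha hp L
  have h1 := SUM2N.Ph_nonneg (y := (a : ℝ) / 4 ^ (L + 1)) (by positivity)
  have h2 := SUM2N.Ph_le (y := (a : ℝ) / 4) (by positivity)
  linarith

end Pool.Agent.H288.TF
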