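import Pool.Agent.H288.TF.Stm

set_option autoImplicit false

/-! Project TF (helper288), part TREE (helper176): the convolution along the explicit finite tree. -/

open MeasureTheory Set Filter Topology

namespace Pool.Agent.H288.TF

namespace TREEN

theorem branch_zero : branch TT 0 = {[]} := by
  ext s
  unfold branch TT
  rcases s with _ | ⟨a, _ | ⟨b, t⟩⟩ <;> simp

theorem branch_one : branch TT 1 = {[], [0]} := by
  ext s
  unfold branch TT
  rcases s with _ | ⟨a, _ | ⟨b, t⟩⟩ <;> simp

theorem branch_two : branch TT 2 = {[], [0]} := by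
  ext s
  unfold branch TT
  rcases s with _ | ⟨a, _ | ⟨b, t⟩⟩ <;> simp

theorem branch_three : branch TT 3 = {[], [0]} := by
  ext s
  unfold branch TT
  rcases s with _ | ⟨a, _ | ⟨b, t⟩⟩ <;> simp

theorem branch_small : branch ({[], [0]} : Set (List (Fin 4))) 0 = {[]} := by
  ext s
  unfold branch
  rcases s with _ | ⟨a, t⟩ <;> simp

theorem Kd_nil (d : ℕ) (K : ℂ → ℂ) (z : ℂ) : Kd d ({[]} : Set (List (Fin 4))) K z = 0 := by
  cases d with
  | zero => rfl
  | succ d =>
    unfold Kd
    refine Finset.sum_eq_zero fun j _ => ?_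
    rw [if_neg (by simp)]

theorem Kd_small (d : ℕ) (K : ℂ → ℂ) (z : ℂ) :
    Kd (d + 1) ({[], [0]} : Set (List (Fin 4))) K z = K z := by
  unfold Kd
  rw [Fin.sum_univ_four, branch_small, Kd_nil, sub_zero, if_pos (by simp), if_neg (by simp),
    if_neg (by simp), if_neg (by simp)]
  ring

theorem main (K : ℂ → ℂ) (z : ℂ) (d : ℕ) : Kd (d + 2) TT K z = K z + 3 * K (z - K z) := by
  have h0 : Kd (d + 2) TT K z =
      ∑ j : Fin 4, K (z - Kd (d + 1) (branch TT j) K z) := by
    have e : d + 2 = (d + 1) + 1 := rfl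
    rw [e]
    conv_lhs => unfold Kd
    refine Finset.sum_congr rfl fun j _ => ?_
    rw [if_pos]
    unfold TT
    fin_cases j <;> simp
  rw [h0, Fin.sum_univ_four, branch_zero, branch_one, branch_two, branch_three, Kd_nil, Kd_small, sub_zero]
  ring

theorem tree : IsTree TT := by
  refine ⟨?_, ?_, ?_⟩
  · unfold TT
    simp
  · intro s hs
    unfold TT at hs
    simp only [Set.mem_insert_iff, Set.mem_singleton_iff] at hs
    rcases hs with rfl | rfl | rfl | rfl | rfl | rfl | rfl | rfl <;> simp
  · intro j s hs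
    unfold TT at hs ⊢
    rcases s with _ | ⟨a, _ | ⟨b, t⟩⟩
    · simp
    · simp at hs ⊢
      tauto
    · simp at hs

theorem nr : nroot TT = 4 := by
  unfold nroot
  have : {j : Fin 4 | [j] ∈ TT} = Set.univ := by
    ext j
    unfold TT
    fin_cases j <;> simp
  rw [this, Set.ncard_univ]
  simp

end TREEN

/-- Part TREE. -/
theorem t_TREE : S_TREE := ⟨TREEN.tree, TREEN.nr, TREEN.main⟩

end Pool.Agent.H288.TF
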