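import Pool.Agent.H288.TF.Stm

/-!
# Tree-free convolution powers: weak convergence from pointwise convergence of `K`
-/

set_option autoImplicit false

open MeasureTheory Set Filter Topology

namespace Pool.Agent.H288.TF.WEAKN

lemma cont_K {K : ℂ → ℂ} {R c : ℝ} (h : Nice K R c) : Continuous (fun x : ℝ => K (x : ℂ)) := by
  have h1 : ContinuousOn K {z | -1 < z.im} := h.diff.continuousOn
  have h2 : ContinuousOn (fun x : ℝ => K (x : ℂ)) Set.univ := by
    refine h1.comp Complex.continuous_ofReal.continuousOn ?_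
    intro x _
    simp
  exact continuousOn_univ.mp h2

lemma im_ge {K : ℂ → ℂ} {R c : ℝ} (h : Nice K R c) (x : ℝ) : c ≤ ((x : ℂ) - K x).im := by
  have h1 := h.im_le (x : ℂ) (by simp)
  simp only [Complex.sub_im, Complex.ofReal_im]
  linarith

lemma im_le_R {K : ℂ → ℂ} {R c : ℝ} (h : Nice K R c) (x : ℝ) : ((x : ℂ) - K x).im ≤ R := by
  have h1 := h.bdd (x : ℂ) (by simp)
  have h2 := Complex.abs_im_le_norm (K (x : ℂ))
  have h3 := neg_abs_le (K (x : ℂ)).im
  simp only [Complex.sub_im, Complex.ofReal_im]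
  linarith

lemma norm_ge {K : ℂ → ℂ} {R c : ℝ} (h : Nice K R c) (x : ℝ) : c ≤ ‖(x : ℂ) - K x‖ := by
  have h1 := im_ge h x
  have h2 := Complex.abs_im_le_norm ((x : ℂ) - K x)
  have h3 := le_abs_self ((x : ℂ) - K x).im
  linarith

lemma abs_le {K : ℂ → ℂ} {R c : ℝ} (h : Nice K R c) (x : ℝ) : |x| ≤ ‖(x : ℂ) - K x‖ + R := by
  have h1 := h.bdd (x : ℂ) (by simp)
  have h2 : ‖(x : ℂ)‖ ≤ ‖(x : ℂ) - K x‖ + ‖K (x : ℂ)‖ := by
    have h3 := norm_add_le ((x : ℂ) - K x) (K x)
    rwa [sub_add_cancel] at h3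
  have h4 : ‖(x : ℂ)‖ = |x| := by simp
  rw [h4] at h2
  linarith

lemma R_pos {K : ℂ → ℂ} {R c : ℝ} (h : Nice K R c) : 0 < R := by
  have h1 := im_ge h 0
  have h2 := im_le_R h 0
  have h3 := h.pos
  linarith

lemma normSq_pos' {K : ℂ → ℂ} {R c : ℝ} (h : Nice K R c) (x : ℝ) :
    0 < Complex.normSq ((x : ℂ) - K x) := by
  rw [Complex.normSq_eq_norm_sq]
  have h1 := norm_ge h x
  have h2 := h.pos
  exact pow_pos (lt_of_lt_of_le h2 h1) 2

lemma dens_nonneg {K : ℂ → ℂ} {R c : ℝ} (h : Nice K R c) (x : ℝ) : 0 ≤ dens K x := by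
  unfold dens
  have h1 := im_ge h x
  have h2 := h.pos
  have h3 := normSq_pos' h x
  have h4 := Real.pi_pos
  apply div_nonneg (by linarith) (by positivity)

lemma dens_cont {K : ℂ → ℂ} {R c : ℝ} (h : Nice K R c) : Continuous (dens K) := by
  have h1 : Continuous (fun x : ℝ => (x : ℂ) - K x) := Complex.continuous_ofReal.sub (cont_K h)
  unfold dens
  refine Continuous.div (Complex.continuous_im.comp h1)
    (continuous_const.mul (Complex.continuous_normSq.comp h1)) ?_
  intro x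
  have h3 := normSq_pos' h x
  have h4 := Real.pi_pos
  positivity

/-- The constant of the bound. -/
noncomputable def CC (R c : ℝ) : ℝ := R * ((1 + R / c) ^ 2 + (1 / c) ^ 2) / Real.pi

lemma dens_le {K : ℂ → ℂ} {R c : ℝ} (h : Nice K R c) (x : ℝ) :
    dens K x ≤ CC R c * (1 + x ^ 2)⁻¹ := by
  have hc := h.pos
  have hR := R_pos h
  have hpi := Real.pi_pos
  have h1 := im_le_R h x
  have h2 := norm_ge h x
  have h3 := abs_le h x
  set a := ‖(x : ℂ) - K x‖ with ha
  have ha0 : 0 < a := lt_of_lt_of_le hc h2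
  have h4 : |x| ≤ a * (1 + R / c) := by
    have h5 : R ≤ a * (R / c) := by
      have h6 : R = c * (R / c) := by field_simp
      have h7 : 0 < R / c := by positivity
      calc R = c * (R / c) := h6
        _ ≤ a * (R / c) := mul_le_mul_of_nonneg_right h2 h7.le
    linarith
  have h5 : x ^ 2 ≤ a ^ 2 * (1 + R / c) ^ 2 := by
    rw [← sq_abs x, ← mul_pow]
    exact pow_le_pow_left₀ (abs_nonneg x) h4 2
  have h6 : 1 ≤ a ^ 2 * (1 / c) ^ 2 := by
    rw [← mul_pow]
    have h7 : 1 ≤ a * (1 / c) := by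
      rw [mul_one_div, le_div_iff₀ hc]
      linarith
    exact one_le_pow₀ h7
  have h7 : 1 + x ^ 2 ≤ a ^ 2 * ((1 + R / c) ^ 2 + (1 / c) ^ 2) := by
    rw [mul_add]
    linarith
  have h8 : 0 < 1 + x ^ 2 := by positivity
  unfold dens CC
  rw [Complex.normSq_eq_norm_sq, ← ha, ← div_eq_mul_inv, div_div,
    div_le_div_iff₀ (by positivity) (by positivity)]
  calc ((x : ℂ) - K x).im * (Real.pi * (1 + x ^ 2))
      ≤ R * (Real.pi * (a ^ 2 * ((1 + R / c) ^ 2 + (1 / c) ^ 2))) := by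
        apply mul_le_mul h1 _ (by positivity) hR.le
        exact mul_le_mul_of_nonneg_left h7 hpi.le
    _ = R * ((1 + R / c) ^ 2 + (1 / c) ^ 2) * (Real.pi * a ^ 2) := by ring

lemma dens_tendsto {Kn : ℕ → ℂ → ℂ} {K : ℂ → ℂ} {R c : ℝ} (hK : Nice K R c) (x : ℝ)
    (hx : Tendsto (fun n => Kn n (x : ℂ)) atTop (𝓝 (K x))) :
    Tendsto (fun n => dens (Kn n) x) atTop (𝓝 (dens K x)) := by
  have h1 : Tendsto (fun n => (x : ℂ) - Kn n x) atTop (𝓝 ((x : ℂ) - K x)) :=
    tendsto_const_nhds.sub hx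
  unfold dens
  refine Tendsto.div ((Complex.continuous_im.tendsto _).comp h1)
    (tendsto_const_nhds.mul ((Complex.continuous_normSq.tendsto _).comp h1)) ?_
  have h3 := normSq_pos' hK x
  have h4 := Real.pi_pos
  positivity

lemma integral_mu {K : ℂ → ℂ} {R c : ℝ} (h : Nice K R c) (f : ℝ → ℝ) :
    ∫ x, f x ∂(mu K) = ∫ x, dens K x * f x := by
  unfold mu
  rw [integral_withDensity_eq_integral_toReal_smul
    ((dens_cont h).measurable.ennreal_ofReal) (by
      filter_upwards with x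
      exact ENNReal.ofReal_lt_top)]
  apply integral_congr_ae
  filter_upwards with x
  rw [ENNReal.toReal_ofReal (dens_nonneg h x), smul_eq_mul]

end Pool.Agent.H288.TF.WEAKN

namespace Pool.Agent.H288.TF

open WEAKN in
theorem t_WEAK : S_WEAK := by
  intro Kn K R c hKn hK hlim ν ν₀ hν hν₀
  rw [ProbabilityMeasure.tendsto_iff_forall_integral_tendsto]
  intro f
  have e1 : ∀ n, ∫ x, f x ∂(ν n : Measure ℝ) = ∫ x, dens (Kn n) x * f x := by
    intro n
    rw [hν n]
    exact integral_mu (hKn n) f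
  have e2 : ∫ x, f x ∂(ν₀ : Measure ℝ) = ∫ x, dens K x * f x := by
    rw [hν₀]
    exact integral_mu hK f
  simp only [e1, e2]
  refine tendsto_integral_of_dominated_convergence
    (fun x => CC R c * ‖f‖ * (1 + x ^ 2)⁻¹) ?_ ?_ ?_ ?_
  · intro n
    exact ((dens_cont (hKn n)).mul f.continuous).aestronglyMeasurable
  · exact (integrable_inv_one_add_sq).const_mul _
  · intro n
    filter_upwards with x
    rw [norm_mul, Real.norm_of_nonneg (dens_nonneg (hKn n) x)]
    calc dens (Kn n) x * ‖f x‖ ≤ (CC R c * (1 + x ^ 2)⁻¹) * ‖f‖ := by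
          apply mul_le_mul (dens_le (hKn n) x) (f.norm_coe_le_norm x) (norm_nonneg _)
          exact le_trans (dens_nonneg (hKn n) x) (dens_le (hKn n) x)
      _ = CC R c * ‖f‖ * (1 + x ^ 2)⁻¹ := by ring
  · filter_upwards with x
    exact (dens_tendsto hK x (hlim x)).mul tendsto_const_nhds

end Pool.Agent.H288.TF
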