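import Pool.Agent.H288.TF.Stm
set_option autoImplicit false

/-!
WP: upper bound of products of `1 + 3 exp (-θ x)`.
-/

namespace Pool.Agent.H288.TF

namespace WPN

/-- The modulus `3 ^ (-x)`, `x = 4 j / 4 ^ t`. -/
noncomputable def uu (j t : ℕ) : ℝ := Real.exp (-(Real.log 3 * (4 * (j : ℝ) / 4 ^ t)))

theorem norm_qq (t : ℕ) : ‖qq t‖ = Real.exp (-(Real.log 3 * (4 / 4 ^ t))) := by
  unfold qq
  rw [Complex.norm_exp]
  congr 1
  have e : ((4 : ℂ) / 4 ^ t) = (((4 : ℝ) / 4 ^ t : ℝ) : ℂ) := by push_cast; rfl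
  rw [e, Complex.neg_re, Complex.re_mul_ofReal]
  have e2 : th.re = Real.log 3 := by
    unfold th
    rw [Complex.add_re, Complex.ofReal_re, Complex.re_ofReal_mul, Complex.I_re, mul_zero, add_zero]
  rw [e2]

theorem norm_AA (t j : ℕ) : ‖AA t j‖ ≤ 1 + 3 * uu j t := by
  unfold AA
  have h1 : ‖(1 : ℂ) + 3 * qq t ^ j‖ ≤ ‖(1 : ℂ)‖ + ‖3 * qq t ^ j‖ := norm_add_le _ _
  have h2 : ‖(3 : ℂ) * qq t ^ j‖ = 3 * uu j t := by
    rw [norm_mul, norm_pow, norm_qq, ← Real.exp_nat_mul]
    unfold uu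
    have e3 : ‖(3 : ℂ)‖ = 3 := by norm_num
    rw [e3]
    congr 2
    ring
  rw [h2, norm_one] at h1
  exact h1

theorem uu_pos (j t : ℕ) : 0 < uu j t := Real.exp_pos _

theorem log3_pos : 0 < Real.log 3 := Real.log_pos (by norm_num)

theorem one_le_log3 : 1 ≤ Real.log 3 := by
  rw [Real.le_log_iff_exp_le (by norm_num)]
  have := Real.exp_one_lt_d9
  linarith

theorem uu_le_one (j t : ℕ) : uu j t ≤ 1 := by
  unfold uu
  rw [Real.exp_le_one_iff]
  have : 0 ≤ Real.log 3 * (4 * (j : ℝ) / 4 ^ t) := mul_nonneg log3_pos.le (by positivity)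
  linarith

theorem uu_succ (j t : ℕ) : uu j t = uu j (t + 1) ^ 4 := by
  unfold uu
  rw [← Real.exp_nat_mul]
  congr 1
  have h4 : (4 : ℝ) ^ t ≠ 0 := by positivity
  push_cast
  rw [pow_succ]
  field_simp

theorem uu_small {j t : ℕ} (h : (4 : ℝ) ^ t ≤ j) : uu j t ≤ 1 / 81 := by
  unfold uu
  have h4 : (0 : ℝ) < 4 ^ t := by positivity
  have h1 : (4 : ℝ) ≤ 4 * (j : ℝ) / 4 ^ t := by
    rw [le_div_iff₀ h4]
    linarith
  have h2 : Real.exp (-(Real.log 3 * (4 * (j : ℝ) / 4 ^ t))) ≤ Real.exp (-(Real.log 3 * 4)) := by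
    apply Real.exp_le_exp.2
    have := mul_le_mul_of_nonneg_left h1 log3_pos.le
    linarith
  have h3 : Real.exp (-(Real.log 3 * 4)) = 1 / 81 := by
    rw [Real.exp_neg]
    have : Real.log 3 * 4 = ((4 : ℕ) : ℝ) * Real.log 3 := by push_cast; ring
    rw [this, Real.exp_nat_mul, Real.exp_log (by norm_num)]
    norm_num
  rw [h3] at h2
  exact h2

/-- The part where `4 ^ s ≤ j`. -/
theorem part1 (j i s : ℕ) (his : i ≤ s) : (4 : ℝ) ^ s ≤ j →
    ∏ t ∈ Finset.Ioc i s, ‖AA t j‖ ≤ 1 + 6 * uu j s := by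
  induction s, his using Nat.le_induction with
  | base =>
    intro _
    have := uu_pos j i
    simp only [Finset.Ioc_self, Finset.prod_empty]
    linarith
  | succ s his ih =>
    intro h
    have h' : (4 : ℝ) ^ s ≤ j := by
      refine le_trans ?_ h
      exact pow_le_pow_right₀ (by norm_num) (Nat.le_succ s)
    have h1 := ih h'
    rw [uu_succ] at h1
    have h2 := norm_AA (s + 1) j
    have h3 := uu_small h
    have h0 := uu_pos j (s + 1)
    rw [← Finset.insert_Ioc_right_eq_Ioc_add_one (by omega),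
      Finset.prod_insert (by simp)]
    set u := uu j (s + 1) with hu
    calc ‖AA (s + 1) j‖ * ∏ t ∈ Finset.Ioc i s, ‖AA t j‖
        ≤ (1 + 3 * u) * (1 + 6 * u ^ 4) := by
          refine mul_le_mul h2 h1 (Finset.prod_nonneg fun _ _ => norm_nonneg _) (by positivity)
      _ ≤ 1 + 6 * u := by
          have h5 : u ^ 3 ≤ (1 / 81) ^ 3 := pow_le_pow_left₀ h0.le h3 3
          have h6 : u ^ 4 ≤ (1 / 81) ^ 4 := pow_le_pow_left₀ h0.le h3 4
          have h7 : 6 * u ^ 3 + 18 * u ^ 4 ≤ 3 := by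
            norm_num at h5 h6 ⊢
            linarith
          nlinarith [mul_le_mul_of_nonneg_left h7 h0.le]

/-- The middle factor. -/
theorem mid {j s : ℕ} (h1 : (4 : ℝ) ^ s ≤ j) (h2 : (j : ℝ) ≤ 4 ^ (s + 1)) :
    ‖AA (s + 1) j‖ ≤ 5 / 4 * (4 ^ (s + 1) / j) := by
  have h4 : (0 : ℝ) < 4 ^ s := by positivity
  have hj : (0 : ℝ) < j := lt_of_lt_of_le h4 h1
  refine (norm_AA (s + 1) j).trans ?_
  set x : ℝ := 4 * (j : ℝ) / 4 ^ (s + 1) with hx
  have hx' : x = (j : ℝ) / 4 ^ s := by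
    rw [hx, pow_succ]
    field_simp
  have hx1 : 1 ≤ x := by
    rw [hx', le_div_iff₀ h4]
    linarith
  have hx4 : x ≤ 4 := by
    rw [hx', div_le_iff₀ h4]
    rw [pow_succ] at h2
    linarith
  have hR : (4 : ℝ) ^ (s + 1) / j = 4 / x := by
    rw [hx', pow_succ]
    field_simp
  rw [hR]
  have hx0 : 0 < x := by linarith
  have hu : uu j (s + 1) = Real.exp (-(Real.log 3 * x)) := rfl
  have h5 : x ≤ Real.exp (Real.log 3 * (x - 1)) := by
    have h6 := Real.add_one_le_exp (Real.log 3 * (x - 1))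
    have h7 : 1 * (x - 1) ≤ Real.log 3 * (x - 1) :=
      mul_le_mul_of_nonneg_right one_le_log3 (by linarith)
    linarith
  have h8 : 3 * uu j (s + 1) * Real.exp (Real.log 3 * (x - 1)) = 1 := by
    rw [hu, mul_assoc, ← Real.exp_add]
    have : -(Real.log 3 * x) + Real.log 3 * (x - 1) = -Real.log 3 := by ring
    rw [this, Real.exp_neg, Real.exp_log (by norm_num)]
    norm_num
  have h9 : 3 * uu j (s + 1) * x ≤ 1 := by
    rw [← h8]
    exact mul_le_mul_of_nonneg_left h5 (by have := uu_pos j (s + 1); positivity)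
  have h10 : (1 + 3 * uu j (s + 1)) * x ≤ 5 := by nlinarith
  have h11 : (5 : ℝ) / 4 * (4 / x) = 5 / x := by
    field_simp
  rw [h11, le_div_iff₀ hx0]
  exact h10

theorem MM_ratio (i s j : ℕ) : MM i j / MM s j = max ((4 : ℝ) ^ s) j / max ((4 : ℝ) ^ i) j := by
  unfold MM
  have h1 : (0 : ℝ) < max ((4 : ℝ) ^ s) j := lt_max_of_lt_left (by positivity)
  have h2 : (0 : ℝ) < max ((4 : ℝ) ^ i) j := lt_max_of_lt_left (by positivity)
  field_simp

theorem part2 (j i s : ℕ) (his : i ≤ s) (hj : 1 ≤ j) :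
    ∏ t ∈ Finset.Ioc i s, ‖AA t j‖ ≤ 3 / 2 * (max ((4 : ℝ) ^ s) j / max ((4 : ℝ) ^ i) j) := by
  induction s, his using Nat.le_induction with
  | base =>
    have h2 : (0 : ℝ) < max ((4 : ℝ) ^ i) j := lt_max_of_lt_left (by positivity)
    simp only [Finset.Ioc_self, Finset.prod_empty]
    rw [div_self h2.ne']
    norm_num
  | succ s his ih =>
    have h2 : (0 : ℝ) < max ((4 : ℝ) ^ i) j := lt_max_of_lt_left (by positivity)
    have hij : (4 : ℝ) ^ i ≤ 4 ^ s := pow_le_pow_right₀ (by norm_num) his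
    rcases le_total ((4 : ℝ) ^ (s + 1)) (j : ℝ) with h | h
    · have h3 := part1 j i (s + 1) (by omega) h
      have h4 := uu_small h
      rw [max_eq_right h, max_eq_right (hij.trans ((pow_le_pow_right₀ (by norm_num)
        (Nat.le_succ s)).trans h))]
      have hj0 : (0 : ℝ) < j := by exact_mod_cast hj
      rw [div_self hj0.ne']
      linarith
    · rcases le_total ((4 : ℝ) ^ s) (j : ℝ) with h' | h'
      · have h3 := part1 j i s his h'
        have h4 := uu_small h'
        have h5 := mid h' h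
        have hj0 : (0 : ℝ) < j := by exact_mod_cast hj
        rw [max_eq_left h, max_eq_right (hij.trans h'),
          ← Finset.insert_Ioc_right_eq_Ioc_add_one (by omega),
          Finset.prod_insert (by simp)]
        have hR : (0 : ℝ) ≤ 4 ^ (s + 1) / (j : ℝ) := by positivity
        calc ‖AA (s + 1) j‖ * ∏ t ∈ Finset.Ioc i s, ‖AA t j‖
            ≤ (5 / 4 * (4 ^ (s + 1) / j)) * (1 + 6 * (1 / 81)) := by
              refine mul_le_mul h5 (by linarith) (Finset.prod_nonneg fun _ _ => norm_nonneg _)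
                (by positivity)
          _ ≤ 3 / 2 * (4 ^ (s + 1) / (j : ℝ)) := by nlinarith
      · rw [max_eq_left h', ← Finset.insert_Ioc_right_eq_Ioc_add_one (by omega),
          Finset.prod_insert (by simp)] at *
        rw [max_eq_left h]
        have h5 : ‖AA (s + 1) j‖ ≤ 4 := by
          refine (norm_AA (s + 1) j).trans ?_
          have := uu_le_one j (s + 1)
          linarith
        calc ‖AA (s + 1) j‖ * ∏ t ∈ Finset.Ioc i s, ‖AA t j‖
            ≤ 4 * (3 / 2 * (4 ^ s / max ((4 : ℝ) ^ i) j)) := by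
              refine mul_le_mul h5 ih (Finset.prod_nonneg fun _ _ => norm_nonneg _) (by norm_num)
          _ = 3 / 2 * (4 ^ (s + 1) / max ((4 : ℝ) ^ i) j) := by
              rw [pow_succ]
              ring

end WPN

open WPN

theorem t_WP : S_WP := by
  intro i s j his hj
  rw [MM_ratio]
  refine (part2 j i s his hj).trans ?_
  have h1 : (0 : ℝ) ≤ max ((4 : ℝ) ^ s) j / max ((4 : ℝ) ^ i) j := by
    refine div_nonneg ?_ ?_
    · exact le_max_of_le_left (by positivity)
    · exact le_max_of_le_left (by positivity)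
  linarith

end Pool.Agent.H288.TF
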