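import Pool.Agent.H288.TF.Stm

/-!
# Tree-free convolution powers: the weights
-/

set_option autoImplicit false

namespace Pool.Agent.H288.TF

theorem t_WT : S_WT := by
  have hp : ∀ i : ℕ, (0 : ℝ) < 4 ^ i := fun i => by positivity
  refine ⟨?_, ?_, ?_, ?_⟩
  · intro i a b ha hb
    unfold MM
    push_cast
    set x := max ((4 : ℝ) ^ i) (a : ℝ) with hx
    set y := max ((4 : ℝ) ^ i) (b : ℝ) with hy
    set z := max ((4 : ℝ) ^ i) ((a : ℝ) + (b : ℝ)) with hz
    have hp4 := hp i
    have hx1 : (4 : ℝ) ^ i ≤ x := le_max_left _ _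
    have hx2 : (a : ℝ) ≤ x := le_max_right _ _
    have hy1 : (4 : ℝ) ^ i ≤ y := le_max_left _ _
    have hy2 : (b : ℝ) ≤ y := le_max_right _ _
    have hx0 : 0 < x := lt_of_lt_of_le hp4 hx1
    have hy0 : 0 < y := lt_of_lt_of_le hp4 hy1
    have hz0 : 0 < z := lt_of_lt_of_le hp4 (le_max_left _ _)
    have hzxy : z ≤ x + y := by
      apply max_le
      · linarith
      · linarith
    have h1 : 1 / x * (1 / y) = 1 / (x * y) := by field_simp
    have h2 : 2 / (4 : ℝ) ^ i * (1 / z) = 2 / (4 ^ i * z) := by field_simp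
    rw [h1, h2, div_le_div_iff₀ (by positivity) (by positivity)]
    have h3 : (4 : ℝ) ^ i * (x + y) ≤ 2 * (x * y) := by nlinarith
    nlinarith
  · intro i j
    unfold MM
    have hp4 := hp i
    have h1 : (4 : ℝ) ^ i ≤ max ((4 : ℝ) ^ i) (j : ℝ) := le_max_left _ _
    have h0 : 0 < max ((4 : ℝ) ^ i) (j : ℝ) := lt_of_lt_of_le hp4 h1
    refine ⟨by positivity, one_div_le_one_div_of_le hp4 h1, ?_⟩
    apply one_div_le_one_div_of_le h0
    apply max_le_max _ le_rfl
    exact pow_le_pow_right₀ (by norm_num) (Nat.le_succ i)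
  · intro i j hj
    unfold MM
    have : (j : ℝ) ≤ 4 ^ i := by exact_mod_cast hj
    rw [max_eq_left this]
  · intro j hj
    unfold MM
    have : (1 : ℝ) ≤ j := by exact_mod_cast hj
    rw [pow_zero, max_eq_right this]

end Pool.Agent.H288.TF
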