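import Pool.Agent.H288.TF.Stm

/-!
# Tree-free convolution powers: the induction step
-/

set_option autoImplicit false

namespace Pool.Agent.H288.TF

namespace STEPN

lemma cp_nonneg (b : ℕ → ℝ) (hb : ∀ a, 0 ≤ b a) : ∀ p n, 0 ≤ cp b p n := by
  intro p
  induction p with
  | zero =>
    intro n
    unfold cp
    split_ifs <;> norm_num
  | succ p ih =>
    intro n
    unfold cp
    exact Finset.sum_nonneg fun a _ => mul_nonneg (hb a) (ih _)

lemma Phi_nonneg (b : ℕ → ℝ) (hb : ∀ a, 0 ≤ b a) (j : ℕ) : 0 ≤ Phi b j := by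
  unfold Phi
  exact mul_nonneg (by norm_num) (Finset.sum_nonneg fun k _ => cp_nonneg b hb k j)

lemma nlb (h1 : S_WT) (h2 : S_NL) (h3 : S_WP) (L m : ℕ) (h : ℕ → ℕ → ℂ) (b : ℕ → ℝ)
    (hb : ∀ a, 0 ≤ b a) (hm : 1 ≤ m)
    (hh : ∀ s, 1 ≤ s → s ≤ L → ∀ a, 1 ≤ a → a < m → ‖h s a‖ ≤ MM s a * b a) (i : ℕ) :
    ‖∑ s ∈ Finset.Ioc i L, 3 * Nl (qq s) (h s) m * ∏ t ∈ Finset.Ioc i (s - 1), AA t m‖ ≤
      6 * MM i m * Phi b m := by
  have hN := h2 L m h b hb hm hh
  have hpos : ∀ s, 0 < MM s m := fun s => (h1.2.1 s m).1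
  have hterm : ∀ s ∈ Finset.Ioc i L,
      ‖3 * Nl (qq s) (h s) m * ∏ t ∈ Finset.Ioc i (s - 1), AA t m‖
        ≤ 6 * MM i m * (‖Nl (qq s) (h s) m‖ / MM s m) := by
    intro s hs
    rw [Finset.mem_Ioc] at hs
    rw [norm_mul, norm_mul, norm_prod]
    have hw := h3 i (s - 1) m (by omega) hm
    have hmono : MM s m ≤ MM (s - 1) m := by
      have := (h1.2.1 (s - 1) m).2.2
      rwa [Nat.sub_add_cancel (by omega)] at this
    have e3 : ‖(3 : ℂ)‖ = 3 := by norm_num
    rw [e3]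
    have h5 : MM i m / MM (s - 1) m ≤ MM i m / MM s m :=
      div_le_div_of_nonneg_left (hpos i).le (hpos s) hmono
    calc 3 * ‖Nl (qq s) (h s) m‖ * ∏ t ∈ Finset.Ioc i (s - 1), ‖AA t m‖
        ≤ 3 * ‖Nl (qq s) (h s) m‖ * (2 * (MM i m / MM s m)) :=
          mul_le_mul_of_nonneg_left (hw.trans (by linarith)) (by positivity)
      _ = 6 * MM i m * (‖Nl (qq s) (h s) m‖ / MM s m) := by ring
  calc _ ≤ ∑ s ∈ Finset.Ioc i L, 6 * MM i m * (‖Nl (qq s) (h s) m‖ / MM s m) :=
        norm_sum_le_of_le _ hterm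
    _ ≤ ∑ s ∈ Finset.Icc 1 L, 6 * MM i m * (‖Nl (qq s) (h s) m‖ / MM s m) := by
        apply Finset.sum_le_sum_of_subset_of_nonneg
        · intro s hs
          rw [Finset.mem_Ioc] at hs
          rw [Finset.mem_Icc]
          omega
        · intro s _ _
          have := hpos i
          have := hpos s
          positivity
    _ = 6 * MM i m * ∑ s ∈ Finset.Icc 1 L, (‖Nl (qq s) (h s) m‖ / MM s m) := by
        rw [Finset.mul_sum]
    _ ≤ _ := mul_le_mul_of_nonneg_left hN (by have := hpos i; positivity)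

lemma vvb (h1 : S_WT) (h3 : S_WP) (L i m : ℕ) (hi : i ≤ L) (hm : 1 ≤ m) :
    ‖VV L i m‖ ≤ 2 * MM i m / (MM L m * 4 ^ L) := by
  unfold VV
  rw [norm_div, norm_prod, norm_pow]
  have h4 : ‖(4 : ℂ)‖ = 4 := by norm_num
  rw [h4]
  have hw := h3 i L m hi hm
  have hpos := (h1.2.1 L m).1
  rw [div_le_iff₀ (by positivity)]
  calc _ ≤ 2 * (MM i m / MM L m) := hw
    _ = _ := by field_simp

lemma Nl_one (q : ℂ) (h : ℕ → ℂ) : Nl q h 1 = 0 := by
  unfold Nl
  simp

/-- the case off the resonances -/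
lemma caseA (h1 : S_WT) (h2 : S_NL) (h3 : S_WP) (h7 : S_REP) (h8 : S_LOC) (c C : ℝ)
    (hc : 0 < c) (hC : 12 / c + 6 ≤ C) (L k : ℕ) (hk : 1 ≤ k) (b : ℕ → ℝ)
    (hb0 : ∀ j, 0 ≤ b j) (hC1 : ∀ j, 2 ≤ j → C * Phi b j ≤ b j)
    (hlow : c * (MM 0 (2 * k + 1) / MM L (2 * k + 1)) ≤
      ∏ t ∈ Finset.Icc 1 L, ‖AA t (2 * k + 1)‖)
    (g : ℕ → ℂ) (hg : Good L b g (2 * k - 1)) :
    ∃ x y : ℂ,
      (∀ i, i ≤ L → ‖hh L (Function.update g (2 * k) x) i (2 * k)‖ ≤ MM i (2 * k) * b (2 * k)) ∧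
      (∀ i, i ≤ L → ‖hh L (Function.update (Function.update g (2 * k) x) (2 * k + 1) y) i
        (2 * k + 1)‖ ≤ MM i (2 * k + 1) * b (2 * k + 1)) ∧
      hh L (Function.update (Function.update g (2 * k) x) (2 * k + 1) y) 0 (2 * k + 1) = 0 := by
  obtain ⟨hg1, hgb, hgo⟩ := hg
  obtain ⟨l1, l2, l3, l4⟩ := h8
  have hC6 : 6 ≤ C := by
    have : 0 < 12 / c := by positivity
    linarith
  have hPe := Phi_nonneg b hb0 (2 * k)
  have hPj := Phi_nonneg b hb0 (2 * k + 1)
  have hM : ∀ i j, 0 < MM i j := fun i j => (h1.2.1 i j).1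
  -- the modes below `2 k`
  have hlo : ∀ x : ℂ, ∀ i m, m ≤ 2 * k - 1 →
      hh L (Function.update g (2 * k) x) i m = hh L g i m := by
    intro x i m hm
    refine l1 L _ _ (2 * k - 1) (fun a ha => ?_) i m hm
    rw [Function.update_of_ne (by omega)]
  -- mode `2 k`
  have hE : ∀ x : ℂ, ∀ i, i ≤ L → hh L (Function.update g (2 * k) x) i (2 * k) =
      x * VV L i (2 * k) + ∑ s ∈ Finset.Ioc i L, 3 * Nl (qq s) (hh L g s) (2 * k) *
        ∏ t ∈ Finset.Ioc i (s - 1), AA t (2 * k) := by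
    intro x i hi
    rw [h7 L _ (2 * k) i hi, Function.update_self]
    congr 1
    refine Finset.sum_congr rfl fun s hs => ?_
    rw [l4 (qq s) (hh L (Function.update g (2 * k) x) s) (hh L g s) (2 * k) (fun a _ ha2 =>
      hlo x s a (by omega))]
  have hSE : ∀ i, ‖∑ s ∈ Finset.Ioc i L, 3 * Nl (qq s) (hh L g s) (2 * k) *
        ∏ t ∈ Finset.Ioc i (s - 1), AA t (2 * k)‖ ≤ 6 * MM i (2 * k) * Phi b (2 * k) := by
    intro i
    refine nlb h1 h2 h3 L (2 * k) (hh L g) b hb0 (by omega) ?_ i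
    intro s _ hs2 a ha1 ha2
    exact hgb a ha1 (by omega) s hs2
  have hE0 : ∀ i, i ≤ L →
      ‖hh L (Function.update g (2 * k) 0) i (2 * k)‖ ≤ MM i (2 * k) * b (2 * k) := by
    intro i hi
    rw [hE 0 i hi, zero_mul, zero_add]
    refine (hSE i).trans ?_
    have h9 := hC1 (2 * k) (by omega)
    have h10 : 6 * Phi b (2 * k) ≤ b (2 * k) :=
      (mul_le_mul_of_nonneg_right hC6 hPe).trans h9
    calc 6 * MM i (2 * k) * Phi b (2 * k) = MM i (2 * k) * (6 * Phi b (2 * k)) := by ring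
      _ ≤ _ := mul_le_mul_of_nonneg_left h10 (hM _ _).le
  -- mode `2 k + 1`
  have hmid : ∀ y : ℂ, ∀ i m, m ≤ 2 * k →
      hh L (Function.update (Function.update g (2 * k) 0) (2 * k + 1) y) i m =
        hh L (Function.update g (2 * k) 0) i m := by
    intro y i m hm
    refine l1 L _ _ (2 * k) (fun a ha => ?_) i m hm
    rw [Function.update_of_ne (by omega)]
  have hJ : ∀ y : ℂ, ∀ i, i ≤ L →
      hh L (Function.update (Function.update g (2 * k) 0) (2 * k + 1) y) i (2 * k + 1) =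
      y * VV L i (2 * k + 1) + ∑ s ∈ Finset.Ioc i L,
        3 * Nl (qq s) (hh L (Function.update g (2 * k) 0) s) (2 * k + 1) *
        ∏ t ∈ Finset.Ioc i (s - 1), AA t (2 * k + 1) := by
    intro y i hi
    rw [h7 L _ (2 * k + 1) i hi, Function.update_self]
    congr 1
    refine Finset.sum_congr rfl fun s hs => ?_
    rw [l4 (qq s) (hh L (Function.update (Function.update g (2 * k) 0) (2 * k + 1) y) s)
      (hh L (Function.update g (2 * k) 0) s) (2 * k + 1) (fun a _ ha2 =>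
      hmid y s a (by omega))]
  have hSJ : ∀ i, ‖∑ s ∈ Finset.Ioc i L,
        3 * Nl (qq s) (hh L (Function.update g (2 * k) 0) s) (2 * k + 1) *
        ∏ t ∈ Finset.Ioc i (s - 1), AA t (2 * k + 1)‖ ≤
        6 * MM i (2 * k + 1) * Phi b (2 * k + 1) := by
    intro i
    refine nlb h1 h2 h3 L (2 * k + 1) (hh L (Function.update g (2 * k) 0)) b hb0 (by omega) ?_ i
    intro s _ hs2 a ha1 ha2
    rcases Nat.lt_or_ge a (2 * k) with h | h
    · rw [hlo 0 s a (by omega)]
      exact hgb a ha1 (by omega) s hs2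
    · have : a = 2 * k := by omega
      subst this
      exact hE0 s hs2
  set S0 := ∑ s ∈ Finset.Ioc 0 L,
        3 * Nl (qq s) (hh L (Function.update g (2 * k) 0) s) (2 * k + 1) *
        ∏ t ∈ Finset.Ioc 0 (s - 1), AA t (2 * k + 1) with hS0
  have hM0 := hM 0 (2 * k + 1)
  have hML := hM L (2 * k + 1)
  have hV : c * MM 0 (2 * k + 1) / (MM L (2 * k + 1) * 4 ^ L) ≤ ‖VV L 0 (2 * k + 1)‖ := by
    unfold VV
    rw [norm_div, norm_prod, norm_pow]
    have h4 : ‖(4 : ℂ)‖ = 4 := by norm_num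
    rw [h4, le_div_iff₀ (by positivity)]
    have e1 : (Finset.Ioc 0 L : Finset ℕ) = Finset.Icc 1 L := by
      ext t; simp [Nat.succ_le_iff]
    rw [e1]
    refine le_trans (le_of_eq ?_) hlow
    field_simp
  have hVpos : 0 < ‖VV L 0 (2 * k + 1)‖ := lt_of_lt_of_le (by positivity) hV
  have hVne : VV L 0 (2 * k + 1) ≠ 0 := norm_pos_iff.1 hVpos
  refine ⟨0, -S0 / VV L 0 (2 * k + 1), hE0, ?_, ?_⟩
  · intro i hi
    rw [hJ _ i hi]
    refine (norm_add_le _ _).trans ?_
    rw [norm_mul, norm_div, norm_neg]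
    have hy : ‖S0‖ / ‖VV L 0 (2 * k + 1)‖ ≤
        6 / c * (MM L (2 * k + 1) * 4 ^ L) * Phi b (2 * k + 1) := by
      rw [div_le_iff₀ hVpos]
      calc ‖S0‖ ≤ 6 * MM 0 (2 * k + 1) * Phi b (2 * k + 1) := hSJ 0
        _ = 6 / c * (MM L (2 * k + 1) * 4 ^ L) * Phi b (2 * k + 1) *
            (c * MM 0 (2 * k + 1) / (MM L (2 * k + 1) * 4 ^ L)) := by field_simp
        _ ≤ _ := mul_le_mul_of_nonneg_left hV (by positivity)
    have hv := vvb h1 h3 L i (2 * k + 1) hi (by omega)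
    have hMi := hM i (2 * k + 1)
    have e5 : ‖S0‖ / ‖VV L 0 (2 * k + 1)‖ * ‖VV L i (2 * k + 1)‖ ≤
        12 / c * (MM i (2 * k + 1) * Phi b (2 * k + 1)) := by
      calc _ ≤ 6 / c * (MM L (2 * k + 1) * 4 ^ L) * Phi b (2 * k + 1) *
            (2 * MM i (2 * k + 1) / (MM L (2 * k + 1) * 4 ^ L)) :=
            mul_le_mul hy hv (norm_nonneg _) (by positivity)
        _ = _ := by field_simp; ring
    have e6 := hSJ i
    have e7 := hC1 (2 * k + 1) (by omega)
    have e8 : (12 / c + 6) * Phi b (2 * k + 1) ≤ b (2 * k + 1) :=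
      (mul_le_mul_of_nonneg_right hC hPj).trans e7
    calc _ ≤ 12 / c * (MM i (2 * k + 1) * Phi b (2 * k + 1)) +
          6 * MM i (2 * k + 1) * Phi b (2 * k + 1) := add_le_add e5 e6
      _ = MM i (2 * k + 1) * ((12 / c + 6) * Phi b (2 * k + 1)) := by ring
      _ ≤ _ := mul_le_mul_of_nonneg_left e8 hMi.le
  · rw [hJ _ 0 (Nat.zero_le L), div_mul_cancel₀ _ hVne, ← hS0, neg_add_cancel]

/-- the resonant case -/
lemma caseB (h1 : S_WT) (h2 : S_NL) (h3 : S_WP) (h6 : S_AFF) (h7 : S_REP) (h8 : S_LOC) (c C : ℝ)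
    (hc : 0 < c) (hC : 12 / c ≤ C) (hC6 : 6 ≤ C) (L k : ℕ) (hk : 1 ≤ k) (b : ℕ → ℝ)
    (hb0 : ∀ j, 0 ≤ b j) (hC1 : ∀ j, 2 ≤ j → C * Phi b j ≤ b j)
    (hC2 : ∀ e, 2 ≤ e → C * Phi (Function.update b e (C * Phi b e)) (e + 1) + C * Phi b e ≤ b e)
    (hMLe : MM L (2 * k) = 1 / 4 ^ L)
    (hres : c / (2 * k : ℕ) ≤ ‖rr L (2 * k)‖)
    (g : ℕ → ℂ) (hg : Good L b g (2 * k - 1)) :
    ∃ x y : ℂ,
      (∀ i, i ≤ L → ‖hh L (Function.update g (2 * k) x) i (2 * k)‖ ≤ MM i (2 * k) * b (2 * k)) ∧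
      (∀ i, i ≤ L → ‖hh L (Function.update (Function.update g (2 * k) x) (2 * k + 1) y) i
        (2 * k + 1)‖ ≤ MM i (2 * k + 1) * b (2 * k + 1)) ∧
      hh L (Function.update (Function.update g (2 * k) x) (2 * k + 1) y) 0 (2 * k + 1) = 0 := by
  obtain ⟨hg1, hgb, hgo⟩ := hg
  obtain ⟨l1, l2, l3, l4⟩ := h8
  have hPe := Phi_nonneg b hb0 (2 * k)
  have hPj := Phi_nonneg b hb0 (2 * k + 1)
  have hM : ∀ i j, 0 < MM i j := fun i j => (h1.2.1 i j).1
  -- the modes below `2 k`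
  have hlo : ∀ x : ℂ, ∀ i m, m ≤ 2 * k - 1 →
      hh L (Function.update g (2 * k) x) i m = hh L g i m := by
    intro x i m hm
    refine l1 L _ _ (2 * k - 1) (fun a ha => ?_) i m hm
    rw [Function.update_of_ne (by omega)]
  -- mode `2 k`
  have hE : ∀ x : ℂ, ∀ i, i ≤ L → hh L (Function.update g (2 * k) x) i (2 * k) =
      x * VV L i (2 * k) + ∑ s ∈ Finset.Ioc i L, 3 * Nl (qq s) (hh L g s) (2 * k) *
        ∏ t ∈ Finset.Ioc i (s - 1), AA t (2 * k) := by
    intro x i hi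
    rw [h7 L _ (2 * k) i hi, Function.update_self]
    congr 1
    refine Finset.sum_congr rfl fun s hs => ?_
    rw [l4 (qq s) (hh L (Function.update g (2 * k) x) s) (hh L g s) (2 * k) (fun a _ ha2 =>
      hlo x s a (by omega))]
  have hSE : ∀ i, ‖∑ s ∈ Finset.Ioc i L, 3 * Nl (qq s) (hh L g s) (2 * k) *
        ∏ t ∈ Finset.Ioc i (s - 1), AA t (2 * k)‖ ≤ 6 * MM i (2 * k) * Phi b (2 * k) := by
    intro i
    refine nlb h1 h2 h3 L (2 * k) (hh L g) b hb0 (by omega) ?_ i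
    intro s _ hs2 a ha1 ha2
    exact hgb a ha1 (by omega) s hs2
  have hdiff : ∀ x : ℂ, ∀ i, i ≤ L → hh L (Function.update g (2 * k) x) i (2 * k) -
      hh L (Function.update g (2 * k) 0) i (2 * k) = x * VV L i (2 * k) := by
    intro x i hi
    rw [hE x i hi, hE 0 i hi]
    ring
  have hE0 : ∀ i, i ≤ L →
      ‖hh L (Function.update g (2 * k) 0) i (2 * k)‖ ≤ 6 * MM i (2 * k) * Phi b (2 * k) := by
    intro i hi
    rw [hE 0 i hi, zero_mul, zero_add]
    exact hSE i
  -- mode `1`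
  have hone : ∀ s, s ≤ L → hh L (Function.update g (2 * k) 0) s 1 = VV L s 1 := by
    intro s hs
    rw [h7 L _ 1 s hs, Function.update_of_ne (by omega), hg1, one_mul]
    have : ∑ s_1 ∈ Finset.Ioc s L, 3 * Nl (qq s_1) (hh L (Function.update g (2 * k) 0) s_1) 1 *
        ∏ t ∈ Finset.Ioc s (s_1 - 1), AA t 1 = 0 := by
      refine Finset.sum_eq_zero fun t _ => ?_
      rw [Nl_one]; ring
    rw [this, add_zero]
  -- mode `2 k + 1`
  have hmid : ∀ x y : ℂ, ∀ i m, m ≤ 2 * k →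
      hh L (Function.update (Function.update g (2 * k) x) (2 * k + 1) y) i m =
        hh L (Function.update g (2 * k) x) i m := by
    intro x y i m hm
    refine l1 L _ _ (2 * k) (fun a ha => ?_) i m hm
    rw [Function.update_of_ne (by omega)]
  have hJ : ∀ x y : ℂ, ∀ i, i ≤ L →
      hh L (Function.update (Function.update g (2 * k) x) (2 * k + 1) y) i (2 * k + 1) =
      y * VV L i (2 * k + 1) + ∑ s ∈ Finset.Ioc i L,
        3 * Nl (qq s) (hh L (Function.update g (2 * k) x) s) (2 * k + 1) *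
        ∏ t ∈ Finset.Ioc i (s - 1), AA t (2 * k + 1) := by
    intro x y i hi
    rw [h7 L _ (2 * k + 1) i hi, Function.update_self]
    congr 1
    refine Finset.sum_congr rfl fun s hs => ?_
    rw [l4 (qq s) (hh L (Function.update (Function.update g (2 * k) x) (2 * k + 1) y) s)
      (hh L (Function.update g (2 * k) x) s) (2 * k + 1) (fun a _ ha2 =>
      hmid x y s a (by omega))]
  -- the affine dependence
  have hN : ∀ x : ℂ, ∀ s, s ≤ L →
      Nl (qq s) (hh L (Function.update g (2 * k) x) s) (2 * k + 1) =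
      Nl (qq s) (hh L (Function.update g (2 * k) 0) s) (2 * k + 1) -
        Complex.I * (qq s + (2 * k : ℕ) * qq s ^ (2 * k)) * VV L s 1 * (x * VV L s (2 * k)) := by
    intro x s hs
    have e1 : Nl (qq s) (hh L (Function.update g (2 * k) x) s) (2 * k + 1) =
        Nl (qq s) (Function.update (hh L (Function.update g (2 * k) 0) s) (2 * k)
          (hh L (Function.update g (2 * k) x) s (2 * k))) (2 * k + 1) := by
      apply l4
      intro a ha1 ha2
      rcases Nat.lt_or_ge a (2 * k) with h | h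
      · rw [Function.update_of_ne (by omega), hlo x s a (by omega), hlo 0 s a (by omega)]
      · have : a = 2 * k := by omega
        subst this
        rw [Function.update_self]
    rw [e1, h6 (qq s) (hh L (Function.update g (2 * k) 0) s) _ (2 * k) (by omega)
      (fun a ha => Function.update_of_ne ha _ _), Function.update_self, hdiff x s hs, hone s hs]
  set S0 := ∑ s ∈ Finset.Ioc 0 L,
        3 * Nl (qq s) (hh L (Function.update g (2 * k) 0) s) (2 * k + 1) *
        ∏ t ∈ Finset.Ioc 0 (s - 1), AA t (2 * k + 1) with hS0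
  have hSx : ∀ x : ℂ, ∑ s ∈ Finset.Ioc 0 L,
        3 * Nl (qq s) (hh L (Function.update g (2 * k) x) s) (2 * k + 1) *
        ∏ t ∈ Finset.Ioc 0 (s - 1), AA t (2 * k + 1) = S0 + x * rr L (2 * k) := by
    intro x
    have e1 : rr L (2 * k) = ∑ s ∈ Finset.Ioc 0 L, (-3 * Complex.I) *
        (qq s + (2 * k : ℕ) * qq s ^ (2 * k)) * VV L s 1 * VV L s (2 * k) *
        ∏ t ∈ Finset.Ioc 0 (s - 1), AA t (2 * k + 1) := by
      unfold rr
      have e2 : (Finset.Ioc 0 L : Finset ℕ) = Finset.Icc 1 L := by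
        ext t; simp [Nat.succ_le_iff]
      rw [e2]
      refine Finset.sum_congr rfl fun s hs => ?_
      have e3 : (Finset.Ioc 0 (s - 1) : Finset ℕ) = Finset.Ico 1 s := by
        rw [Finset.mem_Icc] at hs
        ext t
        rw [Finset.mem_Ioc, Finset.mem_Ico]
        omega
      rw [e3]
    rw [e1, hS0, Finset.mul_sum, ← Finset.sum_add_distrib]
    refine Finset.sum_congr rfl fun s hs => ?_
    rw [Finset.mem_Ioc] at hs
    rw [hN x s hs.2]
    ring
  -- the bounds for `x = 0`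
  have hb'0 : ∀ a, 0 ≤ Function.update b (2 * k) (C * Phi b (2 * k)) a := by
    intro a
    rcases eq_or_ne a (2 * k) with h | h
    · subst h
      rw [Function.update_self]
      have : 0 ≤ C := by linarith
      positivity
    · rw [Function.update_of_ne h]; exact hb0 a
  have hPj' := Phi_nonneg _ hb'0 (2 * k + 1)
  have hS0b : ‖S0‖ ≤ 6 * MM 0 (2 * k + 1) *
      Phi (Function.update b (2 * k) (C * Phi b (2 * k))) (2 * k + 1) := by
    refine nlb h1 h2 h3 L (2 * k + 1) (hh L (Function.update g (2 * k) 0)) _ hb'0 (by omega) ?_ 0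
    intro s _ hs2 a ha1 ha2
    rcases Nat.lt_or_ge a (2 * k) with h | h
    · rw [hlo 0 s a (by omega), Function.update_of_ne (by omega)]
      exact hgb a ha1 (by omega) s hs2
    · have : a = 2 * k := by omega
      subst this
      rw [Function.update_self]
      refine (hE0 s hs2).trans ?_
      calc 6 * MM s (2 * k) * Phi b (2 * k) = MM s (2 * k) * (6 * Phi b (2 * k)) := by ring
        _ ≤ _ := mul_le_mul_of_nonneg_left (mul_le_mul_of_nonneg_right hC6 hPe) (hM _ _).le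
  have hk0 : (0 : ℝ) < (2 * k : ℕ) := by
    have : 0 < 2 * k := by omega
    exact_mod_cast this
  have hrpos : 0 < ‖rr L (2 * k)‖ := lt_of_lt_of_le (by positivity) hres
  have hrne : rr L (2 * k) ≠ 0 := norm_pos_iff.1 hrpos
  have hM0 : MM 0 (2 * k + 1) ≤ 1 / (2 * k : ℕ) := by
    rw [h1.2.2.2 (2 * k + 1) (by omega)]
    apply one_div_le_one_div_of_le hk0
    push_cast
    linarith
  have hx : ‖-S0 / rr L (2 * k)‖ ≤
      6 / c * Phi (Function.update b (2 * k) (C * Phi b (2 * k))) (2 * k + 1) := by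
    rw [norm_div, norm_neg, div_le_iff₀ hrpos]
    calc ‖S0‖ ≤ 6 * MM 0 (2 * k + 1) *
          Phi (Function.update b (2 * k) (C * Phi b (2 * k))) (2 * k + 1) := hS0b
      _ ≤ 6 * (1 / (2 * k : ℕ)) *
          Phi (Function.update b (2 * k) (C * Phi b (2 * k))) (2 * k + 1) := by
          apply mul_le_mul_of_nonneg_right _ hPj'
          linarith
      _ = 6 / c * Phi (Function.update b (2 * k) (C * Phi b (2 * k))) (2 * k + 1) *
          (c / (2 * k : ℕ)) := by field_simp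
      _ ≤ _ := mul_le_mul_of_nonneg_left hres (by positivity)
  set x0 := -S0 / rr L (2 * k) with hx0
  have hEx : ∀ i, i ≤ L →
      ‖hh L (Function.update g (2 * k) x0) i (2 * k)‖ ≤ MM i (2 * k) * b (2 * k) := by
    intro i hi
    rw [hE x0 i hi]
    refine (norm_add_le _ _).trans ?_
    rw [norm_mul]
    have hv := vvb h1 h3 L i (2 * k) hi (by omega)
    have e4 : MM L (2 * k) * 4 ^ L = 1 := by
      rw [hMLe]; field_simp
    rw [e4, div_one] at hv
    have hMi := hM i (2 * k)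
    have e5 : ‖x0‖ * ‖VV L i (2 * k)‖ ≤
        12 / c * Phi (Function.update b (2 * k) (C * Phi b (2 * k))) (2 * k + 1) *
          MM i (2 * k) := by
      calc _ ≤ 6 / c * Phi (Function.update b (2 * k) (C * Phi b (2 * k))) (2 * k + 1) *
            (2 * MM i (2 * k)) := mul_le_mul hx hv (norm_nonneg _) (by positivity)
        _ = _ := by ring
    have e6 := hSE i
    have e7 := hC2 (2 * k) (by omega)
    have e8 : 12 / c * Phi (Function.update b (2 * k) (C * Phi b (2 * k))) (2 * k + 1) ≤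
        C * Phi (Function.update b (2 * k) (C * Phi b (2 * k))) (2 * k + 1) :=
      mul_le_mul_of_nonneg_right hC hPj'
    have e9 : 6 * Phi b (2 * k) ≤ C * Phi b (2 * k) := mul_le_mul_of_nonneg_right hC6 hPe
    calc _ ≤ 12 / c * Phi (Function.update b (2 * k) (C * Phi b (2 * k))) (2 * k + 1) *
          MM i (2 * k) + 6 * MM i (2 * k) * Phi b (2 * k) := add_le_add e5 e6
      _ = MM i (2 * k) * (12 / c * Phi (Function.update b (2 * k) (C * Phi b (2 * k))) (2 * k + 1)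
          + 6 * Phi b (2 * k)) := by ring
      _ ≤ _ := mul_le_mul_of_nonneg_left (by linarith) hMi.le
  refine ⟨x0, 0, hEx, ?_, ?_⟩
  · intro i hi
    rw [hJ x0 0 i hi, zero_mul, zero_add]
    have hSJ : ‖∑ s ∈ Finset.Ioc i L,
        3 * Nl (qq s) (hh L (Function.update g (2 * k) x0) s) (2 * k + 1) *
        ∏ t ∈ Finset.Ioc i (s - 1), AA t (2 * k + 1)‖ ≤
        6 * MM i (2 * k + 1) * Phi b (2 * k + 1) := by
      refine nlb h1 h2 h3 L (2 * k + 1) (hh L (Function.update g (2 * k) x0)) b hb0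
        (by omega) ?_ i
      intro s _ hs2 a ha1 ha2
      rcases Nat.lt_or_ge a (2 * k) with h | h
      · rw [hlo x0 s a (by omega)]
        exact hgb a ha1 (by omega) s hs2
      · have : a = 2 * k := by omega
        subst this
        exact hEx s hs2
    refine hSJ.trans ?_
    have e7 := hC1 (2 * k + 1) (by omega)
    have e8 : 6 * Phi b (2 * k + 1) ≤ b (2 * k + 1) :=
      (mul_le_mul_of_nonneg_right hC6 hPj).trans e7
    calc 6 * MM i (2 * k + 1) * Phi b (2 * k + 1) =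
        MM i (2 * k + 1) * (6 * Phi b (2 * k + 1)) := by ring
      _ ≤ _ := mul_le_mul_of_nonneg_left e8 (hM _ _).le
  · rw [hJ x0 0 0 (Nat.zero_le L), zero_mul, zero_add, hSx x0, hx0, div_mul_cancel₀ _ hrne,
      add_neg_cancel]

end STEPN

open STEPN in
/-- **STEP.** -/
theorem t_STEP (h1 : S_WT) (h2 : S_NL) (h3 : S_WP) (h4 : S_LOW) (h5 : S_RES) (h6 : S_AFF)
    (h7 : S_REP) (h8 : S_LOC) : S_STEP := by
  obtain ⟨c₁, hc₁, hLOW⟩ := h4
  obtain ⟨c₂, hc₂, hRES⟩ := h5
  have hC0 : 0 < 12 / c₁ := by positivity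
  have hC0' : 0 < 12 / c₂ := by positivity
  refine ⟨12 / c₁ + 12 / c₂ + 6, by linarith, ?_⟩
  intro b hb0 hb1 hC1 hC2 L hL k hk g hg
  have key : ∃ x y : ℂ,
      (∀ i, i ≤ L → ‖hh L (Function.update g (2 * k) x) i (2 * k)‖ ≤ MM i (2 * k) * b (2 * k)) ∧
      (∀ i, i ≤ L → ‖hh L (Function.update (Function.update g (2 * k) x) (2 * k + 1) y) i
        (2 * k + 1)‖ ≤ MM i (2 * k + 1) * b (2 * k + 1)) ∧
      hh L (Function.update (Function.update g (2 * k) x) (2 * k + 1) y) 0 (2 * k + 1) = 0 := by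
    by_cases hcase : ∀ t, 1 ≤ t → t ≤ L → 1 / 4000 ≤ |4 * (((2 * k + 1 : ℕ)) : ℝ) / 4 ^ t - 1|
    · exact caseA h1 h2 h3 h7 h8 c₁ _ hc₁ (by linarith) L k hk b hb0 hC1
        (hLOW L (2 * k + 1) (by omega) hcase) g hg
    · push Not at hcase
      obtain ⟨t, ht1, ht2, ht⟩ := hcase
      have ht' : |4 * (((2 * k : ℕ) : ℝ) + 1) / 4 ^ t - 1| < 1 / 4000 := by
        have : (((2 * k + 1 : ℕ)) : ℝ) = ((2 * k : ℕ) : ℝ) + 1 := by push_cast; ring
        rwa [this] at ht
      have hle : 2 * k ≤ 4 ^ L := by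
        have h9 := (abs_lt.1 ht').2
        have h10 : 4 * (((2 * k : ℕ) : ℝ) + 1) / 4 ^ t < 2 := by linarith
        rw [div_lt_iff₀ (by positivity)] at h10
        have h11 : ((2 * k : ℕ) : ℝ) ≤ 4 ^ t := by
          have : (0 : ℝ) < 4 ^ t := by positivity
          linarith
        have h12 : 2 * k ≤ 4 ^ t := by exact_mod_cast h11
        exact h12.trans (Nat.pow_le_pow_right (by norm_num) ht2)
      exact caseB h1 h2 h3 h6 h7 h8 c₂ _ hc₂ (by linarith) (by linarith) L k hk b hb0 hC1 hC2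
        (h1.2.2.1 L (2 * k) hle) (hRES L (2 * k) (by omega) (even_two_mul k) ⟨t, ht1, ht2, ht'⟩)
        g hg
  obtain ⟨x, y, kE, kJ, k0⟩ := key
  obtain ⟨hg1, hgb, hgo⟩ := hg
  obtain ⟨l1, -, -, -⟩ := h8
  have hlo : ∀ i m, m ≤ 2 * k - 1 →
      hh L (Function.update (Function.update g (2 * k) x) (2 * k + 1) y) i m = hh L g i m := by
    intro i m hm
    refine l1 L _ _ (2 * k - 1) (fun a ha => ?_) i m hm
    rw [Function.update_of_ne (by omega), Function.update_of_ne (by omega)]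
  refine ⟨x, y, ?_, ?_, ?_⟩
  · rw [Function.update_of_ne (by omega), Function.update_of_ne (by omega)]
    exact hg1
  · intro m hm1 hm2 i hi
    rcases Nat.lt_or_ge m (2 * k) with h | h
    · rw [hlo i m (by omega)]
      exact hgb m hm1 (by omega) i hi
    · rcases Nat.eq_or_lt_of_le h with h' | h'
      · subst h'
        have e1 : hh L (Function.update (Function.update g (2 * k) x) (2 * k + 1) y) i (2 * k) =
            hh L (Function.update g (2 * k) x) i (2 * k) := by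
          refine l1 L _ _ (2 * k) (fun a ha => ?_) i _ le_rfl
          rw [Function.update_of_ne (by omega)]
        rw [e1]
        exact kE i hi
      · have : m = 2 * k + 1 := by omega
        subst this
        exact kJ i hi
  · intro m hm hodd
    rcases Nat.lt_or_ge m (2 * k) with h | h
    · rw [hlo 0 m (by omega)]
      exact hgo m (by omega) hodd
    · rcases Nat.eq_or_lt_of_le h with h' | h'
      · subst h'
        exact absurd hodd (by simp)
      · have : m = 2 * k + 1 := by omega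
        subst this
        exact k0

end Pool.Agent.H288.TF
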